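import Pool.Agent.W647.HX2

/-!
# The even Chern character at elements of bounded `p`-height
-/

set_option autoImplicit false
set_option linter.unusedSectionVars false

namespace Pool.Agent.W647.HV1

open Finset Pool.Agent.H23R2 Pool.Agent.H23R2.Cyc

section core

variable {G : Type*} [Group G] {g : G} {A : Type*} [Ring A] {S : Type*} [Fintype S]
  (dg : S → G) (a : S → A) {M : Type*} [AddCommGroup M] {T : A →+ M} {c : V g A} {t : G → G}

/-- **Divisibility of the weighted sum over all words of length `p ^ (m + b)`.** -/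
theorem sum_words_height (hT : ∀ a b, T (a * b) = T (b * a)) (hcen : c ∈ Cen g A)
    (hD : ∀ m, D m (ev c) = 0) (hth : ∀ z (hz : z * g = g * z), th z hz c = c)
    (ht : ∀ y, IsConj y g → t y * y * (t y)⁻¹ = g) (k : ℕ)
    (H : Subgroup G) (hdg : ∀ s, dg s ∈ H) {p : ℕ} (hp : p.Prime) (b : ℕ)
    (hroot : ∀ y ∈ H, IsConj y g → ∀ x ∈ H, x ^ p ^ (b + 1) ≠ y) (m : ℕ) :
    ∃ y : M, ∑ w : Fin (p ^ (m + b)) → S, PhiN dg a T c t k (List.ofFn w) =
      p ^ m • y := by
  classical
  have hN0 : p ^ (m + b) ≠ 0 := pow_ne_zero _ hp.ne_zero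
  have : NeZero (p ^ (m + b)) := ⟨hN0⟩
  let DD : AddSubgroup M := (nsmulAddMonoidHom (α := M) (p ^ m)).range
  have key := cyc_sum (fun v : FreeMonoid S => PhiN dg a T c t k (FreeMonoid.toList v))
    (fun u v => by
      show PhiN dg a T c t k (FreeMonoid.toList (u * v)) =
        PhiN dg a T c t k (FreeMonoid.toList (v * u))
      rw [FreeMonoid.toList_mul, FreeMonoid.toList_mul]
      exact PhiN_rot dg a hT hcen hD hth ht k _ _) (p ^ (m + b)) DD ?_
  · obtain ⟨y, hy⟩ := key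
    exact ⟨y, hy.symm⟩
  · intro u d q hdq hu
    show d • PhiN dg a T c t k (FreeMonoid.toList (u ^ q)) ∈ DD
    rw [toList_pow]
    rw [PhiN]
    by_cases hy : IsConj ((List.replicate q (FreeMonoid.toList u)).flatten.map dg).prod g
    · rw [if_pos hy]
      have h1 : ((List.replicate q (FreeMonoid.toList u)).flatten.map dg).prod =
          ((FreeMonoid.toList u).map dg).prod ^ q := by
        rw [prod_flat, List.prod_flatten, List.map_replicate, List.prod_replicate]
      have hmem : ((FreeMonoid.toList u).map dg).prod ∈ H := by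
        apply Subgroup.list_prod_mem
        intro x hx
        obtain ⟨s, _, rfl⟩ := List.mem_map.1 hx
        exact hdg s
      have hqN : q ∣ p ^ (m + b) := ⟨d, by rw [mul_comm]; exact hdq.symm⟩
      obtain ⟨j, hj, hqj⟩ := (Nat.dvd_prime_pow hp).1 hqN
      have hjb : j ≤ b := by
        by_contra hcon
        push Not at hcon
        rw [h1] at hy
        apply hroot _ (H.pow_mem hmem q) hy
          (((FreeMonoid.toList u).map dg).prod ^ p ^ (j - (b + 1))) (H.pow_mem hmem _)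
        rw [← pow_mul, ← pow_add, hqj]
        congr 2
        omega
      have hdvd : p ^ m ∣ d := by
        have h2 : p ^ j * p ^ (m + b - j) = p ^ (m + b) := by
          rw [← pow_add]; congr 1; omega
        have h3 : d = p ^ (m + b - j) := by
          have h4 : p ^ j * d = p ^ j * p ^ (m + b - j) := by
            rw [h2, ← hdq, hqj, mul_comm]
          exact Nat.eq_of_mul_eq_mul_left (pow_pos hp.pos j) h4
        rw [h3]
        exact pow_dvd_pow p (by omega)
      obtain ⟨e, he⟩ := hdvd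
      rw [he, mul_smul]
      exact ⟨_, rfl⟩
    · rw [if_neg hy, smul_zero]
      exact DD.zero_mem

/-- **Divisibility at the elements of bounded `p`-height.** -/
theorem chern_height (he : el dg a * el dg a = el dg a)
    (hT : ∀ a b, T (a * b) = T (b * a)) (hcen : c ∈ Cen g A)
    (hD : ∀ m, D m (ev c) = 0) (hth : ∀ z (hz : z * g = g * z), th z hz c = c)
    (ht : ∀ y, IsConj y g → t y * y * (t y)⁻¹ = g) (k : ℕ)
    (H : Subgroup G) (hdg : ∀ s, dg s ∈ H) {p : ℕ} (hp : p.Prime) (b : ℕ)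
    (hroot : ∀ y ∈ H, IsConj y g → ∀ x ∈ H, x ^ p ^ (b + 1) ≠ y) (m : ℕ) :
    ∃ y : M, (2 * (k + 1)).descFactorial (k + 1) •
      ∑ w : Fin (2 * (k + 1) + 1) → S, PhiU dg a T c t (List.ofFn w) = p ^ m • y := by
  obtain ⟨y, hy⟩ := sum_words_height (T := T) (c := c) dg a hT hcen hD hth ht (k + 1) H hdg hp b
    hroot (m + (2 * k + 4))
  rw [sum_N_eq_U dg a he ht] at hy
  set Z := ∑ w : Fin (2 * (k + 1) + 1) → S, PhiU dg a T c t (List.ofFn w) with hZ
  have hN : 2 * k + 4 < p ^ (m + (2 * k + 4) + b) := by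
    calc 2 * k + 4 < p ^ (2 * k + 4) := Nat.lt_pow_self hp.one_lt
      _ ≤ p ^ (m + (2 * k + 4) + b) := Nat.pow_le_pow_right hp.pos (by omega)
  obtain ⟨n, hn⟩ : ∃ n, p ^ (m + (2 * k + 4) + b) = n + (k + 1) + 1 :=
    ⟨p ^ (m + (2 * k + 4) + b) - (k + 2), by omega⟩
  obtain ⟨s, hs⟩ := desc_mod (k + 1) n _ hn (by omega)
  have h1 : (ca (p ^ (m + (2 * k + 4) + b)) (k + 1)).1 = n.descFactorial (k + 1) := by
    rw [hn, ca_eq]
  rw [h1] at hy
  refine ⟨(-1 : ℤ) ^ (k + 1) • (p ^ (2 * k + 4) • y) + s • (p ^ (2 * k + 4 + b) • Z), ?_⟩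
  rw [← natCast_zsmul, hs, add_smul, mul_smul, natCast_zsmul, hy, smul_add]
  congr 1
  · rw [pow_add p m (2 * k + 4), mul_smul, smul_comm]
  · rw [mul_smul, smul_comm, natCast_zsmul, smul_comm (p ^ m) s]
    congr 1
    rw [smul_smul, ← pow_add]
    congr 2
    ring

end core

section matrix

variable {G : Type*} [Group G] {R : Type*} [Ring R] {d : Type*} [Fintype d] [DecidableEq d]
  {M : Type*} [AddCommGroup M]

theorem chernSum_height (T : R →+ M) (hT : ∀ a b, T (a * b) = T (b * a)) {g : G}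
    {t : G → G} (ht : ∀ y, IsConj y g → t y * y * (t y)⁻¹ = g) {k : ℕ}
    (hk : k ≠ 0) {c : (Fin (2 * k + 1) → G) → R} (hc : IsClassCocycle g c)
    (hcen : ∀ v a, a * c v = c v * a)
    (e : Matrix d d (MonoidAlgebra R G)) (he : e * e = e)
    (H : Subgroup G) (hH : ∀ i j s, (e i j).coeff s ≠ 0 → s ∈ H)
    {p : ℕ} (hp : p.Prime) (b : ℕ)
    (hroot : ∀ y ∈ H, IsConj y g → ∀ x ∈ H, x ^ p ^ (b + 1) ≠ y) (m : ℕ) :
    ∃ y : M, (2 * k).descFactorial k • chernSum T g t c e = p ^ m • y := by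
  classical
  obtain ⟨k, rfl⟩ := Nat.exists_eq_succ_of_ne_zero hk
  let S : Finset G := univ.biUnion fun i => univ.biUnion fun j => (e i j).coeff.support
  have hS : ∀ i j, (e i j).coeff.support ⊆ S := fun i j =>
    (Finset.subset_biUnion_of_mem (fun j => (e i j).coeff.support) (mem_univ j)).trans
      (Finset.subset_biUnion_of_mem (fun i => univ.biUnion fun j => (e i j).coeff.support)
        (mem_univ i))
  have hSH : ∀ s : S, (s : G) ∈ H := by
    rintro ⟨s, hs⟩
    obtain ⟨i, _, hi⟩ := Finset.mem_biUnion.1 hs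
    obtain ⟨j, _, hj⟩ := Finset.mem_biUnion.1 hi
    exact hH i j s (Finsupp.mem_support_iff.1 hj)
  obtain ⟨y, hy⟩ := chern_height (T := mT d T) (c := lV (cmat_class (d := d) hc)) (t := t)
    (fun s : S => (s : G)) (fun s : S => cm e (s : G)) (el_idem e he S hS) (mT_comm T hT)
    (Cen_lV _ (cmat_cen hcen)) (D_lc (cmat_class (d := d) hc)) (th_lV _) ht k H hSH hp b hroot m
  have h1 := chernSum_eq (d := d) T ht hc e S hS
  have h2 : (2 * (k + 1)).descFactorial (k + 1) •
      (((Equiv.Perm.sign (Equiv.neg (Fin (2 * (k + 1) + 1))) : ℤˣ) : ℤ) • chernSum T g t c e) =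
        p ^ m • y := by
    rw [← hy]
    exact congrArg _ h1.symm
  rcases Int.units_eq_one_or (Equiv.Perm.sign (Equiv.neg (Fin (2 * (k + 1) + 1)))) with h3 | h3
  · rw [h3, Units.val_one, one_smul] at h2
    exact ⟨y, h2⟩
  · rw [h3, Units.val_neg, Units.val_one, neg_smul, one_smul, smul_neg] at h2
    exact ⟨-y, by rw [smul_neg, ← h2, neg_neg]⟩

end matrix

end Pool.Agent.W647.HV1

namespace Pool.Agent.W647.HX1

open Finset Pool.Agent.W647.HV1 Pool.Agent.W647.HW1
open scoped TensorProduct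

section coc

variable {G : Type*} [Group G] {R : Type*} [Ring R] {A : Type*} [AddCommGroup A]
  {M : Type*} [AddCommGroup M] {d : Type*} [Fintype d] [DecidableEq d]

theorem evTau_height (T : R →+ A →+ M) (hT : ∀ x y, T (x * y) = T (y * x)) {g : G}
    {t : G → G} (ht : ∀ y, IsConj y g → t y * y * (t y)⁻¹ = g) {k : ℕ}
    (hk : k ≠ 0) {c : (Fin (2 * k + 1) → G) → A} (hc : IsClassCoc g c)
    (e : Matrix d d (MonoidAlgebra R G)) (he : e * e = e)
    (H : Subgroup G) (hH : ∀ s, cm e s ≠ 0 → s ∈ H)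
    {p : ℕ} (hp : p.Prime) (b : ℕ)
    (hroot : ∀ y ∈ H, IsConj y g → ∀ x ∈ H, x ^ p ^ (b + 1) ≠ y) (m : ℕ) :
    ∃ y : M, (2 * k).descFactorial k • evTau T g t c (cm e) = p ^ m • y := by
  rw [← chernSum_em]
  refine chernSum_height (tE T) (tE_comm T hT) ht hk (κ_class' hc) (fun v a => κ_cen a _)
    (em A e) (by rw [← em_mul, he]) H ?_ hp b hroot m
  intro i j s h
  refine hH s fun h0 => h ?_
  have h1 := congrFun (congrFun (cm_em (A := A) e s) i) j
  have h2 : ((em A e) i j).coeff s = ι R A ((e i j).coeff s) := h1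
  have h3 : (e i j).coeff s = 0 := congrFun (congrFun h0 i) j
  rw [h2, h3, map_zero]

end coc

section graded

variable {G : Type*} [Group G] [DecidableEq G] {S : Type*} [Ring S] (𝒮 : G → AddSubgroup S)
  [DirectSum.Decomposition 𝒮] {d : Type*} [Fintype d] [DecidableEq d]
  {A : Type*} [AddCommGroup A] {M : Type*} [AddCommGroup M]

theorem graded_even_height (h1 : (1 : S) ∈ 𝒮 1)
    (hmul : ∀ g h : G, ∀ x ∈ 𝒮 g, ∀ y ∈ 𝒮 h, x * y ∈ 𝒮 (g * h))
    (T : S →+ A →+ M) (hT : ∀ x y, T (x * y) = T (y * x)) {g : G}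
    {t : G → G} (ht : ∀ y, IsConj y g → t y * y * (t y)⁻¹ = g) {k : ℕ}
    (hk : k ≠ 0) {c : (Fin (2 * k + 1) → G) → A} (hc : IsClassCoc g c)
    (e : Matrix d d S) (he : e * e = e)
    (H : Subgroup G) (hH : ∀ s, gc 𝒮 e s ≠ 0 → s ∈ H)
    {p : ℕ} (hp : p.Prime) (b : ℕ)
    (hroot : ∀ y ∈ H, IsConj y g → ∀ x ∈ H, x ^ p ^ (b + 1) ≠ y) (m : ℕ) :
    ∃ y : M, (2 * k).descFactorial k • evTau T g t c (gc 𝒮 e) = p ^ m • y := by
  rw [← cm_coa 𝒮 h1 hmul e] at *
  exact evTau_height T hT ht hk hc _ (by rw [← map_mul, he]) H hH hp b hroot m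

end graded

end Pool.Agent.W647.HX1
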