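import Mathlib

/-! Exponential sums with bounded coefficients: the maximal function at dyadic points, and dimensions of upper limits. -/

set_option autoImplicit false

open Filter MeasureTheory Finset
open scoped ENNReal NNReal Topology

namespace Pool.Agent.H274.ExpSum

/-- the dimension of an upper limit of finite unions of intervals -/
theorem dim_limsup (G : ℕ → Finset ℝ) (ρ : ℕ → ℝ) (hρ : ∀ k, 0 < ρ k) (hρ0 : Tendsto ρ atTop (𝓝 0)) {D : ℝ} (hD : 0 < D)
    (hsum : Summable fun k => ((G k).card : ℝ) * (2 * ρ k) ^ D) :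
    dimH {t : ℝ | ∀ n : ℕ, ∃ k : ℕ, n ≤ k ∧ ∃ c ∈ G k, |t - c| ≤ ρ k} ≤ ENNReal.ofReal D := by
  have hDn : ((Real.toNNReal D : ℝ≥0) : ℝ) = D := Real.coe_toNNReal D hD.le
  have hgoal : ENNReal.ofReal D = ((Real.toNNReal D : ℝ≥0) : ℝ≥0∞) := rfl
  rw [hgoal]
  apply dimH_le_of_hausdorffMeasure_ne_top
  rw [hDn]
  have h2ρ : ∀ k, 0 < 2 * ρ k := fun k => by have := hρ k; linarith
  have hr : ∀ ε : ℝ≥0∞, 0 < ε → ∃ N : ℕ, ∀ n : ℕ, N ≤ n → ENNReal.ofReal (2 * ρ n) ≤ ε := by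
    intro ε hε
    have h0 : Tendsto (fun n => 2 * ρ n) atTop (𝓝 0) := by simpa using hρ0.const_mul 2
    have h1 := ENNReal.tendsto_ofReal h0
    rw [ENNReal.ofReal_zero] at h1
    exact ((h1.eventually (ge_mem_nhds hε))).exists_forall_of_atTop
  set r : ℕ → ℝ≥0∞ := fun n => ⨆ i : ℕ, ENNReal.ofReal (2 * ρ (n + i)) with hrdef
  have hrt : Tendsto r atTop (𝓝 0) := by
    rw [ENNReal.tendsto_atTop_zero]
    intro ε hε
    obtain ⟨N, hN⟩ := hr ε hε
    exact ⟨N, fun n hn => iSup_le fun i => hN _ (by omega)⟩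
  have hd : ∀ (n : ℕ) (q : Σ i : ℕ, (G (n + i))),
      Metric.ediam (Set.Icc ((q.2 : ℝ) - ρ (n + q.1)) ((q.2 : ℝ) + ρ (n + q.1))) = ENNReal.ofReal (2 * ρ (n + q.1)) := by
    intro n q
    rw [Real.ediam_Icc]
    congr 1
    ring
  have key := Measure.hausdorffMeasure_le_liminf_tsum (X := ℝ) (β := ℕ)
    (ι := fun n => Σ i : ℕ, (G (n + i))) D
    {t : ℝ | ∀ n : ℕ, ∃ k : ℕ, n ≤ k ∧ ∃ c ∈ G k, |t - c| ≤ ρ k}
    (l := atTop) r hrt
    (fun n q => Set.Icc ((q.2 : ℝ) - ρ (n + q.1)) ((q.2 : ℝ) + ρ (n + q.1)))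
    (Eventually.of_forall fun n q => by
      rw [hd n q]
      exact le_iSup (fun i : ℕ => ENNReal.ofReal (2 * ρ (n + i))) q.1)
    (Eventually.of_forall fun n t ht => by
      obtain ⟨k, hk, c, hc, hc2⟩ := ht n
      obtain ⟨i, rfl⟩ := Nat.exists_eq_add_of_le hk
      rw [Set.mem_iUnion]
      refine ⟨⟨i, ⟨c, hc⟩⟩, ?_⟩
      rw [abs_le] at hc2
      constructor
      · simp only
        linarith [hc2.1]
      · simp only
        linarith [hc2.2])
  refine ne_top_of_le_ne_top ?_ key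
  have hnn : ∀ m : ℕ, 0 ≤ ((G m).card : ℝ) * (2 * ρ m) ^ D := fun m =>
    mul_nonneg (Nat.cast_nonneg _) (Real.rpow_nonneg (h2ρ m).le _)
  have htot : (∑' m : ℕ, ENNReal.ofReal (((G m).card : ℝ) * (2 * ρ m) ^ D)) ≠ ⊤ := by
    rw [← ENNReal.ofReal_tsum_of_nonneg hnn hsum]
    exact ENNReal.ofReal_ne_top
  have hbound : ∀ n : ℕ, (∑' q : Σ i : ℕ, (G (n + i)),
      Metric.ediam (Set.Icc ((q.2 : ℝ) - ρ (n + q.1)) ((q.2 : ℝ) + ρ (n + q.1))) ^ D) ≤
      ∑' m : ℕ, ENNReal.ofReal (((G m).card : ℝ) * (2 * ρ m) ^ D) := by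
    intro n
    rw [ENNReal.tsum_sigma']
    calc (∑' i : ℕ, ∑' x : (G (n + i)), Metric.ediam (Set.Icc ((x : ℝ) - ρ (n + i)) ((x : ℝ) + ρ (n + i))) ^ D)
        ≤ ∑' i : ℕ, ENNReal.ofReal (((G (n + i)).card : ℝ) * (2 * ρ (n + i)) ^ D) := by
          apply ENNReal.tsum_le_tsum
          intro i
          have h1 : ∀ x : (G (n + i)),
              Metric.ediam (Set.Icc ((x : ℝ) - ρ (n + i)) ((x : ℝ) + ρ (n + i))) ^ D =
                ENNReal.ofReal ((2 * ρ (n + i)) ^ D) := by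
            intro x
            rw [hd n ⟨i, x⟩, ENNReal.ofReal_rpow_of_pos (h2ρ _)]
          simp only [h1]
          rw [tsum_fintype]
          simp only [Finset.sum_const, Finset.card_univ, Fintype.card_coe, nsmul_eq_mul]
          rw [← ENNReal.ofReal_natCast, ← ENNReal.ofReal_mul (by positivity)]
      _ ≤ ∑' m : ℕ, ENNReal.ofReal (((G m).card : ℝ) * (2 * ρ m) ^ D) :=
          ENNReal.tsum_comp_le_tsum_of_injective (f := fun i : ℕ => n + i)
            (fun a b h => by simpa using h) (fun m : ℕ => ENNReal.ofReal (((G m).card : ℝ) * (2 * ρ m) ^ D))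
  refine ne_top_of_le_ne_top htot ?_
  apply Filter.liminf_le_of_le
  · isBoundedDefault
  · intro b hb
    obtain ⟨n, hn⟩ := hb.exists
    exact hn.trans (hbound n)

/-- a maximal inequality -/
theorem maximal {ι : Type} (I : Finset ι) (f : ℕ → ι → ℂ) (W : ℝ) (K : ℕ) (hW : 0 ≤ W)
    (h : ∀ s k : ℕ, k ≤ K → ∑ i ∈ I, ‖∑ n ∈ Ico s (s + 2 ^ k), f n i‖ ^ 2 ≤ W * 2 ^ k) :
    ∀ k : ℕ, k ≤ K → ∀ s : ℕ, ∃ M : ι → ℝ, (∀ i, 0 ≤ M i) ∧
      (∀ i, ∀ r ≤ 2 ^ k, ‖∑ n ∈ Ico s (s + r), f n i‖ ≤ M i) ∧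
      ∑ i ∈ I, M i ^ 2 ≤ ((k : ℝ) + 1) ^ 2 * W * 2 ^ k := by
  intro k
  induction k with
  | zero =>
    intro _ s
    refine ⟨fun i => ‖f s i‖, fun i => norm_nonneg _, fun i r hr => ?_, ?_⟩
    · have hr' : r = 0 ∨ r = 1 := by
        rw [pow_zero] at hr
        omega
      rcases hr' with rfl | rfl
      · simp
      · simp
    · have h1 := h s 0 (Nat.zero_le _)
      simpa using h1
  | succ k ih =>
    intro hk s
    obtain ⟨M1, h10, h11, h12⟩ := ih (by omega) s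
    obtain ⟨M2, h20, h21, h22⟩ := ih (by omega) (s + 2 ^ k)
    have h3 := h s k (by omega)
    refine ⟨fun i => ‖∑ n ∈ Ico s (s + 2 ^ k), f n i‖ + max (M1 i) (M2 i), fun i => ?_, fun i r hr => ?_, ?_⟩
    · have := h10 i
      have := le_max_left (M1 i) (M2 i)
      positivity
    · rcases le_total r (2 ^ k) with hr1 | hr1
      · have h4 := h11 i r hr1
        have h5 := le_max_left (M1 i) (M2 i)
        have h6 : 0 ≤ ‖∑ n ∈ Ico s (s + 2 ^ k), f n i‖ := norm_nonneg _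
        linarith
      · obtain ⟨r', rfl⟩ := Nat.exists_eq_add_of_le hr1
        have hr2 : r' ≤ 2 ^ k := by
          rw [pow_succ] at hr
          omega
        have h4 := h21 i r' hr2
        have h5 := le_max_right (M1 i) (M2 i)
        have h6 : ∑ n ∈ Ico s (s + (2 ^ k + r')), f n i =
            ∑ n ∈ Ico s (s + 2 ^ k), f n i + ∑ n ∈ Ico (s + 2 ^ k) (s + 2 ^ k + r'), f n i := by
          rw [← add_assoc]
          exact (Finset.sum_Ico_consecutive (fun n => f n i) (by omega) (by omega)).symm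
        rw [h6]
        exact (norm_add_le _ _).trans (by linarith)
    · have hk1 : (0 : ℝ) < (k : ℝ) + 1 := by positivity
      have h4 : ∀ i ∈ I, (‖∑ n ∈ Ico s (s + 2 ^ k), f n i‖ + max (M1 i) (M2 i)) ^ 2 ≤
          ((k : ℝ) + 2) * ‖∑ n ∈ Ico s (s + 2 ^ k), f n i‖ ^ 2 +
            (((k : ℝ) + 2) / ((k : ℝ) + 1)) * (M1 i ^ 2 + M2 i ^ 2) := by
        intro i _
        set x := ‖∑ n ∈ Ico s (s + 2 ^ k), f n i‖
        have hy : max (M1 i) (M2 i) ^ 2 ≤ M1 i ^ 2 + M2 i ^ 2 := by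
          rcases max_cases (M1 i) (M2 i) with ⟨h, _⟩ | ⟨h, _⟩ <;> rw [h] <;> nlinarith [sq_nonneg (M1 i), sq_nonneg (M2 i)]
        set y := max (M1 i) (M2 i)
        have h5 : (x + y) ^ 2 ≤ ((k : ℝ) + 2) * x ^ 2 + (((k : ℝ) + 2) / ((k : ℝ) + 1)) * y ^ 2 := by
          have h6 : ((k : ℝ) + 2) * x ^ 2 + (((k : ℝ) + 2) / ((k : ℝ) + 1)) * y ^ 2 - (x + y) ^ 2 =
              (((k : ℝ) + 1) * x - y) ^ 2 / ((k : ℝ) + 1) := by
            field_simp
            ring
          have h7 : 0 ≤ (((k : ℝ) + 1) * x - y) ^ 2 / ((k : ℝ) + 1) := by positivity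
          linarith
        have h8 : (((k : ℝ) + 2) / ((k : ℝ) + 1)) * y ^ 2 ≤ (((k : ℝ) + 2) / ((k : ℝ) + 1)) * (M1 i ^ 2 + M2 i ^ 2) :=
          mul_le_mul_of_nonneg_left hy (by positivity)
        linarith
      refine (Finset.sum_le_sum h4).trans ?_
      rw [Finset.sum_add_distrib, ← Finset.mul_sum, ← Finset.mul_sum, Finset.sum_add_distrib]
      have h5 : ((k : ℝ) + 2) * ∑ i ∈ I, ‖∑ n ∈ Ico s (s + 2 ^ k), f n i‖ ^ 2 ≤ ((k : ℝ) + 2) * (W * 2 ^ k) :=
        mul_le_mul_of_nonneg_left h3 (by positivity)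
      have h6 : (((k : ℝ) + 2) / ((k : ℝ) + 1)) * (∑ i ∈ I, M1 i ^ 2 + ∑ i ∈ I, M2 i ^ 2) ≤
          (((k : ℝ) + 2) / ((k : ℝ) + 1)) * (((k : ℝ) + 1) ^ 2 * W * 2 ^ k + ((k : ℝ) + 1) ^ 2 * W * 2 ^ k) :=
        mul_le_mul_of_nonneg_left (add_le_add h12 h22) (by positivity)
      have h7 : (((k : ℝ) + 2) / ((k : ℝ) + 1)) * (((k : ℝ) + 1) ^ 2 * W * 2 ^ k + ((k : ℝ) + 1) ^ 2 * W * 2 ^ k) =
          2 * (((k : ℝ) + 2) * ((k : ℝ) + 1) * W * 2 ^ k) := by
        field_simp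
        ring
      rw [h7] at h6
      refine (add_le_add h5 h6).trans ?_
      have h8 : 0 ≤ W * 2 ^ k := by positivity
      push_cast
      rw [pow_succ (2 : ℝ) k]
      have h9 : ((k : ℝ) + 2) * (W * 2 ^ k) + 2 * (((k : ℝ) + 2) * ((k : ℝ) + 1) * W * 2 ^ k) =
          (((k : ℝ) + 2) + 2 * (((k : ℝ) + 2) * ((k : ℝ) + 1))) * (W * 2 ^ k) := by ring
      have h10 : ((k : ℝ) + 1 + 1) ^ 2 * W * (2 ^ k * 2) = (2 * ((k : ℝ) + 2) ^ 2) * (W * 2 ^ k) := by ring
      rw [h9, h10]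
      refine mul_le_mul_of_nonneg_right ?_ h8
      nlinarith [(Nat.cast_nonneg k : (0 : ℝ) ≤ k)]

/-- orthogonality -/
theorem orth {X : ℕ} (hX : 0 < X) (a : ℕ → ℂ) (ha : ∀ n, ‖a n‖ ≤ 1) (s L : ℕ) (hL : L ≤ X) :
    ∑ i ∈ range X, ‖∑ n ∈ Ico s (s + L), a n * Complex.exp (2 * Real.pi * Complex.I * n * (((i : ℝ) / X : ℝ) : ℂ))‖ ^ 2 ≤
      (X : ℝ) * L := by
  set ζ : ℂ := Complex.exp (2 * Real.pi * Complex.I / X) with hζ
  have hprim : IsPrimitiveRoot ζ X := Complex.isPrimitiveRoot_exp X hX.ne'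
  have hζn : ‖ζ‖ = 1 := hprim.norm'_eq_one hX.ne'
  have hζ0 : ζ ≠ 0 := fun h => by rw [h, norm_zero] at hζn; exact zero_ne_one hζn
  have hX0 : (X : ℂ) ≠ 0 := by exact_mod_cast hX.ne'
  have hterm : ∀ n i : ℕ, Complex.exp (2 * Real.pi * Complex.I * n * (((i : ℝ) / X : ℝ) : ℂ)) = (ζ ^ n) ^ i := by
    intro n i
    rw [hζ, ← Complex.exp_nat_mul, ← Complex.exp_nat_mul]
    congr 1
    push_cast
    field_simp
  have hconj : (starRingEnd ℂ) ζ = ζ⁻¹ := by
    rw [Complex.inv_def, Complex.normSq_eq_norm_sq, hζn]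
    simp
  have hpair : ∀ n ∈ Ico s (s + L), ∀ m ∈ Ico s (s + L),
      ∑ i ∈ range X, (ζ ^ n) ^ i * ((ζ⁻¹) ^ m) ^ i = if n = m then (X : ℂ) else 0 := by
    intro n hn m hm
    rw [Finset.mem_Ico] at hn hm
    have h1 : ∀ i ∈ range X, (ζ ^ n) ^ i * ((ζ⁻¹) ^ m) ^ i = (ζ ^ n * (ζ⁻¹) ^ m) ^ i := fun i _ => (mul_pow _ _ _).symm
    rw [Finset.sum_congr rfl h1]
    split_ifs with hnm
    · rw [hnm]
      have h2 : ζ ^ m * (ζ⁻¹) ^ m = 1 := by
        rw [inv_pow, mul_inv_cancel₀ (pow_ne_zero _ hζ0)]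
      rw [h2]
      simp
    · have h2 : ζ ^ n * (ζ⁻¹) ^ m ≠ 1 := by
        intro h
        rw [inv_pow, mul_inv_eq_one₀ (pow_ne_zero _ hζ0)] at h
        apply hnm
        have hfin : IsUnit ζ := isUnit_iff_ne_zero.2 hζ0
        rcases le_total n m with hle | hle
        · obtain ⟨c, rfl⟩ := Nat.exists_eq_add_of_le hle
          rw [pow_add] at h
          have h3 : ζ ^ c = 1 := by
            have h4 : ζ ^ n * 1 = ζ ^ n * ζ ^ c := by rw [mul_one]; exact h
            exact (mul_left_cancel₀ (pow_ne_zero _ hζ0) h4).symm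
          have h5 := hprim.dvd_of_pow_eq_one c h3
          have h6 : c = 0 := by
            by_contra hc
            have := Nat.le_of_dvd (Nat.pos_of_ne_zero hc) h5
            omega
          omega
        · obtain ⟨c, rfl⟩ := Nat.exists_eq_add_of_le hle
          rw [pow_add] at h
          have h3 : ζ ^ c = 1 := by
            have h4 : ζ ^ m * ζ ^ c = ζ ^ m * 1 := by rw [mul_one]; exact h
            exact mul_left_cancel₀ (pow_ne_zero _ hζ0) h4
          have h5 := hprim.dvd_of_pow_eq_one c h3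
          have h6 : c = 0 := by
            by_contra hc
            have := Nat.le_of_dvd (Nat.pos_of_ne_zero hc) h5
            omega
          omega
      have h3 : (ζ ^ n * (ζ⁻¹) ^ m) ^ X = 1 := by
        rw [mul_pow, ← pow_mul, ← pow_mul, mul_comm n X, mul_comm m X, pow_mul, pow_mul, inv_pow, hprim.pow_eq_one]
        simp
      rw [geom_sum_eq h2, h3, sub_self, zero_div]
  have hsq : ∀ i ∈ range X,
      ((‖∑ n ∈ Ico s (s + L), a n * Complex.exp (2 * Real.pi * Complex.I * n * (((i : ℝ) / X : ℝ) : ℂ))‖ ^ 2 : ℝ) : ℂ) =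
      ∑ n ∈ Ico s (s + L), ∑ m ∈ Ico s (s + L), (a n * (starRingEnd ℂ) (a m)) * ((ζ ^ n) ^ i * ((ζ⁻¹) ^ m) ^ i) := by
    intro i _
    push_cast
    rw [← Complex.mul_conj', map_sum, Finset.sum_mul_sum]
    refine Finset.sum_congr rfl fun n _ => Finset.sum_congr rfl fun m _ => ?_
    have e1 := hterm n i
    have e2 := hterm m i
    push_cast at e1 e2
    rw [e1, e2, map_mul, map_pow, map_pow, hconj]
    ring
  have htot : ((∑ i ∈ range X, ‖∑ n ∈ Ico s (s + L), a n * Complex.exp (2 * Real.pi * Complex.I * n * (((i : ℝ) / X : ℝ) : ℂ))‖ ^ 2 : ℝ) : ℂ) =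
      ((∑ n ∈ Ico s (s + L), (X : ℝ) * ‖a n‖ ^ 2 : ℝ) : ℂ) := by
    rw [Complex.ofReal_sum, Finset.sum_congr rfl hsq, Finset.sum_comm]
    rw [Complex.ofReal_sum]
    refine Finset.sum_congr rfl fun n hn => ?_
    rw [Finset.sum_comm]
    have h1 : ∀ m ∈ Ico s (s + L), ∑ i ∈ range X, (a n * (starRingEnd ℂ) (a m)) * ((ζ ^ n) ^ i * ((ζ⁻¹) ^ m) ^ i) =
        if n = m then (a n * (starRingEnd ℂ) (a m)) * X else 0 := by
      intro m hm
      rw [← Finset.mul_sum, hpair n hn m hm]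
      split_ifs <;> simp
    rw [Finset.sum_congr rfl h1, Finset.sum_ite_eq, if_pos hn, Complex.mul_conj']
    push_cast
    ring
  have hreal := Complex.ofReal_injective htot
  rw [hreal]
  calc ∑ n ∈ Ico s (s + L), (X : ℝ) * ‖a n‖ ^ 2 ≤ ∑ n ∈ Ico s (s + L), (X : ℝ) * 1 := by
        refine Finset.sum_le_sum fun n _ => mul_le_mul_of_nonneg_left ?_ (Nat.cast_nonneg _)
        have := ha n
        have := norm_nonneg (a n)
        nlinarith
    _ = (X : ℝ) * L := by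
        rw [Finset.sum_const, Nat.card_Ico, nsmul_eq_mul]
        simp
        ring

/-- `F_R(x) = ∑_{n ≤ R} a_n e(nx)` -/
noncomputable def F (a : ℕ → ℂ) (R : ℕ) (x : ℝ) : ℂ :=
  ∑ n ∈ Finset.Icc 1 R, a n * Complex.exp (2 * Real.pi * Complex.I * n * x)

theorem F_zero (a : ℕ → ℂ) (x : ℝ) : F a 0 x = 0 := by simp [F]

theorem F_succ (a : ℕ → ℂ) (R : ℕ) (x : ℝ) :
    F a (R + 1) x = F a R x + a (R + 1) * Complex.exp (2 * Real.pi * Complex.I * (R + 1 : ℕ) * x) := by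
  unfold F
  rw [Finset.sum_Icc_succ_top (by omega)]

theorem F_le {a : ℕ → ℂ} (ha : ∀ n, ‖a n‖ ≤ 1) (R : ℕ) (x : ℝ) : ‖F a R x‖ ≤ R := by
  unfold F
  refine (norm_sum_le _ _).trans ?_
  calc ∑ n ∈ Finset.Icc 1 R, ‖a n * Complex.exp (2 * Real.pi * Complex.I * n * x)‖ ≤ ∑ n ∈ Finset.Icc 1 R, (1 : ℝ) := by
        refine Finset.sum_le_sum fun n _ => ?_
        rw [norm_mul]
        have h1 : ‖Complex.exp (2 * Real.pi * Complex.I * n * x)‖ = 1 := by
          have : (2 * Real.pi * Complex.I * n * x : ℂ) = ((2 * Real.pi * n * x : ℝ) : ℂ) * Complex.I := by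
            push_cast
            ring
          rw [this, Complex.norm_exp_ofReal_mul_I]
        rw [h1, mul_one]
        exact ha n
    _ = R := by simp

theorem F_fract (a : ℕ → ℂ) (R : ℕ) (x : ℝ) : F a R x = F a R (Int.fract x) := by
  unfold F
  refine Finset.sum_congr rfl fun n _ => ?_
  congr 1
  have h1 : (x : ℂ) = (⌊x⌋ : ℂ) + ((Int.fract x : ℝ) : ℂ) := by
    have := Int.floor_add_fract x
    exact_mod_cast this.symm
  rw [h1, mul_add, Complex.exp_add]
  have h2 : Complex.exp (2 * Real.pi * Complex.I * n * (⌊x⌋ : ℂ)) = 1 := by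
    rw [Complex.exp_eq_one_iff]
    refine ⟨(n : ℤ) * ⌊x⌋, ?_⟩
    push_cast
    ring
  rw [h2, one_mul]

/-- Abel summation -/
theorem abel (a : ℕ → ℂ) (y v : ℝ) (R : ℕ) :
    F a R (y + v) = F a R y * Complex.exp (2 * Real.pi * Complex.I * R * v) -
      ∑ m ∈ range R, F a m y * (Complex.exp (2 * Real.pi * Complex.I * (m + 1 : ℕ) * v) -
        Complex.exp (2 * Real.pi * Complex.I * m * v)) := by
  induction R with
  | zero => simp [F_zero]
  | succ R ih =>
    rw [F_succ, ih, Finset.sum_range_succ, F_succ]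
    have h1 : Complex.exp (2 * Real.pi * Complex.I * (R + 1 : ℕ) * ((y + v : ℝ) : ℂ)) =
        Complex.exp (2 * Real.pi * Complex.I * (R + 1 : ℕ) * (y : ℂ)) *
          Complex.exp (2 * Real.pi * Complex.I * (R + 1 : ℕ) * (v : ℂ)) := by
      rw [← Complex.exp_add]
      congr 1
      push_cast
      ring
    rw [h1]
    ring

theorem diff_le (m : ℕ) (v : ℝ) : ‖Complex.exp (2 * Real.pi * Complex.I * (m + 1 : ℕ) * v) -
    Complex.exp (2 * Real.pi * Complex.I * m * v)‖ ≤ 2 * Real.pi * |v| := by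
  have h1 : Complex.exp (2 * Real.pi * Complex.I * (m + 1 : ℕ) * v) - Complex.exp (2 * Real.pi * Complex.I * m * v) =
      Complex.exp (((2 * Real.pi * m * v : ℝ) : ℂ) * Complex.I) * (Complex.exp (Complex.I * ((2 * Real.pi * v : ℝ) : ℂ)) - 1) := by
    rw [mul_sub, ← Complex.exp_add, mul_one]
    congr 1
    · congr 1
      push_cast
      ring
    · congr 1
      push_cast
      ring
  rw [h1, norm_mul, Complex.norm_exp_ofReal_mul_I, one_mul]
  refine (Real.norm_exp_I_mul_ofReal_sub_one_le).trans ?_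
  rw [Real.norm_eq_abs, abs_mul, abs_of_pos (by positivity)]

theorem transfer (a : ℕ → ℂ) {X : ℕ} (hX : 0 < X) {R : ℕ} (hR : R ≤ X) {y v M : ℝ} (hv : |v| ≤ 1 / X)
    (hM : ∀ m ≤ R, ‖F a m y‖ ≤ M) : ‖F a R (y + v)‖ ≤ 8 * M := by
  have hM0 : 0 ≤ M := (norm_nonneg _).trans (hM R le_rfl)
  have hX0 : (0 : ℝ) < X := by exact_mod_cast hX
  rw [abel]
  have h1 : ‖F a R y * Complex.exp (2 * Real.pi * Complex.I * R * v)‖ ≤ M := by
    rw [norm_mul]
    have : (2 * Real.pi * Complex.I * R * v : ℂ) = ((2 * Real.pi * R * v : ℝ) : ℂ) * Complex.I := by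
      push_cast
      ring
    rw [this, Complex.norm_exp_ofReal_mul_I, mul_one]
    exact hM R le_rfl
  have h2 : ‖∑ m ∈ range R, F a m y * (Complex.exp (2 * Real.pi * Complex.I * (m + 1 : ℕ) * v) -
        Complex.exp (2 * Real.pi * Complex.I * m * v))‖ ≤ 2 * Real.pi * M := by
    refine (norm_sum_le _ _).trans ?_
    calc ∑ m ∈ range R, ‖F a m y * (Complex.exp (2 * Real.pi * Complex.I * (m + 1 : ℕ) * v) -
          Complex.exp (2 * Real.pi * Complex.I * m * v))‖ ≤ ∑ m ∈ range R, M * (2 * Real.pi * |v|) := by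
          refine Finset.sum_le_sum fun m hm => ?_
          rw [norm_mul]
          exact mul_le_mul (hM m (Finset.mem_range.1 hm).le) (diff_le m v) (norm_nonneg _) hM0
      _ = (R : ℝ) * |v| * (2 * Real.pi * M) := by
          rw [Finset.sum_const, card_range, nsmul_eq_mul]
          ring
      _ ≤ 1 * (2 * Real.pi * M) := by
          refine mul_le_mul_of_nonneg_right ?_ (by positivity)
          have hRX : (R : ℝ) ≤ X := by exact_mod_cast hR
          calc (R : ℝ) * |v| ≤ X * (1 / X) := mul_le_mul hRX hv (abs_nonneg _) hX0.le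
            _ = 1 := by field_simp
      _ = 2 * Real.pi * M := one_mul _
  have hpi := Real.pi_lt_d2
  have h3 := norm_sub_le (F a R y * Complex.exp (2 * Real.pi * Complex.I * R * v))
    (∑ m ∈ range R, F a m y * (Complex.exp (2 * Real.pi * Complex.I * (m + 1 : ℕ) * v) -
        Complex.exp (2 * Real.pi * Complex.I * m * v)))
  have h4 : 2 * Real.pi * M ≤ 7 * M := mul_le_mul_of_nonneg_right (by linarith) hM0
  linarith

/-- the bad dyadic intervals -/
theorem bad {a : ℕ → ℂ} (ha : ∀ n, ‖a n‖ ≤ 1) (β : ℝ) (k : ℕ) : ∃ G : Finset ℕ,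
    (G.card : ℝ) ≤ 64 * ((k : ℝ) + 1) ^ 2 * ((2 : ℝ) ^ k) ^ (2 - 2 * β) ∧
    ∀ x : ℝ, ⌊(2 : ℝ) ^ k * Int.fract x⌋₊ ∉ G → ∀ R ≤ 2 ^ k, ‖F a R x‖ ≤ ((2 : ℝ) ^ k) ^ β := by
  classical
  set X : ℕ := 2 ^ k with hXdef
  have hX : 0 < X := by positivity
  have hXr : ((X : ℕ) : ℝ) = (2 : ℝ) ^ k := by rw [hXdef]; push_cast; rfl
  have hX0 : (0 : ℝ) < X := by exact_mod_cast hX
  obtain ⟨M, hM0, hM1, hM2⟩ := maximal (range X)
    (fun n i => a n * Complex.exp (2 * Real.pi * Complex.I * n * (((i : ℝ) / X : ℝ) : ℂ))) X k hX0.le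
    (fun s l hl => by
      have := orth hX a ha s (2 ^ l) (Nat.pow_le_pow_right (by norm_num) hl)
      push_cast at this ⊢
      exact this) k le_rfl 1
  set T : ℝ := ((2 : ℝ) ^ k) ^ β / 8 with hT
  have hT0 : 0 < T := by positivity
  refine ⟨(range X).filter fun i => T < M i, ?_, fun x hx R hR => ?_⟩
  · have h1 : (((range X).filter fun i => T < M i).card : ℝ) * T ^ 2 ≤ ((k : ℝ) + 1) ^ 2 * X * 2 ^ k := by
      refine le_trans ?_ hM2
      calc (((range X).filter fun i => T < M i).card : ℝ) * T ^ 2 = ∑ i ∈ (range X).filter fun i => T < M i, T ^ 2 := by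
            rw [Finset.sum_const, nsmul_eq_mul]
        _ ≤ ∑ i ∈ (range X).filter fun i => T < M i, M i ^ 2 := by
            refine Finset.sum_le_sum fun i hi => ?_
            exact pow_le_pow_left₀ hT0.le (Finset.mem_filter.1 hi).2.le 2
        _ ≤ ∑ i ∈ range X, M i ^ 2 := Finset.sum_le_sum_of_subset_of_nonneg (Finset.filter_subset _ _) fun i _ _ => sq_nonneg _
    have hT2 : 0 < T ^ 2 := by positivity
    rw [← le_div_iff₀ hT2] at h1
    refine h1.trans (le_of_eq ?_)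
    rw [hXr, hT, div_pow]
    have h2 : ((2 : ℝ) ^ k) ^ (2 - 2 * β) = (2 : ℝ) ^ k * (2 : ℝ) ^ k / (((2 : ℝ) ^ k) ^ β) ^ 2 := by
      rw [Real.rpow_sub (by positivity)]
      congr 1
      · rw [show (2 : ℝ) = ((2 : ℕ) : ℝ) by norm_num, Real.rpow_natCast, pow_two]
      · rw [mul_comm, Real.rpow_mul (by positivity)]
        norm_cast
    rw [h2]
    have h3 : (((2 : ℝ) ^ k) ^ β) ^ 2 ≠ 0 := by positivity
    field_simp
    ring
  · set i : ℕ := ⌊(2 : ℝ) ^ k * Int.fract x⌋₊ with hi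
    have hf0 := Int.fract_nonneg x
    have hf1 := Int.fract_lt_one x
    have h2k : (0 : ℝ) < 2 ^ k := by positivity
    have hi1 : (i : ℝ) ≤ (2 : ℝ) ^ k * Int.fract x := Nat.floor_le (by positivity)
    have hi2 : (2 : ℝ) ^ k * Int.fract x < i + 1 := Nat.lt_floor_add_one _
    have hiX : i ∈ range X := by
      rw [Finset.mem_range]
      have : (i : ℝ) < X := by
        rw [hXr]
        nlinarith
      exact_mod_cast this
    have hMi : M i ≤ T := by
      by_contra hcon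
      exact hx (Finset.mem_filter.2 ⟨hiX, not_le.1 hcon⟩)
    have hv : |Int.fract x - (i : ℝ) / X| ≤ 1 / X := by
      rw [hXr, abs_le]
      constructor
      · rw [neg_le_iff_add_nonneg, ← sub_nonneg]
        have h3 : Int.fract x - (i : ℝ) / 2 ^ k + 1 / 2 ^ k - 0 = ((2 : ℝ) ^ k * Int.fract x - i + 1) / 2 ^ k := by
          field_simp
          ring
        rw [h3]
        apply div_nonneg _ h2k.le
        linarith
      · rw [← sub_nonneg]
        have h3 : 1 / 2 ^ k - (Int.fract x - (i : ℝ) / 2 ^ k) = (i + 1 - (2 : ℝ) ^ k * Int.fract x) / 2 ^ k := by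
          field_simp
          ring
        rw [h3]
        apply div_nonneg _ h2k.le
        linarith
    have h4 := transfer a hX (R := R) hR (y := (i : ℝ) / X) (v := Int.fract x - (i : ℝ) / X) (M := T) hv
      (fun m hm => by
        refine le_trans ?_ hMi
        have h5 := hM1 i m (hm.trans hR)
        have h6 : F a m ((i : ℝ) / X) = ∑ n ∈ Ico 1 (1 + m), a n * Complex.exp (2 * Real.pi * Complex.I * n * (((i : ℝ) / X : ℝ) : ℂ)) := by
          unfold F
          refine Finset.sum_congr ?_ fun n _ => rfl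
          ext n
          simp only [Finset.mem_Icc, Finset.mem_Ico]
          omega
        rw [h6]
        exact h5)
    rw [add_sub_cancel] at h4
    rw [F_fract]
    refine h4.trans (le_of_eq ?_)
    rw [hT]
    ring

end Pool.Agent.H274.ExpSum
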