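import Mathlib
import Pool.Agent.H107.Ram

/-! Large Satake parameters and functorial lifts: local inequalities and counting. -/

set_option autoImplicit false

open Finset Filter Topology NumberField IsDedekindDomain

namespace Pool.Agent.H274.FWin

open Pool.Agent.H107.Ram (nm two_le_nm finite_nm)

/-- the trace of the symmetric fourth power is at least `R⁴` if a parameter is of modulus `R > 1` -/
theorem symFour_ge {a : Fin 2 → ℂ} (hU : ∃ σ : Equiv.Perm (Fin 2), ∀ i, a (σ i) * (starRingEnd ℂ) (a i) = 1)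
    {i : Fin 2} (hi : 1 < ‖a i‖) : ‖a i‖ ^ 4 ≤ ‖∑ k : Fin 5, a 0 ^ (4 - (k : ℕ)) * a 1 ^ (k : ℕ)‖ := by
  obtain ⟨σ, hσ⟩ := hU
  have hn := congrArg norm (hσ i)
  rw [norm_mul, norm_one, RCLike.norm_conj] at hn
  have hne : σ i ≠ i := by
    intro h
    rw [h] at hn
    nlinarith
  set R : ℝ := ‖a i‖ with hR
  have hR0 : 0 < R := by linarith
  set b : ℂ := a (σ i) with hb
  have hbn : ‖b‖ = R⁻¹ := eq_inv_of_mul_eq_one_left hn
  have hai : a i = b * ((R ^ 2 : ℝ) : ℂ) := by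
    have h1 : a i * (starRingEnd ℂ) (a i) = ((R ^ 2 : ℝ) : ℂ) := by
      rw [Complex.mul_conj, Complex.normSq_eq_norm_sq]
    rw [← h1]
    have h2 := hσ i
    calc a i = a i * 1 := (mul_one _).symm
      _ = a i * (b * (starRingEnd ℂ) (a i)) := by rw [h2]
      _ = _ := by ring
  have hsum : ∑ k : Fin 5, a 0 ^ (4 - (k : ℕ)) * a 1 ^ (k : ℕ) =
      b ^ 4 * ((1 + R ^ 2 + R ^ 4 + R ^ 6 + R ^ 8 : ℝ) : ℂ) := by
    have hs : ∑ k : Fin 5, a 0 ^ (4 - (k : ℕ)) * a 1 ^ (k : ℕ) =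
        (a i) ^ 4 + (a i) ^ 3 * b + (a i) ^ 2 * b ^ 2 + a i * b ^ 3 + b ^ 4 := by
      rw [Fin.sum_univ_five]
      have hcase : (i = 0 ∧ σ i = 1) ∨ (i = 1 ∧ σ i = 0) := by
        have hall : ∀ i j : Fin 2, j ≠ i → (i = 0 ∧ j = 1) ∨ (i = 1 ∧ j = 0) := by decide
        exact hall i (σ i) hne
      rcases hcase with ⟨h1, h2⟩ | ⟨h1, h2⟩
      · rw [hb, h2, h1]
        simp
      · rw [hb, h2, h1]
        simp
        ring
    rw [hs, hai]
    push_cast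
    ring
  rw [hsum, norm_mul, norm_pow, hbn, Complex.norm_real, Real.norm_of_nonneg (by positivity)]
  have h3 : R ^ 4 = (R⁻¹) ^ 4 * R ^ 8 := by
    field_simp
  calc R ^ 4 = (R⁻¹) ^ 4 * R ^ 8 := h3
    _ ≤ _ := mul_le_mul_of_nonneg_left (by nlinarith [pow_pos hR0 2, pow_pos hR0 4, pow_pos hR0 6]) (by positivity)

/-- the elementary symmetric polynomial of degree two -/
def e2 (a : Fin 4 → ℂ) : ℂ := a 0 * a 1 + a 0 * a 2 + a 0 * a 3 + a 1 * a 2 + a 1 * a 3 + a 2 * a 3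

/-- a large parameter of a unitary representation of `GL_4` shows in the trace or in the trace of the exterior square -/
theorem extSquare_ge {a : Fin 4 → ℂ} (hU : ∃ σ : Equiv.Perm (Fin 4), ∀ i, a (σ i) * (starRingEnd ℂ) (a i) = 1)
    {i : Fin 4} (hi : 2 ≤ ‖a i‖ ^ 2) : ‖a i‖ ^ 2 / 16 ≤ ‖∑ k, a k‖ ^ 2 + ‖e2 a‖ ^ 2 := by
  obtain ⟨σ, hσ⟩ := hU
  have h0 : ∀ i, a i ≠ 0 := fun i h => by
    have := hσ i
    rw [h, map_zero, mul_zero] at this
    exact zero_ne_one this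
  set R : ℝ := ‖a i‖ with hR
  have hR0 : 0 ≤ R := norm_nonneg _
  have hR1 : 1 ≤ R := by nlinarith
  set e1 : ℂ := a 0 + a 1 + a 2 + a 3 with he1
  set e3 : ℂ := a 0 * a 1 * a 2 + a 0 * a 1 * a 3 + a 0 * a 2 * a 3 + a 1 * a 2 * a 3 with he3
  set e4 : ℂ := a 0 * a 1 * a 2 * a 3 with he4
  have hs1 : ∑ k, a k = e1 := by rw [Fin.sum_univ_four]
  have hp : e4 * (starRingEnd ℂ) e4 = 1 := by
    have h1 : ∏ k, (a (σ k) * (starRingEnd ℂ) (a k)) = 1 := Finset.prod_eq_one fun k _ => hσ k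
    rw [Finset.prod_mul_distrib, Equiv.prod_comp σ a, Fin.prod_univ_four, Fin.prod_univ_four] at h1
    rw [he4, map_mul, map_mul, map_mul]
    exact h1
  have h4n : ‖e4‖ = 1 := by
    rw [Complex.mul_conj, Complex.normSq_eq_norm_sq] at hp
    have h4 : ‖e4‖ ^ 2 = 1 := by exact_mod_cast hp
    exact (pow_eq_one_iff_of_nonneg (norm_nonneg _) (by norm_num)).1 h4
  have h31 : e3 = e4 * (starRingEnd ℂ) e1 := by
    have h1 : ∑ k, (starRingEnd ℂ) (a (σ k)) = (starRingEnd ℂ) e1 := by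
      rw [Equiv.sum_comp σ (fun k => (starRingEnd ℂ) (a k)), Fin.sum_univ_four, he1, map_add, map_add, map_add]
    have h2 : ∀ k, (starRingEnd ℂ) (a (σ k)) = (a k)⁻¹ := by
      intro k
      have h3 := congrArg (starRingEnd ℂ) (hσ k)
      rw [map_mul, Complex.conj_conj, map_one] at h3
      exact eq_inv_of_mul_eq_one_left h3
    simp only [h2] at h1
    rw [← h1, Fin.sum_univ_four, he3, he4]
    have g0 := h0 0
    have g1 := h0 1
    have g2 := h0 2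
    have g3 := h0 3
    field_simp
    ring
  have h3n : ‖e3‖ = ‖e1‖ := by rw [h31, norm_mul, h4n, one_mul, RCLike.norm_conj]
  have hroot : (a i) ^ 4 = e1 * (a i) ^ 3 - e2 a * (a i) ^ 2 + e3 * a i - e4 := by
    have h5 : (a i - a 0) * (a i - a 1) * (a i - a 2) * (a i - a 3) = 0 := by
      fin_cases i <;> simp
    unfold e2
    rw [he1, he3, he4]
    linear_combination h5
  have hle : R ^ 4 ≤ ‖e1‖ * R ^ 3 + ‖e2 a‖ * R ^ 2 + ‖e1‖ * R + 1 := by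
    have h5 := congrArg norm hroot
    rw [norm_pow] at h5
    rw [hR, h5]
    refine (norm_sub_le _ _).trans ?_
    rw [h4n]
    refine add_le_add ((norm_add_le _ _).trans (add_le_add ((norm_sub_le _ _).trans ?_) ?_)) le_rfl
    · rw [norm_mul, norm_mul, norm_pow, norm_pow]
    · rw [norm_mul, h3n]
  rw [hs1]
  by_contra hcon
  push Not at hcon
  have x1 : ‖e1‖ ≤ R / 4 := by
    have : ‖e1‖ ^ 2 ≤ (R / 4) ^ 2 := by nlinarith [sq_nonneg ‖e2 a‖]
    exact abs_le_of_sq_le_sq' this (by positivity) |>.2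
  have x2 : ‖e2 a‖ ≤ R / 4 := by
    have : ‖e2 a‖ ^ 2 ≤ (R / 4) ^ 2 := by nlinarith [sq_nonneg ‖e1‖]
    exact abs_le_of_sq_le_sq' this (by positivity) |>.2
  have y1 : ‖e1‖ * R ^ 3 ≤ R / 4 * R ^ 3 := mul_le_mul_of_nonneg_right x1 (by positivity)
  have y2 : ‖e2 a‖ * R ^ 2 ≤ R / 4 * R ^ 2 := mul_le_mul_of_nonneg_right x2 (by positivity)
  have y3 : ‖e1‖ * R ≤ R / 4 * R := mul_le_mul_of_nonneg_right x1 hR0
  have z1 : R ^ 3 ≤ R ^ 4 := pow_le_pow_right₀ hR1 (by norm_num)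
  have z2 : R ^ 2 ≤ R ^ 4 := pow_le_pow_right₀ hR1 (by norm_num)
  have z3 : 4 ≤ R ^ 4 := by nlinarith
  -- equality would be needed everywhere
  have z4 : R ^ 4 ≤ R ^ 4 / 4 + R ^ 4 / 4 + R ^ 4 / 4 + 1 := by nlinarith
  have z5 : R ^ 4 = 4 := by linarith
  have z6 : R ^ 2 = 2 := by nlinarith
  nlinarith

/-- the number of places at which a nonnegative function with a convergent Dirichlet series is large -/
theorem count_abs {K : Type} [Field K] [NumberField K] (B : Finset (HeightOneSpectrum (𝓞 K)))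
    {E : Set (HeightOneSpectrum (𝓞 K))} {f : HeightOneSpectrum (𝓞 K) → ℝ} {e C₀ : ℝ} (he : e ≤ 1) (hC : 0 ≤ C₀)
    (hf : ∀ v, 0 ≤ f v) (hE : ∀ v ∈ E, v ∉ B ∧ nm v ^ e ≤ C₀ * f v)
    (hs : ∀ s : ℝ, 1 < s → Summable fun v : {v // v ∉ B} => f v * nm v.1 ^ (-s)) (ε : ℝ) (hε : 0 < ε) :
    ∃ C : ℝ, ∀ X : ℝ, 1 ≤ X → {v | v ∈ E ∧ nm v ≤ X}.Finite ∧
      ({v | v ∈ E ∧ nm v ≤ X}.ncard : ℝ) ≤ C * X ^ (1 - e + ε) := by
  classical
  have hS := hs (1 + ε) (by linarith)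
  refine ⟨C₀ * ∑' v : {v // v ∉ B}, f v * nm v.1 ^ (-(1 + ε)), fun X hX => ?_⟩
  have hX0 : 0 < X := by linarith
  have hfin : {v | v ∈ E ∧ nm v ≤ X}.Finite := (finite_nm X).subset fun v hv => hv.2
  refine ⟨hfin, ?_⟩
  set G := hfin.toFinset with hG
  have hGB : ∀ v ∈ G, v ∉ B := fun v hv => (hE v (hfin.mem_toFinset.1 hv).1).1
  have h1 : ∀ v ∈ G, X ^ (e - (1 + ε)) ≤ C₀ * (f v * nm v ^ (-(1 + ε))) := by
    intro v hv
    obtain ⟨g1, g2⟩ := hfin.mem_toFinset.1 hv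
    have hN := two_le_nm v
    have hN0 : 0 < nm v := by linarith
    have g3 := (hE v g1).2
    have g4 : X ^ (e - (1 + ε)) ≤ nm v ^ (e - (1 + ε)) :=
      Real.rpow_le_rpow_of_nonpos hN0 g2 (by linarith)
    have g5 : nm v ^ (e - (1 + ε)) = nm v ^ e * nm v ^ (-(1 + ε)) := by
      rw [← Real.rpow_add hN0]
      congr 1
    calc X ^ (e - (1 + ε)) ≤ nm v ^ e * nm v ^ (-(1 + ε)) := g5 ▸ g4
      _ ≤ C₀ * f v * nm v ^ (-(1 + ε)) := mul_le_mul_of_nonneg_right g3 (by positivity)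
      _ = _ := by ring
  have h2 := Finset.sum_le_sum h1
  rw [Finset.sum_const, nsmul_eq_mul, ← Finset.mul_sum] at h2
  have h3 : ∑ v ∈ G, f v * nm v ^ (-(1 + ε)) ≤ ∑' v : {v // v ∉ B}, f v * nm v.1 ^ (-(1 + ε)) := by
    have h4 : ∑ v ∈ G, f v * nm v ^ (-(1 + ε)) =
        ∑ v ∈ G.subtype (fun v => v ∉ B), f v * nm v.1 ^ (-(1 + ε)) := by
      rw [Finset.sum_subtype_of_mem (fun v => f v * nm v ^ (-(1 + ε))) hGB]
    rw [h4]
    exact hS.sum_le_tsum _ fun v _ => mul_nonneg (hf v) (by have := two_le_nm v.1; positivity)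
  rw [Set.ncard_eq_toFinset_card _ hfin]
  have h5 : (G.card : ℝ) * X ^ (e - (1 + ε)) ≤ C₀ * ∑' v : {v // v ∉ B}, f v * nm v.1 ^ (-(1 + ε)) :=
    h2.trans (mul_le_mul_of_nonneg_left h3 hC)
  have h6 : X ^ (e - (1 + ε)) * X ^ (1 - e + ε) = 1 := by
    rw [← Real.rpow_add hX0]
    have : e - (1 + ε) + (1 - e + ε) = 0 := by ring
    rw [this, Real.rpow_zero]
  calc (G.card : ℝ) = (G.card : ℝ) * X ^ (e - (1 + ε)) * X ^ (1 - e + ε) := by rw [mul_assoc, h6, mul_one]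
    _ ≤ _ := mul_le_mul_of_nonneg_right h5 (by positivity)

end Pool.Agent.H274.FWin
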