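import Mathlib
import Pool.Agent.TH949.TX.Rat4

/-! Dirichlet series `D(s)` with a pole of order `r`: the quotient `D(s) / ζ(s)^r`. Basic estimates. -/

set_option autoImplicit false

open Complex MeasureTheory Set Filter Topology
open Pool.Agent.W189.TP (DS DS_diff DS_norm_le summ_mono PS LL LL_nonneg exp_LL rexp_LL summable_pp zetaS norm_term
  summable_primes_subtype summ_cplx bad bad_diff bad_le bad_ge exists_line pr_rpow_lt_one zeta_freq)
open Pool.Agent.TH949.RES (GF KK KK_nonneg Q_cpow gr_ne0)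
open Pool.Agent.TH949.TX (VV VV_diff VV_ne VV_real VV_one VV_conj VV_lower UU_growth conj_ext DS_conj bad1_pos t_quot
  hex_abs ub_entire)

namespace Pool.Agent.H274.Iso

variable {S : Finset Nat.Primes}

/-- `log D(s) = ∑ W(p, k) / (k + 1) p^{-(k + 1) s}` -/
noncomputable def lgD (W : PS S × ℕ → ℝ) (s : ℂ) : ℂ :=
  ∑' x : PS S × ℕ, ((W x / ((x.2 : ℝ) + 1) : ℝ) : ℂ) * (((x.1.1 : ℕ) : ℂ) ^ (-s)) ^ (x.2 + 1)

/-- the coefficients of `log (D(s) / ζ(s)^r)` -/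
noncomputable def dr (r : ℕ) (W : PS S × ℕ → ℝ) (x : PS S × ℕ) : ℝ := (W x - r) / ((x.2 : ℝ) + 1)

/-- A Dirichlet series `D(s)` with nonnegative coefficients of `log D(s)`, a pole of order at most `r` at `s = 1`, a
continuation and a functional equation. -/
structure Dat (r : ℕ) (S : Finset Nat.Primes) (W : PS S × ℕ → ℝ) {M N : ℕ} (β : Nat.Primes → Fin M → ℂ)
    (κ : Fin N → ℂ) : Prop where
  nonneg : ∀ x, 0 ≤ W x
  conj : Multiset.map (fun j => (starRingEnd ℂ) (κ j)) Finset.univ.val = Multiset.map κ Finset.univ.val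
  summable : ∀ σ : ℝ, 1 < σ → Summable fun x : PS S × ℕ =>
    W x / ((x.2 : ℝ) + 1) * (((x.1.1 : ℕ) : ℝ) ^ (-σ)) ^ (x.2 + 1)
  continuation : ∃ (G Ξ : ℂ → ℂ) (Q : ℝ) (ω : ℂ), Differentiable ℂ G ∧ Differentiable ℂ Ξ ∧ 0 < Q ∧ ω ≠ 0 ∧
    (∀ s : ℂ, 1 < s.re → G s * ∏ p ∈ S, ∏ i, (1 - β p i * ((p : ℕ) : ℂ) ^ (-s)) =
      (s - 1) ^ r * Complex.exp (lgD W s)) ∧
    (∀ a b : ℝ, ∃ C A : ℝ, ∀ s : ℂ, a ≤ s.re → s.re ≤ b → ‖G s‖ ≤ C * (1 + |s.im|) ^ A) ∧
    (∀ s : ℂ, 1 < s.re → Ξ s = s ^ r * G s * ((Q : ℂ) ^ s * Complex.Gammaℝ s ^ r *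
      ∏ j, Complex.Gammaℝ (s + κ j))) ∧
    ∀ s : ℂ, Ξ (1 - s) = ω * Ξ s

theorem summable_dr {r : ℕ} {W : PS S × ℕ → ℝ} (hW : ∀ x, 0 ≤ W x) (h : ∀ σ : ℝ, 1 < σ → Summable fun x : PS S × ℕ =>
    W x / ((x.2 : ℝ) + 1) * (((x.1.1 : ℕ) : ℝ) ^ (-σ)) ^ (x.2 + 1)) {t : ℝ}
    (ht : 1 < t) : Summable fun x : PS S × ℕ => |dr r W x| * Real.exp (-(t * LL x)) := by
  have h1 := h t ht
  have h2 := summable_pp (S := S) (fun _ => (r : ℝ)) (fun _ => Nat.cast_nonneg r) (by linarith : 0 < t)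
    ((summable_primes_subtype ht).mul_left (r : ℝ))
  refine Summable.of_nonneg_of_le (fun x => by positivity) (fun x => ?_) (h1.add h2)
  rw [← rexp_LL, ← add_mul]
  refine mul_le_mul_of_nonneg_right ?_ (Real.exp_pos _).le
  unfold dr
  have hx : (0 : ℝ) < (x.2 : ℝ) + 1 := by positivity
  have hr : (0 : ℝ) ≤ r := Nat.cast_nonneg r
  have hx2 : (0 : ℝ) ≤ x.2 := Nat.cast_nonneg _
  have h0 := hW x
  have h3 : |W x - r| ≤ W x + r := abs_le.2 ⟨by linarith, by linarith⟩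
  rw [abs_div, abs_of_pos hx]
  calc |W x - r| / ((x.2 : ℝ) + 1) ≤ (W x + r) / ((x.2 : ℝ) + 1) := by gcongr
    _ = W x / ((x.2 : ℝ) + 1) + r / ((x.2 : ℝ) + 1) := add_div _ _ _
    _ ≤ W x / ((x.2 : ℝ) + 1) + r := by
      gcongr
      exact div_le_self hr (by linarith)

theorem exp_dr {r : ℕ} {W : PS S × ℕ → ℝ} (hW : ∀ x, 0 ≤ W x) (h : ∀ σ : ℝ, 1 < σ → Summable fun x : PS S × ℕ =>
    W x / ((x.2 : ℝ) + 1) * (((x.1.1 : ℕ) : ℝ) ^ (-σ)) ^ (x.2 + 1)) {s : ℂ} (hs : 1 < s.re) :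
    cexp (DS (dr r W) LL s) * (riemannZeta s * bad S (fun _ (_ : Fin 1) => 1) s) ^ r = cexp (lgD W s) := by
  have hb : bad S (fun _ (_ : Fin 1) => 1) s = ∏ p ∈ S, (1 - ((p : ℕ) : ℂ) ^ (-s)) := by
    unfold bad
    simp
  rw [hb, ← zetaS hs, ← Complex.exp_nat_mul, ← Complex.exp_add]
  congr 1
  have hz : Summable fun x : PS S × ℕ => ((1 / ((x.2 : ℝ) + 1) : ℝ) : ℂ) * Complex.exp (-(s * LL x)) := by
    have h1 := summable_pp (S := S) (fun _ => 1) (fun _ => zero_le_one) (by linarith : 0 < s.re)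
      ((summable_primes_subtype hs).congr fun p => (one_mul _).symm)
    refine Summable.of_norm_bounded h1 fun x => ?_
    rw [norm_term (fun x : PS S × ℕ => 1 / ((x.2 : ℝ) + 1)) LL s x]
    refine mul_le_mul_of_nonneg_right ?_ (Real.exp_pos _).le
    rw [abs_of_nonneg (by positivity), div_le_one (by positivity)]
    have : (0 : ℝ) ≤ x.2 := Nat.cast_nonneg _
    linarith
  have hd : Summable fun x : PS S × ℕ => ((dr r W x : ℝ) : ℂ) * Complex.exp (-(s * LL x)) :=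
    summ_cplx LL_nonneg le_rfl (summable_dr hW h hs)
  unfold DS lgD
  rw [← tsum_mul_left, ← hd.tsum_add (hz.mul_left _)]
  refine tsum_congr fun x => ?_
  rw [← mul_assoc, ← add_mul, exp_LL]
  congr 1
  unfold dr
  have hx : ((x.2 : ℂ) + 1) ≠ 0 := by exact_mod_cast Nat.succ_ne_zero x.2
  push_cast
  field_simp
  ring

theorem uv_eq {r M : ℕ} {W : PS S × ℕ → ℝ} {β : Nat.Primes → Fin M → ℂ} (hW : ∀ x, 0 ≤ W x)
    (h : ∀ σ : ℝ, 1 < σ → Summable fun x : PS S × ℕ =>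
      W x / ((x.2 : ℝ) + 1) * (((x.1.1 : ℕ) : ℝ) ^ (-σ)) ^ (x.2 + 1)) {G : ℂ → ℂ}
    (hE : ∀ s : ℂ, 1 < s.re → G s * ∏ p ∈ S, ∏ i, (1 - β p i * ((p : ℕ) : ℂ) ^ (-s)) =
      (s - 1) ^ r * Complex.exp (lgD W s)) {s : ℂ} (hs : 1 < s.re) :
    G s * bad S β s = VV S s ^ r * cexp (DS (dr r W) LL s) := by
  have hs1 : s ≠ 1 := by
    rintro rfl
    simp at hs
  have h1 := exp_dr (r := r) hW h hs
  have h2 := hE s hs
  unfold VV
  rw [Pool.Agent.H437R2.z1_of_ne hs1]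
  have e : bad S β s = ∏ p ∈ S, ∏ i, (1 - β p i * ((p : ℕ) : ℂ) ^ (-s)) := rfl
  rw [e, h2, ← h1, mul_assoc (s - 1) (riemannZeta s), mul_pow (s - 1)]
  ring

theorem growth_r {M : ℕ} (r : ℕ) {β : Nat.Primes → Fin M → ℂ} {G : ℂ → ℂ}
    (hgr : ∀ a b : ℝ, ∃ C A : ℝ, ∀ s : ℂ, a ≤ s.re → s.re ≤ b → ‖G s‖ ≤ C * (1 + |s.im|) ^ A) :
    ∃ C A : ℝ, ∀ s : ℂ, 1 / 4 ≤ s.re → s.re ≤ 4 → 1 ≤ |s.im| → ‖G s * bad S β s‖ ≤ C * |s.im| ^ A ∧
      ‖VV S s ^ r‖ ≤ C * |s.im| ^ A := by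
  obtain ⟨C, A, hCA⟩ := UU_growth (S := S) (β := β) hgr
  refine ⟨(max C 1) ^ (r + 1), (max A 0) * ((r + 1 : ℕ) : ℝ), fun s h1 h2 h3 => ?_⟩
  obtain ⟨h4, h5⟩ := hCA s h1 h2 h3
  have h0 : 0 < |s.im| := by linarith
  set K : ℝ := max C 1 * |s.im| ^ (max A 0) with hK
  have h6 : |s.im| ^ A ≤ |s.im| ^ (max A 0) := Real.rpow_le_rpow_of_exponent_le h3 (le_max_left _ _)
  have h7 : 1 ≤ |s.im| ^ (max A 0) := Real.one_le_rpow h3 (le_max_right _ _)
  have hK1 : 1 ≤ K := by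
    have := le_max_right C 1
    nlinarith
  have h8 : C * |s.im| ^ A ≤ K := by
    have h9 : 0 ≤ |s.im| ^ A := by positivity
    exact mul_le_mul (le_max_left _ _) h6 h9 (le_trans zero_le_one (le_max_right _ _))
  have e : (max C 1) ^ (r + 1) * |s.im| ^ ((max A 0) * ((r + 1 : ℕ) : ℝ)) = K ^ (r + 1) := by
    rw [hK, mul_pow, Real.rpow_mul h0.le, Real.rpow_natCast]
  rw [e]
  constructor
  · exact (h4.trans h8).trans (le_self_pow₀ hK1 (by omega))
  · rw [norm_pow]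
    exact (pow_le_pow_left₀ (norm_nonneg _) (h5.trans h8) r).trans (pow_le_pow_right₀ hK1 (by omega))

theorem xi_idr {r m : ℕ} {κ : Fin m → ℂ} {Q : ℝ} (hQ : 0 < Q) {G Ξ : ℂ → ℂ} (hG : Differentiable ℂ G)
    (hΞ : Differentiable ℂ Ξ)
    (hid : ∀ s : ℂ, 1 < s.re → Ξ s = s ^ r * G s * ((Q : ℂ) ^ s * Gammaℝ s ^ r * ∏ j, Gammaℝ (s + κ j))) (s : ℂ) :
    s ^ r * G s = Ξ s * (cexp (-(s * Real.log Q)) * (Gammaℝ s)⁻¹ ^ r * ∏ j, (Gammaℝ (s + κ j))⁻¹) := by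
  have hP : Differentiable ℂ fun s : ℂ => cexp (-(s * Real.log Q)) * (Gammaℝ s)⁻¹ ^ r *
      ∏ j, (Gammaℝ (s + κ j))⁻¹ := by
    refine (Differentiable.mul (by fun_prop) (differentiable_Gammaℝ_inv.pow r)).mul
      (Differentiable.fun_finsetProd fun j _ => ?_)
    exact differentiable_Gammaℝ_inv.comp (differentiable_id.add_const _)
  have h1 : AnalyticOnNhd ℂ (fun s => s ^ r * G s) Set.univ :=
    ((differentiable_id.pow r).mul hG).differentiableOn.analyticOnNhd isOpen_univ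
  have h2 : AnalyticOnNhd ℂ (fun s => Ξ s * (cexp (-(s * Real.log Q)) * (Gammaℝ s)⁻¹ ^ r *
      ∏ j, (Gammaℝ (s + κ j))⁻¹)) Set.univ := (hΞ.mul hP).differentiableOn.analyticOnNhd isOpen_univ
  set B : ℝ := 1 + ∑ i, ‖κ i‖ with hB
  have hle : ∀ i, ‖κ i‖ ≤ ∑ i, ‖κ i‖ := fun i =>
    Finset.single_le_sum (f := fun i => ‖κ i‖) (fun _ _ => norm_nonneg _) (Finset.mem_univ i)
  have hnn : 0 ≤ ∑ i, ‖κ i‖ := Finset.sum_nonneg fun _ _ => norm_nonneg _
  have h3 : (fun s => s ^ r * G s) =ᶠ[𝓝 (((B + 1 : ℝ)) : ℂ)]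
      fun s => Ξ s * (cexp (-(s * Real.log Q)) * (Gammaℝ s)⁻¹ ^ r * ∏ j, (Gammaℝ (s + κ j))⁻¹) := by
    filter_upwards [(isOpen_lt continuous_const Complex.continuous_re).mem_nhds
      (show B < (((B + 1 : ℝ)) : ℂ).re by simp)] with s hs
    have hs' : B < s.re := hs
    have h1s : 1 < s.re := by
      rw [hB] at hs'
      linarith
    rw [hid s h1s]
    have hne : ∀ j, Gammaℝ (s + κ j) ≠ 0 := by
      intro j
      refine Gammaℝ_ne_zero_of_re_pos ?_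
      rw [Complex.add_re]
      have a1 := (abs_le.1 (Complex.abs_re_le_norm (κ j))).1
      have a3 := hle j
      rw [hB] at hs'
      linarith
    have e : (∏ j, Gammaℝ (s + κ j)) * ∏ j, (Gammaℝ (s + κ j))⁻¹ = 1 := by
      rw [← Finset.prod_mul_distrib]
      exact Finset.prod_eq_one fun j _ => mul_inv_cancel₀ (hne j)
    have e2 : Gammaℝ s ^ r * (Gammaℝ s)⁻¹ ^ r = 1 := by
      rw [← mul_pow, mul_inv_cancel₀ (Gammaℝ_ne_zero_of_re_pos (by linarith)), one_pow]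
    have e3 : (Q : ℂ) ^ s * cexp (-(s * Real.log Q)) = 1 := by
      rw [Q_cpow hQ, ← Complex.exp_add]
      simp
    linear_combination (-(s ^ r * G s)) * ((Gammaℝ s ^ r * (Gammaℝ s)⁻¹ ^ r) * ((∏ j, Gammaℝ (s + κ j)) *
      ∏ j, (Gammaℝ (s + κ j))⁻¹) * e3 + ((∏ j, Gammaℝ (s + κ j)) * ∏ j, (Gammaℝ (s + κ j))⁻¹) * e2 + e)
  exact h1.eqOn_of_preconnected_of_eventuallyEq h2 isPreconnected_univ (Set.mem_univ _) h3 (Set.mem_univ s)

/-- the functional equation -/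
theorem fe_r {r N : ℕ} {κ : Fin N → ℂ} {G Ξ : ℂ → ℂ} {Q : ℝ} {ω : ℂ} (hQ : 0 < Q) (hG : Differentiable ℂ G)
    (hΞ : Differentiable ℂ Ξ)
    (hid : ∀ s : ℂ, 1 < s.re → Ξ s = s ^ r * G s * ((Q : ℂ) ^ s * Gammaℝ s ^ r * ∏ j, Gammaℝ (s + κ j)))
    (hfe : ∀ s : ℂ, Ξ (1 - s) = ω * Ξ s) {s : ℂ} (hs : 1 + ∑ i, ‖κ i‖ < |s.im|) :
    (1 - s) ^ r * G (1 - s) * (Gammaℝ (1 - s) ^ r * GF κ Q (1 - s)) =
      ω * (s ^ r * G s * (Gammaℝ s ^ r * GF κ Q s)) := by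
  have hle : ∀ i, ‖κ i‖ ≤ ∑ i, ‖κ i‖ := fun i =>
    Finset.single_le_sum (f := fun i => ‖κ i‖) (fun _ _ => norm_nonneg _) (Finset.mem_univ i)
  have hnn : 0 ≤ ∑ i, ‖κ i‖ := Finset.sum_nonneg fun _ _ => norm_nonneg _
  have hgam : ∀ s : ℂ, 1 + ∑ i, ‖κ i‖ < |s.im| → Gammaℝ s ≠ 0 ∧ ∏ j, Gammaℝ (s + κ j) ≠ 0 := by
    intro s hs
    refine ⟨gr_ne0 fun h0 => ?_, ?_⟩
    · rw [h0, abs_zero] at hs
      linarith
    · rw [Finset.prod_ne_zero_iff]
      intro j _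
      refine gr_ne0 ?_
      rw [Complex.add_im]
      intro h0
      have a1 := Complex.abs_im_le_norm (κ j)
      have a3 := hle j
      have a5 : s.im = -(κ j).im := by linarith
      rw [a5, abs_neg] at hs
      linarith
  have hxi : ∀ s : ℂ, 1 + ∑ i, ‖κ i‖ < |s.im| →
      Ξ s = s ^ r * G s * (Gammaℝ s ^ r * GF κ Q s) := by
    intro s hs
    have h1 := xi_idr hQ hG hΞ hid s
    obtain ⟨h2, h2'⟩ := hgam s hs
    have h3 : (∏ j, (Gammaℝ (s + κ j))⁻¹) = (∏ j, Gammaℝ (s + κ j))⁻¹ := by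
      rw [← Finset.prod_inv_distrib]
    have h4 : cexp (-(s * Real.log Q)) * cexp (s * Real.log Q) = 1 := by
      rw [← Complex.exp_add]
      simp
    have h5 : (Gammaℝ s)⁻¹ ^ r * Gammaℝ s ^ r = 1 := by
      rw [← mul_pow, inv_mul_cancel₀ h2, one_pow]
    have h6 : (∏ j, Gammaℝ (s + κ j))⁻¹ * (∏ j, Gammaℝ (s + κ j)) = 1 := inv_mul_cancel₀ h2'
    rw [h3] at h1
    rw [h1]
    unfold GF
    linear_combination (-Ξ s) * (h4 * ((Gammaℝ s)⁻¹ ^ r * Gammaℝ s ^ r) *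
      ((∏ j, Gammaℝ (s + κ j))⁻¹ * (∏ j, Gammaℝ (s + κ j)))) + (-Ξ s) * (h5 *
      ((∏ j, Gammaℝ (s + κ j))⁻¹ * (∏ j, Gammaℝ (s + κ j)))) + (-Ξ s) * h6
  have h2 : 1 + ∑ i, ‖κ i‖ < |(1 - s).im| := by simpa using hs
  rw [← hxi s hs, ← hxi (1 - s) h2]
  exact hfe s

theorem alg_r {g g' B B' b b' z z' u v e ω Γ Γ' : ℂ} (hu : u ≠ 0) (hv : v ≠ 0) (hz : z ≠ 0) (hz' : z' ≠ 0)
    (hb : b ≠ 0) (hb' : b' ≠ 0) (hω : ω ≠ 0) (he : e * e = 1)
    (h : ω * v * g * Γ * z' = e * u * g' * Γ' * z) :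
    g * B / (u * z * b) * (b * B') * Γ = ω⁻¹ * (g' * B' / (e * v * z' * b') * (b' * B) * Γ') := by
  have he0 : e ≠ 0 := by
    rintro rfl
    simp at he
  have h1 : g * B / (u * z * b) * (b * B') * Γ = g * B * B' * Γ / (u * z) := by
    field_simp
  have h2 : ω⁻¹ * (g' * B' / (e * v * z' * b') * (b' * B) * Γ') = g' * B * B' * Γ' / (ω * (e * v * z')) := by
    field_simp
  rw [h1, h2, div_eq_div_iff (mul_ne_zero hu hz) (mul_ne_zero hω (mul_ne_zero (mul_ne_zero he0 hv) hz'))]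
  linear_combination (e * B * B') * h + (B * B' * u * g' * Γ' * z) * he

theorem core {r M N : ℕ} (hN : 1 ≤ N) {W : PS S × ℕ → ℝ} {β : Nat.Primes → Fin M → ℂ}
    {κ : Fin N → ℂ} (h : Dat r S W β κ) : ∃ F : ℂ → ℂ, MeromorphicOn F univ ∧
    (∀ s : ℂ, 1 < s.re → F s = cexp (DS (dr r W) LL s)) ∧
    (∀ x : ℝ, 1 / 2 ≤ x → 0 ≤ meromorphicOrderAt F (x : ℂ)) ∧
    ∀ δ : ℝ, 0 < δ → ∃ ρ : ℂ, 1 / 2 - δ < ρ.re ∧ ρ.im ≠ 0 ∧ meromorphicOrderAt F ρ ≠ 0 := by
  obtain ⟨G, Ξ, Q, ω, hG, hΞ, hQ, hω, hE, hgr, hid, hfe⟩ := h.continuation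
  set U : ℂ → ℂ := fun s => G s * bad S β s with hU
  set V : ℂ → ℂ := fun s => VV S s ^ r with hV
  have hUd : Differentiable ℂ U := hG.mul (bad_diff S β)
  have hVd : Differentiable ℂ V := (VV_diff S).pow r
  have hV1 : ∀ s : ℂ, 1 < s.re → V s ≠ 0 := fun s hs => pow_ne_zero r (VV_one hs)
  have hUV : ∀ s : ℂ, 1 < s.re → U s = V s * cexp (DS (dr r W) LL s) :=
    fun s hs => uv_eq h.nonneg h.summable hE hs
  obtain ⟨F, hF, hF1, -, hF3⟩ := t_quot hUd hVd ⟨2, hV1 2 (by norm_num)⟩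
    ⟨2, by rw [hUV 2 (by norm_num)]; exact mul_ne_zero (hV1 2 (by norm_num)) (Complex.exp_ne_zero _)⟩
  have hFE : ∀ s : ℂ, 1 < s.re → F s = cexp (DS (dr r W) LL s) := fun s hs => by
    rw [(hF1 s (hV1 s hs)).1, hUV s hs, mul_div_cancel_left₀ _ (hV1 s hs)]
  have hVc : ∀ s : ℂ, V ((starRingEnd ℂ) s) = (starRingEnd ℂ) (V s) := fun s => by
    rw [hV]
    simp only
    rw [VV_conj, map_pow]
  have hconjU : ∀ s : ℂ, U ((starRingEnd ℂ) s) = (starRingEnd ℂ) (U s) := by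
    refine conj_ext hUd fun s hs => ?_
    rw [hUV s hs, hUV _ (by simpa using hs), hVc, DS_conj, map_mul, ← Complex.exp_conj]
  refine ⟨F, hF, hFE, fun x hx => ?_, ?_⟩
  · have hev : ∀ᶠ z in 𝓝 (x : ℂ), V z ≠ 0 :=
      (hVd.continuous.continuousAt).eventually_ne (pow_ne_zero r (VV_real (by linarith)))
    have : AnalyticAt ℂ F x := analyticAt_iff_eventually_differentiableAt.2 (hev.mono fun z hz => (hF1 z hz).2)
    exact this.meromorphicOrderAt_nonneg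
  · have hnn : 0 ≤ ∑ i, ‖κ i‖ := Finset.sum_nonneg fun _ _ => norm_nonneg _
    have hsd : ∀ t : ℝ, 1 < t → Summable fun x : PS S × ℕ => |dr r W x| * Real.exp (-(t * LL x)) :=
      fun t ht => summable_dr h.nonneg h.summable ht
    refine hex_abs LL_nonneg hsd hFE hN h.conj (Q := Q) (T := 0) le_rfl (inv_ne_zero hω)
      (fun s _ _ h0 => ⟨(hF3 s h0).1, (hF3 s h0).2.1⟩) (fun c0 hc0 hc1 hreg R hR hRc => ?_) (fun a ha ha2 => ?_)
    · obtain ⟨C, A, hCA⟩ := growth_r (S := S) r (β := β) hgr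
      obtain ⟨v0, hv0, hv1⟩ := VV_lower S
      refine ub_entire LL_nonneg hsd (by linarith) hreg hFE (G := U) (V := V) (fun s h1 h2 => ?_) hUd hVd
        (C := C) (A := A) (fun s h1 h2 h3 => hCA s (by linarith) h2 h3) (pow_pos hv0 r) (fun t _ => ?_) hR hRc
      · have h4 : AnalyticAt ℂ F s := by
          refine analyticAt_iff_eventually_differentiableAt.2 ?_
          filter_upwards [(isOpen_lt continuous_const Complex.continuous_re).mem_nhds h1,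
            (isOpen_lt continuous_const Complex.continuous_im).mem_nhds h2] with z hz1 hz2 using (hreg z hz1 hz2).1
        exact (hF3 s (by
          rw [h4.meromorphicOrderAt_eq, h4.analyticOrderAt_eq_zero.2 (hreg s h1 h2).2]
          rfl)).2.2
      · rw [hV]
        simp only
        rw [norm_pow]
        exact pow_le_pow_left₀ hv0.le (hv1 t) r
    · obtain ⟨σ, hσ1, hσ2, hσ3⟩ := exists_line S β ha2
      have hσ0 : 0 < σ := by linarith
      set P1 := ∏ p ∈ S, ∏ i, (1 + ‖β p i‖ * ((p : ℕ) : ℝ) ^ (-(1 - σ))) with hP1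
      set P0 := ∏ p ∈ S, ∏ i, |1 - ‖β p i‖ * ((p : ℕ) : ℝ) ^ (-σ)| with hP0
      set E1 := ∏ p ∈ S, ∏ i : Fin 1, (1 + ‖(1 : ℂ)‖ * ((p : ℕ) : ℝ) ^ (-σ)) with hE1
      set E0 := ∏ p ∈ S, ∏ i : Fin 1, |1 - ‖(1 : ℂ)‖ * ((p : ℕ) : ℝ) ^ (-(1 - σ))| with hE0
      have hP1pos : 0 < P1 := Finset.prod_pos fun p _ => Finset.prod_pos fun i _ => by positivity
      have hE1pos : 0 < E1 := Finset.prod_pos fun p _ => Finset.prod_pos fun i _ => by positivity
      have hE0pos : 0 < E0 := Finset.prod_pos fun p _ => Finset.prod_pos fun i _ => abs_pos.2 (by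
        have := pr_rpow_lt_one p (by linarith : 0 < 1 - σ)
        rw [norm_one, one_mul]
        linarith)
      refine ⟨σ, E1 ^ r * P1, E0 ^ r * P0, hσ1, hσ2, mul_pos (pow_pos hE1pos r) hP1pos,
        mul_pos (pow_pos hE0pos r) hσ3, ?_⟩
      refine ((zeta_freq σ).and_eventually (eventually_gt_atTop (1 + ∑ i, ‖κ i‖))).mono ?_
      rintro t ⟨hζ, htT⟩
      have ht0 : 0 < t := by linarith
      set s : ℂ := (σ : ℂ) + t * I with hs
      have hsre : s.re = σ := by simp [hs]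
      have hsim : s.im = t := by simp [hs]
      have h1sre : (1 - s).re = 1 - σ := by simp [hs]
      have h1sim : (1 - s).im = -t := by simp [hs]
      have hs1 : s ≠ 1 := by
        intro h0
        rw [h0] at hsim
        simp at hsim
        linarith
      have hs0 : s ≠ 0 := by
        intro h0
        rw [h0] at hsim
        simp at hsim
        linarith
      have h1s : 1 - s ≠ 1 := by
        intro h0
        apply hs0
        linear_combination -h0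
      have h1s0 : 1 - s ≠ 0 := sub_ne_zero.2 (Ne.symm hs1)
      have hz1 : riemannZeta₁ s = (s - 1) * riemannZeta s := Pool.Agent.H437R2.z1_of_ne hs1
      have hz2 : riemannZeta₁ (1 - s) = (1 - s - 1) * riemannZeta (1 - s) := Pool.Agent.H437R2.z1_of_ne h1s
      have hG1 : Complex.Gammaℝ s ≠ 0 := Complex.Gammaℝ_ne_zero_of_re_pos (by rw [hsre]; exact hσ0)
      have hG2 : Complex.Gammaℝ (1 - s) ≠ 0 := Complex.Gammaℝ_ne_zero_of_re_pos (by rw [h1sre]; linarith)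
      have hzfe : riemannZeta s * Complex.Gammaℝ s = riemannZeta (1 - s) * Complex.Gammaℝ (1 - s) := by
        rw [riemannZeta_def_of_ne_zero hs0, riemannZeta_def_of_ne_zero h1s0, div_mul_cancel₀ _ hG1,
          div_mul_cancel₀ _ hG2, completedRiemannZeta_one_sub]
      have hζ2 : riemannZeta (1 - s) ≠ 0 := by
        intro h0
        rw [h0, zero_mul] at hzfe
        exact mul_ne_zero hζ hG1 hzfe
      have hb1 : bad S (fun _ (_ : Fin 1) => 1) s ≠ 0 := norm_pos_iff.1 (bad1_pos (by rw [hsre]; exact hσ0))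
      have hb2 : bad S (fun _ (_ : Fin 1) => 1) (1 - s) ≠ 0 :=
        norm_pos_iff.1 (bad1_pos (by rw [h1sre]; linarith))
      have hV1 : VV S s ≠ 0 := by
        unfold VV
        rw [hz1]
        exact mul_ne_zero (mul_ne_zero (sub_ne_zero.2 hs1) hζ) hb1
      have hV2 : VV S (1 - s) ≠ 0 := by
        unfold VV
        rw [hz2]
        exact mul_ne_zero (mul_ne_zero (sub_ne_zero.2 h1s) hζ2) hb2
      have hF1s := (hF1 s (pow_ne_zero r hV1)).1
      have hF2s := (hF1 (1 - s) (pow_ne_zero r hV2)).1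
      have e3 : ((1 - σ : ℝ) : ℂ) + t * I = (starRingEnd ℂ) (1 - s) := by
        rw [hs]
        simp only [map_add, map_sub, map_one, map_mul, Complex.conj_I, Complex.conj_ofReal]
        push_cast
        ring
      have hcj : ‖F (1 - s)‖ = ‖F (((1 - σ : ℝ) : ℂ) + t * I)‖ := by
        rw [e3]
        have hV3 : V ((starRingEnd ℂ) (1 - s)) ≠ 0 := by
          rw [hVc]
          have : V (1 - s) ≠ 0 := pow_ne_zero r hV2
          simpa using this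
        rw [(hF1 _ hV3).1, hF2s, hconjU, hVc, norm_div, norm_div, RCLike.norm_conj, RCLike.norm_conj]
      refine ⟨bad S (fun _ (_ : Fin 1) => 1) s ^ r * bad S β (1 - s),
        bad S (fun _ (_ : Fin 1) => 1) (1 - s) ^ r * bad S β s, ?_, ?_, ?_, hcj⟩
      · rw [norm_mul, norm_pow]
        have hY1 : ‖bad S (fun _ (_ : Fin 1) => 1) s‖ ≤ E1 := by
          have := bad_le S (fun _ (_ : Fin 1) => 1) s
          rwa [hsre] at this
        have hZ1 : ‖bad S β (1 - s)‖ ≤ P1 := by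
          have := bad_le S β (1 - s)
          rwa [h1sre] at this
        gcongr
      · rw [norm_mul, norm_pow]
        have hY2 : E0 ≤ ‖bad S (fun _ (_ : Fin 1) => 1) (1 - s)‖ := by
          have := bad_ge S (fun _ (_ : Fin 1) => 1) (1 - s)
          rwa [h1sre] at this
        have hZ2 : P0 ≤ ‖bad S β s‖ := by
          have := bad_ge S β s
          rwa [hsre] at this
        gcongr
      · have hfe' := fe_r hQ hG hΞ hid hfe (s := s) (by rw [hsim, abs_of_pos ht0]; exact htT)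
        have a1 : s - 1 ≠ 0 := sub_ne_zero.2 hs1
        have a3 : 1 - s - 1 = -s := by ring
        have hV1' : VV S s = (s - 1) * riemannZeta s * bad S (fun _ (_ : Fin 1) => 1) s := by
          unfold VV
          rw [hz1]
        have hV2' : VV S (1 - s) = -s * riemannZeta (1 - s) * bad S (fun _ (_ : Fin 1) => 1) (1 - s) := by
          unfold VV
          rw [hz2, a3]
        have hzfe' : riemannZeta s ^ r * Complex.Gammaℝ s ^ r =
            riemannZeta (1 - s) ^ r * Complex.Gammaℝ (1 - s) ^ r := by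
          rw [← mul_pow, ← mul_pow, hzfe]
        have a4 : ω * s ^ r * G s * GF κ Q s * riemannZeta (1 - s) ^ r =
            (1 - s) ^ r * G (1 - s) * GF κ Q (1 - s) * riemannZeta s ^ r := by
          apply mul_right_cancel₀ (pow_ne_zero r hG2)
          linear_combination (-riemannZeta s ^ r) * hfe' - (ω * s ^ r * G s * GF κ Q s) * hzfe'
        rw [hF1s, hF2s, hU, hV]
        simp only
        rw [hV1', hV2']
        have b1 : (s - 1) ^ r ≠ 0 := pow_ne_zero r a1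
        have b3 : riemannZeta s ^ r ≠ 0 := pow_ne_zero r hζ
        have b4 : riemannZeta (1 - s) ^ r ≠ 0 := pow_ne_zero r hζ2
        have b5 : bad S (fun _ (_ : Fin 1) => 1) s ^ r ≠ 0 := pow_ne_zero r hb1
        have b6 : bad S (fun _ (_ : Fin 1) => 1) (1 - s) ^ r ≠ 0 := pow_ne_zero r hb2
        have c1 : (1 - s) ^ r = (-1) ^ r * (s - 1) ^ r := by rw [← mul_pow]; congr 1; ring
        have c2 : (-s) ^ r = (-1) ^ r * s ^ r := by rw [← mul_pow]; congr 1; ring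
        have c3 : ((-1 : ℂ) ^ r) * (-1) ^ r = 1 := by rw [← mul_pow]; simp
        rw [mul_pow, mul_pow, mul_pow, mul_pow, c2]
        rw [c1] at a4
        exact alg_r b1 (pow_ne_zero r hs0) b3 b4 b5 b6 hω c3 a4

end Pool.Agent.H274.Iso
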