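import Mathlib
import Pool.Agent.H274.Iso1

/-! Dirichlet series `D(s)` with a pole of order `r`: small coefficients at every scale. -/

set_option autoImplicit false

open Complex MeasureTheory Set Filter Topology
open Pool.Agent.W189.TP (DS DS_diff DS_norm_le summ_mono PS LL LL_nonneg exp_LL rexp_LL summable_pp zetaS norm_term
  summable_primes_subtype summ_cplx bad bad_diff bad_le bad_ge exists_line pr_rpow_lt_one zeta_freq)
open Pool.Agent.TH949.RES (GF KK KK_nonneg Q_cpow gr_ne0)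
open Pool.Agent.TH949.TX (VV VV_diff VV_ne VV_real VV_one VV_conj VV_lower UU_growth conj_ext DS_conj bad1_pos t_quot
  hex_abs ub_entire order_eq LL_fin le_LL LL_le main_all sum_abs sum_first sum_inj count_primes count_of_sum
  primes_card primes_log_fin dn dn_inj bad_zero pow_log)

namespace Pool.Agent.H274.Iso

variable {S : Finset Nat.Primes}

/-- `D(s) / ζ(s)^r`, without the Euler factors in `S`, has a zero or a pole of real part `> c` -/
def SingD (r : ℕ) (W : PS S × ℕ → ℝ) (c : ℝ) : Prop :=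
  ∃ (F : ℂ → ℂ) (ρ : ℂ), MeromorphicOn F Set.univ ∧
    (∀ s : ℂ, 1 < s.re → F s * (riemannZeta s * ∏ p ∈ S, (1 - ((p : ℕ) : ℂ) ^ (-s))) ^ r =
      Complex.exp (lgD W s)) ∧
    c < ρ.re ∧ meromorphicOrderAt F ρ ≠ 0

theorem sing_zero {r M : ℕ} {W : PS S × ℕ → ℝ} {β : Nat.Primes → Fin M → ℂ} (hW : ∀ x, 0 ≤ W x)
    (hsum : ∀ σ : ℝ, 1 < σ → Summable fun x : PS S × ℕ =>
      W x / ((x.2 : ℝ) + 1) * (((x.1.1 : ℕ) : ℝ) ^ (-σ)) ^ (x.2 + 1))
    {G : ℂ → ℂ} (hG : Differentiable ℂ G)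
    (hE : ∀ s : ℂ, 1 < s.re → G s * ∏ p ∈ S, ∏ i, (1 - β p i * ((p : ℕ) : ℂ) ^ (-s)) =
      (s - 1) ^ r * Complex.exp (lgD W s))
    {x c : ℝ} (hx : 0 < x) (hcx : c < x) (h0 : G (x : ℂ) * bad S β (x : ℂ) = 0) : SingD r W c := by
  set U : ℂ → ℂ := fun s => G s * bad S β s with hU
  set V : ℂ → ℂ := fun s => VV S s ^ r with hV
  have hUd : Differentiable ℂ U := hG.mul (bad_diff S β)
  have hVd : Differentiable ℂ V := (VV_diff S).pow r
  have hV1 : ∀ s : ℂ, 1 < s.re → V s ≠ 0 := fun s hs => pow_ne_zero r (VV_one hs)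
  have hUV : ∀ s : ℂ, 1 < s.re → U s = V s * cexp (DS (dr r W) LL s) :=
    fun s hs => uv_eq hW hsum hE hs
  obtain ⟨F, hF, hF1, -, hF3⟩ := t_quot hUd hVd ⟨2, hV1 2 (by norm_num)⟩
    ⟨2, by rw [hUV 2 (by norm_num)]; exact mul_ne_zero (hV1 2 (by norm_num)) (Complex.exp_ne_zero _)⟩
  have hFE : ∀ s : ℂ, 1 < s.re → F s = cexp (DS (dr r W) LL s) := fun s hs => by
    rw [(hF1 s (hV1 s hs)).1, hUV s hs, mul_div_cancel_left₀ _ (hV1 s hs)]
  refine ⟨F, (x : ℂ), hF, fun s hs => ?_, by simpa using hcx, ?_⟩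
  · rw [hFE s hs, ← exp_dr (r := r) hW hsum hs]
    unfold bad
    simp
  · have hVx : V (x : ℂ) ≠ 0 := pow_ne_zero r (VV_real hx)
    have hev : ∀ᶠ z in 𝓝 (x : ℂ), V z ≠ 0 :=
      (hVd.continuous.continuousAt).eventually_ne hVx
    have han : AnalyticAt ℂ F x := analyticAt_iff_eventually_differentiableAt.2 (hev.mono fun z hz => (hF1 z hz).2)
    have hFx : F x = 0 := by
      rw [(hF1 _ hVx).1]
      show U x / V x = 0
      have h1 : U x = 0 := h0
      rw [h1, zero_div]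
    rw [han.meromorphicOrderAt_eq]
    have h2 : analyticOrderAt F x ≠ 0 := han.analyticOrderAt_ne_zero.2 hFx
    intro h3
    cases h4 : analyticOrderAt F x with
    | top => rw [h4] at h3; exact absurd h3 (by simp)
    | coe k =>
      rw [h4] at h3 h2
      apply h2
      have h5 : ((k : ℤ) : WithTop ℤ) = 0 := h3
      have h6 : (k : ℤ) = 0 := by exact_mod_cast h5
      have h7 : k = 0 := by exact_mod_cast h6
      rw [h7]
      rfl

theorem key {r M N : ℕ} (hN : 1 ≤ N) {W : PS S × ℕ → ℝ} {β : Nat.Primes → Fin M → ℂ}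
    {κ : Fin N → ℂ} (h : Dat r S W β κ) {c lam : ℝ} (hc : c < 1 / 2 ∨ SingD r W c) (hlam : 0 < lam) :
    ∃ a : ℝ, c < a ∧ ∀ᶠ X : ℝ in atTop, X ^ a ≤ ∑' x : PS S × ℕ, (open Classical in
      if (1 - lam) * Real.log X ≤ LL x ∧ LL x ≤ Real.log X then max 0 (r - W x) else 0) := by
  classical
  obtain ⟨F0, hF0, hE, hreal, hex⟩ := core hN h
  have hsd : ∀ t : ℝ, 1 < t → Summable fun x : PS S × ℕ => |dr r W x| * Real.exp (-(t * LL x)) :=
    fun t ht => summable_dr h.nonneg h.summable ht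
  have hc' : c < 1 / 2 ∨ ∃ ρ : ℂ, c < ρ.re ∧ meromorphicOrderAt F0 ρ ≠ 0 := by
    rcases hc with h1 | ⟨F, ρ, hF, hFE, h3, h5⟩
    · exact Or.inl h1
    · refine Or.inr ⟨ρ, h3, ?_⟩
      rw [← order_eq hF hF0 (fun s hs => ?_) ρ]
      · exact h5
      · have h6 := hFE s hs
        have h7 := exp_dr (r := r) h.nonneg h.summable hs
        have hb : bad S (fun _ (_ : Fin 1) => 1) s = ∏ p ∈ S, (1 - ((p : ℕ) : ℂ) ^ (-s)) := by
          unfold bad
          simp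
        rw [hb, ← h6] at h7
        have h8 : (riemannZeta s * ∏ p ∈ S, (1 - ((p : ℕ) : ℂ) ^ (-s))) ^ r ≠ 0 := by
          refine pow_ne_zero r (mul_ne_zero (riemannZeta_ne_zero_of_one_le_re hs.le) ?_)
          rw [← hb]
          exact norm_pos_iff.1 (bad1_pos (by linarith))
        rw [hE s hs]
        exact (mul_right_cancel₀ h8 h7).symm
  obtain ⟨a, a', h1, h1', h2, h3⟩ : ∃ a a' : ℝ, c < a ∧ a < a' ∧ 0 < a' ∧
      (a' < 1 / 2 ∨ ∃ ρ : ℂ, a' < ρ.re ∧ meromorphicOrderAt F0 ρ ≠ 0) := by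
    by_cases ha2 : c < 1 / 2
    · have h4 : c < max ((c + 1 / 2) / 2) (1 / 4) := lt_max_of_lt_left (by linarith)
      exact ⟨(c + max ((c + 1 / 2) / 2) (1 / 4)) / 2, max ((c + 1 / 2) / 2) (1 / 4), by linarith, by linarith,
        lt_max_of_lt_right (by norm_num), Or.inl (max_lt (by linarith) (by norm_num))⟩
    · rcases hc' with h3 | ⟨ρ, h3, h5⟩
      · exact absurd h3 ha2
      · push Not at ha2
        exact ⟨(2 * c + ρ.re) / 3, (c + ρ.re) / 2, by linarith, by linarith, by linarith, Or.inr ⟨ρ, by linarith, h5⟩⟩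
  refine ⟨a, h1, ?_⟩
  refine sum_abs (d := dr r W) LL_nonneg (fun x => le_max_left _ _) (fun x => ?_) LL_fin h2 h1'
    (fun l hl hl1 => main_all LL_nonneg hsd hF0 hE hreal hex h3 hl hl1) hlam
  unfold dr
  have hk : (0 : ℝ) ≤ x.2 := Nat.cast_nonneg _
  rw [← neg_div, neg_sub, div_le_iff₀ (by linarith)]
  have h4 : (r : ℝ) - W x ≤ max 0 ((r : ℝ) - W x) := le_max_right _ _
  have h5 : 0 ≤ max 0 ((r : ℝ) - W x) := le_max_left _ _
  nlinarith

theorem fin_r {r : ℕ} (hr : 1 ≤ r) {W : PS S × ℕ → ℝ} (hW : ∀ x, 0 ≤ W x) {c lam : ℝ}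
    (hk : ∃ a : ℝ, c < a ∧ ∀ᶠ X : ℝ in atTop,
      X ^ a ≤ ∑' x : PS S × ℕ, (open Classical in
        if (1 - lam) * Real.log X ≤ LL x ∧ LL x ≤ Real.log X then max 0 (r - W x) else 0)) :
    (∀ᶠ X : ℝ in atTop, X ^ c ≤ ∑' x : PS S × ℕ, (open Classical in
      if X ^ (1 - lam) ≤ ((x.1.1 : ℕ) : ℝ) ^ (x.2 + 1) ∧ ((x.1.1 : ℕ) : ℝ) ^ (x.2 + 1) ≤ X then
        max 0 (r - W x) else 0)) ∧
    (1 / 2 ≤ c → ∀ᶠ X : ℝ in atTop, X ^ c ≤ ∑' p : PS S, (open Classical in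
      if X ^ (1 - lam) ≤ ((p.1 : ℕ) : ℝ) ∧ ((p.1 : ℕ) : ℝ) ≤ X then max 0 (r - W (p, 0)) else 0)) ∧
    (∀ E : PS S → Prop, (∀ (p : PS S) (k : ℕ), W (p, k) < r → E p) →
      ∀ᶠ X : ℝ in atTop, X ^ c ≤ (({p : PS S | ((p.1 : ℕ) : ℝ) ≤ X ∧ E p}.ncard : ℕ) : ℝ)) := by
  classical
  obtain ⟨a, hca, hkey⟩ := hk
  have hr0 : (1 : ℝ) ≤ r := by exact_mod_cast hr
  have hr1 : (0 : ℝ) < r := by linarith
  set w : PS S × ℕ → ℝ := fun x => max 0 (r - W x) / r with hw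
  have hw0 : ∀ x, 0 ≤ w x := fun x => div_nonneg (le_max_left _ _) hr1.le
  have hw1 : ∀ x, w x ≤ 1 := fun x => by
    rw [hw]
    simp only
    rw [div_le_one hr1]
    exact max_le hr1.le (by have := hW x; linarith)
  have hl2 : ∀ p : PS S, Real.log 2 ≤ Real.log ((p.1 : ℕ) : ℝ) := fun p =>
    Real.log_le_log (by norm_num) (by exact_mod_cast p.1.2.two_le)
  obtain ⟨a1, ha1, ha2⟩ : ∃ a1 : ℝ, c < a1 ∧ a1 < a := ⟨(c + a) / 2, by linarith, by linarith⟩
  have hkey1 : ∀ᶠ X : ℝ in atTop, X ^ a1 ≤ ∑' x : PS S × ℕ,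
      (if (1 - lam) * Real.log X ≤ LL x ∧ LL x ≤ Real.log X then w x else 0) := by
    filter_upwards [hkey, pow_log ha2 r, eventually_gt_atTop (Real.exp 1)] with X h1 h2 h3
    have hX0 : 0 < X := (Real.exp_pos 1).trans h3
    have hlog : 1 < Real.log X := by
      rw [Real.lt_log_iff_exp_lt hX0]
      exact h3
    have e : ∑' x : PS S × ℕ, (if (1 - lam) * Real.log X ≤ LL x ∧ LL x ≤ Real.log X then w x else 0) =
        (∑' x : PS S × ℕ, (if (1 - lam) * Real.log X ≤ LL x ∧ LL x ≤ Real.log X then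
          max 0 (r - W x) else 0)) / r := by
      rw [← tsum_div_const]
      refine tsum_congr fun x => ?_
      by_cases hx : (1 - lam) * Real.log X ≤ LL x ∧ LL x ≤ Real.log X
      · rw [if_pos hx, if_pos hx]
      · rw [if_neg hx, if_neg hx, zero_div]
    rw [e, le_div_iff₀ hr1]
    have h4 : 0 < X ^ a1 := by positivity
    have h5 : X ^ a1 * r ≤ r * Real.log X * X ^ a1 := by
      have : X ^ a1 * r * 1 ≤ X ^ a1 * r * Real.log X := mul_le_mul_of_nonneg_left hlog.le (by positivity)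
      linarith
    linarith
  refine ⟨?_, fun hc2 => ?_, fun E hEp => ?_⟩
  · filter_upwards [hkey, eventually_ge_atTop 1] with X h1 h2
    have h3 : (0 : ℝ) < X := by linarith
    refine (Real.rpow_le_rpow_of_exponent_le h2 hca.le).trans (h1.trans (le_of_eq (tsum_congr fun x => ?_)))
    simp only [le_LL h3, LL_le h3]
  · have h1 := sum_first (P := PS S) (ℓ := fun p => Real.log ((p.1 : ℕ) : ℝ)) hl2 zero_le_one primes_log_fin primes_card
      (w := w) hw0 hw1 (lam := lam) hc2 ha1 hkey1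
    filter_upwards [h1, eventually_gt_atTop 0] with X h2 h3
    have e : ∑' p : PS S, (if X ^ (1 - lam) ≤ ((p.1 : ℕ) : ℝ) ∧ ((p.1 : ℕ) : ℝ) ≤ X then
        max 0 (r - W (p, 0)) else 0) = (∑' p : PS S,
          (if (1 - lam) * Real.log X ≤ Real.log ((p.1 : ℕ) : ℝ) ∧ Real.log ((p.1 : ℕ) : ℝ) ≤ Real.log X then
            w (p, 0) else 0)) * r := by
      rw [← tsum_mul_right]
      refine tsum_congr fun p => ?_
      have hp : (0 : ℝ) < ((p.1 : ℕ) : ℝ) := by exact_mod_cast p.1.2.pos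
      have e1 : (1 - lam) * Real.log X ≤ Real.log ((p.1 : ℕ) : ℝ) ↔ X ^ (1 - lam) ≤ ((p.1 : ℕ) : ℝ) := by
        rw [← Real.log_rpow h3, Real.log_le_log_iff (by positivity) hp]
      simp only [e1, Real.log_le_log_iff hp h3]
      by_cases hx : X ^ (1 - lam) ≤ ((p.1 : ℕ) : ℝ) ∧ ((p.1 : ℕ) : ℝ) ≤ X
      · rw [if_pos hx, if_pos hx, hw]
        simp only
        rw [div_mul_cancel₀ _ hr1.ne']
      · rw [if_neg hx, if_neg hx, zero_mul]
    rw [e]
    have h4 : 0 < X ^ c := by positivity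
    nlinarith
  · have h4 := count_primes (P := PS S) (ℓ := fun p => Real.log ((p.1 : ℕ) : ℝ)) (d := dr r W)
      (E := E) hl2 primes_log_fin (fun x hx => ?_) ha1 ?_
    · filter_upwards [h4, eventually_gt_atTop 0] with X h5 h6
      refine h5.trans (le_of_eq ?_)
      congr 2
      ext p
      have hp : (0 : ℝ) < ((p.1 : ℕ) : ℝ) := by exact_mod_cast p.1.2.pos
      simp only [Set.mem_ofPred_eq]
      rw [Real.log_le_log_iff hp h6]
    · refine hEp x.1 x.2 ?_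
      unfold dr at hx
      by_contra h4
      push Not at h4
      have h5 : 0 ≤ (W x - r) / ((x.2 : ℝ) + 1) := div_nonneg (by linarith) (by positivity)
      linarith
    · filter_upwards [hkey1] with X h5
      refine h5.trans (count_of_sum (d := dr r W) hw1 (fun x hx => ?_) LL_fin)
      unfold dr at hx
      have hk : (0 : ℝ) ≤ x.2 := Nat.cast_nonneg _
      have h6 : 0 < (x.2 : ℝ) + 1 := by linarith
      have h7 : 0 ≤ (W x - r) / ((x.2 : ℝ) + 1) * ((x.2 : ℝ) + 1) := mul_nonneg hx h6.le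
      rw [div_mul_cancel₀ _ h6.ne'] at h7
      rw [hw]
      simp only
      rw [max_eq_left (by linarith), zero_div]

/-! ## Removing an Euler factor -/

theorem lgD_split [DecidableEq Nat.Primes] (q : PS S) (W : PS S × ℕ → ℝ) {s : ℂ}
    (hs : Summable fun x : PS S × ℕ => ((W x / ((x.2 : ℝ) + 1) : ℝ) : ℂ) *
      (((x.1.1 : ℕ) : ℂ) ^ (-s)) ^ (x.2 + 1)) :
    lgD W s = lgD (fun y : PS (insert q.1 S) × ℕ => W (dn q y.1, y.2)) s +
      ∑' k : ℕ, ((W (q, k) / ((k : ℝ) + 1) : ℝ) : ℂ) * (((q.1 : ℕ) : ℂ) ^ (-s)) ^ (k + 1) := by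
  classical
  set f : PS S × ℕ → ℂ := fun x => ((W x / ((x.2 : ℝ) + 1) : ℝ) : ℂ) *
      (((x.1.1 : ℕ) : ℂ) ^ (-s)) ^ (x.2 + 1) with hf
  set A : Set (PS S × ℕ) := {x | x.1 = q} with hA
  have h1 : f = fun x => A.indicator f x + Aᶜ.indicator f x := by
    funext x
    exact (congrFun (Set.indicator_self_add_compl A f) x).symm
  have e0 : lgD W s = ∑' x, f x := rfl
  rw [e0, h1]
  rw [(hs.indicator A).tsum_add (hs.indicator Aᶜ), add_comm]
  congr 1
  · have hg : Function.Injective (fun y : PS (insert q.1 S) × ℕ => ((dn q y.1, y.2) : PS S × ℕ)) := by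
      rintro ⟨a, k⟩ ⟨b, l⟩ h
      simp only [Prod.mk.injEq] at h
      exact Prod.ext (dn_inj q h.1) h.2
    rw [← hg.tsum_eq]
    · unfold lgD
      refine tsum_congr fun y => ?_
      rw [Set.indicator_of_mem]
      · rfl
      · intro h2
        have h3 : dn q y.1 = q := h2
        have h4 : y.1.1 = q.1 := congrArg Subtype.val h3
        exact y.1.2 (by rw [h4]; exact Finset.mem_insert_self _ _)
    · intro x hx
      have h2 : x ∈ Aᶜ := by
        by_contra h3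
        exact hx (Set.indicator_of_notMem h3 f)
      have h3 : x.1.1 ∉ insert q.1 S := by
        rw [Finset.mem_insert]
        rintro (h4 | h4)
        · exact h2 (Subtype.ext h4)
        · exact x.1.2 h4
      exact ⟨(⟨x.1.1, h3⟩, x.2), rfl⟩
  · have hg : Function.Injective (fun k : ℕ => ((q, k) : PS S × ℕ)) := fun a b h => (Prod.mk.inj h).2
    rw [← hg.tsum_eq]
    · refine tsum_congr fun k => ?_
      rw [Set.indicator_of_mem]
      exact rfl
    · intro x hx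
      have h2 : x ∈ A := by
        by_contra h3
        exact hx (Set.indicator_of_notMem h3 f)
      exact ⟨x.2, Prod.ext (Eq.symm h2) rfl⟩

open Classical in
/-- the enlarged family of parameters -/
noncomputable def enl {M : ℕ} (q : PS S) (B : PS S → Fin M → ℂ) (β : Nat.Primes → Fin M → ℂ)
    (p : Nat.Primes) (i : Fin M) : ℂ := if p = q.1 then B q i else β p i

theorem enlarge_r [DecidableEq Nat.Primes] {r M N : ℕ} {W : PS S × ℕ → ℝ} {β : Nat.Primes → Fin M → ℂ}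
    {κ : Fin N → ℂ} (h : Dat r S W β κ) (B : PS S → Fin M → ℂ)
    (hB : ∀ (q : PS S) (s : ℂ), 1 < s.re → (∏ i, (1 - B q i * ((q.1 : ℕ) : ℂ) ^ (-s))) *
      cexp (∑' k : ℕ, ((W (q, k) / ((k : ℝ) + 1) : ℝ) : ℂ) * (((q.1 : ℕ) : ℂ) ^ (-s)) ^ (k + 1)) = 1)
    (q : PS S) :
    Dat r (insert q.1 S) (fun y : PS (insert q.1 S) × ℕ => W (dn q y.1, y.2)) (enl q B β) κ := by
  refine ⟨fun x => h.nonneg _, h.conj, fun σ hσ => ?_, ?_⟩
  · have hg : Function.Injective (fun y : PS (insert q.1 S) × ℕ => ((dn q y.1, y.2) : PS S × ℕ)) := by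
      rintro ⟨a, k⟩ ⟨b, l⟩ h
      simp only [Prod.mk.injEq] at h
      exact Prod.ext (dn_inj q h.1) h.2
    refine ((h.summable σ hσ).comp_injective hg).congr fun x => ?_
    simp only [Function.comp, dn]
  · obtain ⟨G, Ξ, Q, ω, hG, hΞ, hQ, hω, hE, hgr, hid, hfe⟩ := h.continuation
    refine ⟨G, Ξ, Q, ω, hG, hΞ, hQ, hω, fun s hs => ?_, hgr, hid, hfe⟩
    have h1 := hB q s hs
    have hsum : Summable fun x : PS S × ℕ => ((W x / ((x.2 : ℝ) + 1) : ℝ) : ℂ) *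
        (((x.1.1 : ℕ) : ℂ) ^ (-s)) ^ (x.2 + 1) := by
      refine Summable.of_norm ((h.summable s.re hs).congr fun x => ?_)
      rw [norm_mul, norm_pow, Complex.norm_natCast_cpow_of_pos x.1.1.2.pos, Complex.neg_re, Complex.norm_real,
        Real.norm_of_nonneg (div_nonneg (h.nonneg x) (by positivity))]
    have h2 := lgD_split q W hsum
    rw [Finset.prod_insert q.2]
    have h3 : ∏ p ∈ S, ∏ i, (1 - enl q B β p i * ((p : ℕ) : ℂ) ^ (-s)) =
        ∏ p ∈ S, ∏ i, (1 - β p i * ((p : ℕ) : ℂ) ^ (-s)) := by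
      refine Finset.prod_congr rfl fun p hp => Finset.prod_congr rfl fun i _ => ?_
      unfold enl
      rw [if_neg]
      rintro rfl
      exact q.2 hp
    have h4 : ∏ i, (1 - enl q B β q.1 i * ((q.1 : ℕ) : ℂ) ^ (-s)) =
        ∏ i, (1 - B q i * ((q.1 : ℕ) : ℂ) ^ (-s)) := by
      refine Finset.prod_congr rfl fun i _ => ?_
      unfold enl
      rw [if_pos rfl]
    rw [h3, h4]
    have h5 := hE s hs
    rw [h2, Complex.exp_add] at h5
    linear_combination (∏ i, (1 - B q i * ((q.1 : ℕ) : ℂ) ^ (-s))) * h5 +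
      ((s - 1) ^ r * cexp (lgD (fun y : PS (insert q.1 S) × ℕ => W (dn q y.1, y.2)) s)) * h1

theorem gam_zero_r {r m : ℕ} {κ : Fin m → ℂ} {G Ξ : ℂ → ℂ} {Q : ℝ} (hQ : 0 < Q) (hG : Differentiable ℂ G)
    (hΞ : Differentiable ℂ Ξ)
    (hid : ∀ s : ℂ, 1 < s.re → Ξ s = s ^ r * G s * ((Q : ℂ) ^ s * Gammaℝ s ^ r * ∏ j, Gammaℝ (s + κ j)))
    {j : Fin m} {x : ℝ} (hx : κ j = -(x : ℂ)) (hx0 : 0 < x) : G (x : ℂ) = 0 := by
  have h5 := xi_idr hQ hG hΞ hid (x : ℂ)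
  have h6 : ∏ j, (Gammaℝ ((x : ℂ) + κ j))⁻¹ = 0 := by
    refine Finset.prod_eq_zero (Finset.mem_univ j) ?_
    rw [hx, inv_eq_zero, Gammaℝ_eq_zero_iff]
    exact ⟨0, by simp⟩
  rw [h6, mul_zero, mul_zero, mul_eq_zero] at h5
  rcases h5 with h5 | h5
  · have h7 : (x : ℂ) = 0 := eq_zero_of_pow_eq_zero h5
    have : x = 0 := by exact_mod_cast h7
    linarith
  · exact h5

/-- the exponents -/
def AdmD (r : ℕ) (S : Finset Nat.Primes) {M N : ℕ} (W : PS S × ℕ → ℝ) (B : PS S → Fin M → ℂ)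
    (β : Nat.Primes → Fin M → ℂ) (κ : Fin N → ℂ) (c : ℝ) : Prop :=
  c < 1 / 2 ∨
  (∃ (p : PS S) (i : Fin M) (x : ℝ), B p i = ((p.1 : ℕ) : ℂ) ^ (x : ℂ) ∧ c < x) ∨
  (∃ p ∈ S, ∃ (i : Fin M) (x : ℝ), β p i = ((p : ℕ) : ℂ) ^ (x : ℂ) ∧ c < x) ∨
  (∃ (j : Fin N) (x : ℝ), κ j = -(x : ℂ) ∧ c < x) ∨ SingD r W c

theorem adm_key_r {r M N : ℕ} (hN : 1 ≤ N) {W : PS S × ℕ → ℝ} {β : Nat.Primes → Fin M → ℂ}
    {κ : Fin N → ℂ} (h : Dat r S W β κ) (B : PS S → Fin M → ℂ)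
    (hB : ∀ (q : PS S) (s : ℂ), 1 < s.re → (∏ i, (1 - B q i * ((q.1 : ℕ) : ℂ) ^ (-s))) *
      cexp (∑' k : ℕ, ((W (q, k) / ((k : ℝ) + 1) : ℝ) : ℂ) * (((q.1 : ℕ) : ℂ) ^ (-s)) ^ (k + 1)) = 1)
    {c lam : ℝ} (hc : AdmD r S W B β κ c) (hlam : 0 < lam) :
    ∃ a : ℝ, c < a ∧ ∀ᶠ X : ℝ in atTop, X ^ a ≤ ∑' x : PS S × ℕ, (open Classical in
      if (1 - lam) * Real.log X ≤ LL x ∧ LL x ≤ Real.log X then max 0 (r - W x) else 0) := by
  classical
  by_cases hc2 : c < 1 / 2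
  · exact key hN h (Or.inl hc2) hlam
  have hc0 : 1 / 2 ≤ c := not_lt.1 hc2
  obtain ⟨G, Ξ, Q, ω, hG, hΞ, hQ, hω, hE, hgr, hid, hfe⟩ := h.continuation
  rcases hc with hc | ⟨q, i, x, hx, hc⟩ | ⟨p, hp, i, x, hx, hc⟩ | ⟨j, x, hx, hc⟩ | hc
  · exact absurd hc hc2
  · -- remove the Euler factor at `q`
    have h' := enlarge_r h B hB q
    obtain ⟨G', Ξ', Q', ω', hG', hΞ', hQ', hω', hE', -, -, -⟩ := h'.continuation
    have hb : enl q B β q.1 i = ((q.1 : ℕ) : ℂ) ^ (x : ℂ) := by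
      unfold enl
      rw [if_pos rfl, hx]
    have hb0 : bad (insert q.1 S) (enl q B β) (x : ℂ) = 0 := bad_zero (Finset.mem_insert_self _ _) hb
    have hs : SingD r (fun y : PS (insert q.1 S) × ℕ => W (dn q y.1, y.2)) c := by
      refine sing_zero h'.nonneg h'.summable hG' hE' (x := x) (by linarith) hc ?_
      rw [hb0, mul_zero]
    obtain ⟨a, ha, hk⟩ := key hN h' (Or.inr hs) hlam
    refine ⟨a, ha, ?_⟩
    have hg : Function.Injective (fun y : PS (insert q.1 S) × ℕ => ((dn q y.1, y.2) : PS S × ℕ)) := by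
      rintro ⟨a, k⟩ ⟨b, l⟩ h
      simp only [Prod.mk.injEq] at h
      exact Prod.ext (dn_inj q h.1) h.2
    filter_upwards [hk] with X hX
    exact hX.trans (sum_inj (w := fun x : PS S × ℕ => max 0 (r - W x))
      (fun x => le_max_left _ _) (L := LL) LL_fin hg _ _)
  · refine key hN h (Or.inr (sing_zero h.nonneg h.summable hG hE (by linarith) hc ?_)) hlam
    rw [bad_zero hp hx, mul_zero]
  · refine key hN h (Or.inr (sing_zero h.nonneg h.summable hG hE (by linarith) hc ?_)) hlam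
    rw [gam_zero_r hQ hG hΞ hid hx (by linarith), zero_mul]
  · exact key hN h (Or.inr hc) hlam

end Pool.Agent.H274.Iso
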