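import Mathlib
import Pool.Agent.H274.Iso2

/-! Isobaric representations of `GL_n` over `ℚ` and finite families of them. -/

set_option autoImplicit false

open Complex MeasureTheory Set Filter Topology
open Pool.Agent.W189.TP (PS LL logRS bad)
open Pool.Agent.TH949.RES (Q_cpow)
open Pool.Agent.TH949.TX (norm_bd euler_hasSum euler_exp)

namespace Pool.Agent.H274.Iso

/-- Properties of an isobaric automorphic representation `Π = Π_1 ⊞ ⋯ ⊞ Π_l` of `GL_n` over `ℚ`, with unitary cuspidal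
`Π_i`, unramified outside the finite set `S` of primes; `r` is the number of the pairs `(i, j)` with `Π_i ≅ Π_j`, the
order of the pole of `L(s, Π × Π~)` at `s = 1`. The Satake parameters are `α p`, `p ∉ S`; the `β p`, `p ∈ S`, are the
reciprocal roots of the Euler factors of `L(s, Π × Π~)` at `p ∈ S`; `0` (`r` times) and `κ` are the parameters of the
Gamma factors of `L(s, Π × Π~)`. -/
structure IsobaricRep {n : ℕ} (r : ℕ) (S : Finset Nat.Primes) (α : PS S → Fin n → ℂ)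
    (β : Nat.Primes → Fin (n ^ 2) → ℂ) (κ : Fin (n ^ 2 - r) → ℂ) : Prop where
  /-- the Satake parameters are nonzero -/
  ne_zero : ∀ p i, α p i ≠ 0
  /-- `Π_p` is unitary -/
  unitary : ∀ p, ∃ τ : Equiv.Perm (Fin n), ∀ i, α p (τ i) = ((starRingEnd ℂ) (α p i))⁻¹
  /-- `Π × Π~` is Hermitian at the real place -/
  conj : Multiset.map (fun j => (starRingEnd ℂ) (κ j)) Finset.univ.val = Multiset.map κ Finset.univ.val
  /-- absolute convergence of `L(s, Π × Π~)` for `Re s > 1` -/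
  summable : ∀ σ : ℝ, 1 < σ → Summable fun x : PS S × ℕ =>
    ‖∑ i, α x.1 i ^ (x.2 + 1)‖ ^ 2 / ((x.2 : ℝ) + 1) * (((x.1.1 : ℕ) : ℝ) ^ (-σ)) ^ (x.2 + 1)
  /-- `L(s, Π × Π~) = G(s) / (s - 1)^r`, `Ξ(s) = (s (s - 1))^r Q^s Γ_ℝ(s)^r ∏ Γ_ℝ(s + κ_j) L(s, Π × Π~)` -/
  continuation : ∃ (G Ξ : ℂ → ℂ) (Q : ℝ) (ω : ℂ), Differentiable ℂ G ∧ Differentiable ℂ Ξ ∧ 0 < Q ∧ ω ≠ 0 ∧
    (∀ s : ℂ, 1 < s.re → G s * ∏ p ∈ S, ∏ i, (1 - β p i * ((p : ℕ) : ℂ) ^ (-s)) =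
      (s - 1) ^ r * Complex.exp (logRS α s)) ∧
    (∀ a b : ℝ, ∃ C A : ℝ, ∀ s : ℂ, a ≤ s.re → s.re ≤ b → ‖G s‖ ≤ C * (1 + |s.im|) ^ A) ∧
    (∀ s : ℂ, 1 < s.re → Ξ s = s ^ r * G s * ((Q : ℂ) ^ s * Complex.Gammaℝ s ^ r *
      ∏ j, Complex.Gammaℝ (s + κ j))) ∧
    ∀ s : ℂ, Ξ (1 - s) = ω * Ξ s

variable {S : Finset Nat.Primes} {T : Type*} [Fintype T] {n r : T → ℕ}

/-- `∑_t |∑_i α_{t,i,p}^k|²` -/
noncomputable def WT (α : ∀ t, PS S → Fin (n t) → ℂ) (x : PS S × ℕ) : ℝ :=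
  ∑ t, ‖∑ i, α t x.1 i ^ (x.2 + 1)‖ ^ 2

theorem map_univ {ι : Type*} [Fintype ι] (g : ι → ℂ) :
    Multiset.map g Finset.univ.val = ∑ i, ({g i} : Multiset ℂ) := by
  have h := Multiset.sum_map_singleton (Multiset.map g Finset.univ.val)
  rw [Multiset.map_map] at h
  exact h.symm

theorem summ_c {n : ℕ} {α : PS S → Fin n → ℂ} (h : ∀ σ : ℝ, 1 < σ → Summable fun x : PS S × ℕ =>
    ‖∑ i, α x.1 i ^ (x.2 + 1)‖ ^ 2 / ((x.2 : ℝ) + 1) * (((x.1.1 : ℕ) : ℝ) ^ (-σ)) ^ (x.2 + 1)) {s : ℂ}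
    (hs : 1 < s.re) : Summable fun x : PS S × ℕ =>
      ((‖∑ i, α x.1 i ^ (x.2 + 1)‖ ^ 2 / ((x.2 : ℝ) + 1) : ℝ) : ℂ) * (((x.1.1 : ℕ) : ℂ) ^ (-s)) ^ (x.2 + 1) := by
  refine Summable.of_norm ((h s.re hs).congr fun x => ?_)
  rw [norm_mul, norm_pow, Complex.norm_natCast_cpow_of_pos x.1.1.2.pos, Complex.neg_re, Complex.norm_real,
    Real.norm_of_nonneg (by positivity)]

theorem lgD_WT {α : ∀ t, PS S → Fin (n t) → ℂ} (h : ∀ t, ∀ σ : ℝ, 1 < σ → Summable fun x : PS S × ℕ =>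
    ‖∑ i, α t x.1 i ^ (x.2 + 1)‖ ^ 2 / ((x.2 : ℝ) + 1) * (((x.1.1 : ℕ) : ℝ) ^ (-σ)) ^ (x.2 + 1)) {s : ℂ}
    (hs : 1 < s.re) : lgD (WT α) s = ∑ t, logRS (α t) s := by
  unfold lgD logRS
  rw [← Summable.tsum_finsetSum fun t _ => summ_c (h t) hs]
  refine tsum_congr fun x => ?_
  rw [← Finset.sum_mul]
  congr 1
  unfold WT
  rw [Finset.sum_div]
  push_cast
  rfl

theorem dat_fam {α : ∀ t, PS S → Fin (n t) → ℂ} {β : ∀ t, Nat.Primes → Fin (n t ^ 2) → ℂ}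
    {κ : ∀ t, Fin (n t ^ 2 - r t) → ℂ} (h : ∀ t, IsobaricRep (r t) S (α t) (β t) (κ t)) {M N : ℕ}
    (eM : Fin M ≃ Σ t, Fin (n t ^ 2)) (eN : Fin N ≃ Σ t, Fin (n t ^ 2 - r t)) :
    Dat (∑ t, r t) S (WT α) (fun p i => β (eM i).1 p (eM i).2) (fun j => κ (eN j).1 (eN j).2) := by
  refine ⟨fun x => Finset.sum_nonneg fun t _ => by positivity, ?_, fun σ hσ => ?_, ?_⟩
  · have e : ∀ f : ℂ → ℂ, Multiset.map (fun j => f (κ (eN j).1 (eN j).2)) Finset.univ.val =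
        ∑ t, Multiset.map (fun j => f (κ t j)) Finset.univ.val := by
      intro f
      rw [map_univ, eN.sum_comp (fun x : Σ t, Fin (n t ^ 2 - r t) => ({f (κ x.1 x.2)} : Multiset ℂ)),
        Fintype.sum_sigma]
      exact Finset.sum_congr rfl fun t _ => (map_univ _).symm
    have e1 := e (fun z => (starRingEnd ℂ) z)
    have e2 := e (fun z => z)
    rw [e1, e2]
    exact Finset.sum_congr rfl fun t _ => (h t).conj
  · refine (summable_sum (s := Finset.univ) fun t _ => (h t).summable σ hσ).congr fun x => ?_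
    unfold WT
    rw [Finset.sum_div, Finset.sum_mul]
  · choose G Ξ Q ω hG hΞ hQ hω hE hgr hid hfe using fun t => (h t).continuation
    refine ⟨fun s => ∏ t, G t s, fun s => ∏ t, Ξ t s, ∏ t, Q t, ∏ t, ω t,
      Differentiable.fun_finsetProd fun t _ => hG t, Differentiable.fun_finsetProd fun t _ => hΞ t,
      Finset.prod_pos fun t _ => hQ t, Finset.prod_ne_zero_iff.2 fun t _ => hω t, fun s hs => ?_, fun a b => ?_,
      fun s hs => ?_, fun s => ?_⟩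
    · have e1 : ∏ p ∈ S, ∏ i, (1 - β (eM i).1 p (eM i).2 * ((p : ℕ) : ℂ) ^ (-s)) =
          ∏ t, ∏ p ∈ S, ∏ i, (1 - β t p i * ((p : ℕ) : ℂ) ^ (-s)) := by
        symm
        rw [Finset.prod_comm]
        refine Finset.prod_congr rfl fun p _ => ?_
        rw [eM.prod_comp (fun x : Σ t, Fin (n t ^ 2) => (1 - β x.1 p x.2 * ((p : ℕ) : ℂ) ^ (-s))),
          Fintype.prod_sigma]
      rw [e1, ← Finset.prod_mul_distrib, lgD_WT (fun t => (h t).summable) hs, Complex.exp_sum,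
        ← Finset.prod_pow_eq_pow_sum, ← Finset.prod_mul_distrib]
      exact Finset.prod_congr rfl fun t _ => hE t s hs
    · choose C A hCA using fun t => hgr t a b
      refine ⟨∏ t, C t, ∑ t, A t, fun s h1 h2 => ?_⟩
      rw [norm_prod, Real.rpow_sum_of_pos (by positivity), ← Finset.prod_mul_distrib]
      exact Finset.prod_le_prod (fun t _ => norm_nonneg _) fun t _ => hCA t s h1 h2
    · have e1 : ((∏ t, Q t : ℝ) : ℂ) ^ s = ∏ t, ((Q t : ℂ) ^ s) := by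
        rw [Q_cpow (Finset.prod_pos fun t _ => hQ t), Real.log_prod fun t _ => (hQ t).ne', Complex.ofReal_sum,
          Finset.mul_sum, Complex.exp_sum]
        exact Finset.prod_congr rfl fun t _ => (Q_cpow (hQ t) s).symm
      have e2 : ∏ j : Fin N, Gammaℝ (s + κ (eN j).1 (eN j).2) = ∏ t, ∏ j, Gammaℝ (s + κ t j) := by
        rw [eN.prod_comp (fun x : Σ t, Fin (n t ^ 2 - r t) => Gammaℝ (s + κ x.1 x.2)), Fintype.prod_sigma]
      rw [e1, e2, ← Finset.prod_pow_eq_pow_sum, ← Finset.prod_pow_eq_pow_sum, ← Finset.prod_mul_distrib,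
        ← Finset.prod_mul_distrib, ← Finset.prod_mul_distrib, ← Finset.prod_mul_distrib]
      exact Finset.prod_congr rfl fun t _ => hid t s hs
    · rw [← Finset.prod_mul_distrib]
      exact Finset.prod_congr rfl fun t _ => hfe t s

/-- the local parameters of the family -/
noncomputable def BT {M : ℕ} (eM : Fin M ≃ Σ t, Fin (n t ^ 2)) (e : ∀ t, Fin (n t ^ 2) ≃ Fin (n t) × Fin (n t))
    (α : ∀ t, PS S → Fin (n t) → ℂ) (q : PS S) (i : Fin M) : ℂ :=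
  α (eM i).1 q (e _ (eM i).2).1 * (starRingEnd ℂ) (α (eM i).1 q (e _ (eM i).2).2)

theorem BT_euler {M : ℕ} (eM : Fin M ≃ Σ t, Fin (n t ^ 2)) (e : ∀ t, Fin (n t ^ 2) ≃ Fin (n t) × Fin (n t))
    {α : ∀ t, PS S → Fin (n t) → ℂ} (h : ∀ t, ∀ σ : ℝ, 1 < σ → Summable fun x : PS S × ℕ =>
      ‖∑ i, α t x.1 i ^ (x.2 + 1)‖ ^ 2 / ((x.2 : ℝ) + 1) * (((x.1.1 : ℕ) : ℝ) ^ (-σ)) ^ (x.2 + 1))
    (q : PS S) (s : ℂ) (hs : 1 < s.re) : (∏ i, (1 - BT eM e α q i * ((q.1 : ℕ) : ℂ) ^ (-s))) *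
      cexp (∑' k : ℕ, ((WT α (q, k) / ((k : ℝ) + 1) : ℝ) : ℂ) * (((q.1 : ℕ) : ℂ) ^ (-s)) ^ (k + 1)) = 1 := by
  have hb : ∀ t i, ‖α t q i‖ ^ 2 * ‖((q.1 : ℕ) : ℂ) ^ (-s)‖ < 1 := fun t i => norm_bd (h t) q i hs
  have e1 : ∏ i, (1 - BT eM e α q i * ((q.1 : ℕ) : ℂ) ^ (-s)) = ∏ t, ∏ x : Fin (n t) × Fin (n t),
      (1 - α t q x.1 * (starRingEnd ℂ) (α t q x.2) * ((q.1 : ℕ) : ℂ) ^ (-s)) := by
    unfold BT
    rw [eM.prod_comp (fun x : Σ t, Fin (n t ^ 2) => (1 - α x.1 q (e _ x.2).1 *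
      (starRingEnd ℂ) (α x.1 q (e _ x.2).2) * ((q.1 : ℕ) : ℂ) ^ (-s))), Fintype.prod_sigma]
    refine Finset.prod_congr rfl fun t _ => ?_
    exact (e t).prod_comp (fun x : Fin (n t) × Fin (n t) =>
      (1 - α t q x.1 * (starRingEnd ℂ) (α t q x.2) * ((q.1 : ℕ) : ℂ) ^ (-s)))
  have e2 : ∑' k : ℕ, ((WT α (q, k) / ((k : ℝ) + 1) : ℝ) : ℂ) * (((q.1 : ℕ) : ℂ) ^ (-s)) ^ (k + 1) =
      ∑ t, ∑' k : ℕ, ((‖∑ i, α t q i ^ (k + 1)‖ ^ 2 / ((k : ℝ) + 1) : ℝ) : ℂ) *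
        (((q.1 : ℕ) : ℂ) ^ (-s)) ^ (k + 1) := by
    rw [← Summable.tsum_finsetSum fun t _ => (euler_hasSum (α t q) (hb t)).summable]
    refine tsum_congr fun k => ?_
    rw [← Finset.sum_mul]
    congr 1
    unfold WT
    simp only
    rw [Finset.sum_div]
    push_cast
    rfl
  rw [e1, e2, Complex.exp_sum, ← Finset.prod_mul_distrib]
  refine Finset.prod_eq_one fun t _ => ?_
  rw [mul_comm]
  exact euler_exp (α t q) (hb t)

/-- The exponents: below `1/2`; below a real pole of a local factor of some `L(s, Π_t × Π_t~)`; below the real part of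
a zero or pole of `∏_t L(s, Π_t × Π_t~) / ζ(s)^{r_t}`. -/
def AdmT (r : T → ℕ) (S : Finset Nat.Primes) (α : ∀ t, PS S → Fin (n t) → ℂ)
    (β : ∀ t, Nat.Primes → Fin (n t ^ 2) → ℂ) (κ : ∀ t, Fin (n t ^ 2 - r t) → ℂ) (c : ℝ) : Prop :=
  c < 1 / 2 ∨
  (∃ (t : T) (p : PS S) (i : Fin (n t)), c < 2 * |Real.logb ((p.1 : ℕ) : ℝ) ‖α t p i‖|) ∨
  (∃ t : T, ∃ p ∈ S, ∃ (i : Fin (n t ^ 2)) (x : ℝ), β t p i = ((p : ℕ) : ℂ) ^ (x : ℂ) ∧ c < x) ∨
  (∃ (t : T) (j : Fin (n t ^ 2 - r t)) (x : ℝ), κ t j = -(x : ℂ) ∧ c < x) ∨ SingD (∑ t, r t) (WT α) c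

theorem fam_key [Nonempty T] {α : ∀ t, PS S → Fin (n t) → ℂ} {β : ∀ t, Nat.Primes → Fin (n t ^ 2) → ℂ}
    {κ : ∀ t, Fin (n t ^ 2 - r t) → ℂ} (h : ∀ t, IsobaricRep (r t) S (α t) (β t) (κ t))
    (hn : ∀ t, r t < n t ^ 2) {c lam : ℝ} (hc : AdmT r S α β κ c) (hlam : 0 < lam) :
    ∃ a : ℝ, c < a ∧ ∀ᶠ X : ℝ in atTop, X ^ a ≤ ∑' x : PS S × ℕ, (open Classical in
      if (1 - lam) * Real.log X ≤ LL x ∧ LL x ≤ Real.log X then
        max 0 (((∑ t, r t : ℕ) : ℝ) - WT α x) else 0) := by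
  classical
  obtain ⟨M, ⟨eM⟩⟩ : ∃ M : ℕ, Nonempty (Fin M ≃ Σ t, Fin (n t ^ 2)) := ⟨_, ⟨(Fintype.equivFin _).symm⟩⟩
  obtain ⟨N, ⟨eN⟩⟩ : ∃ N : ℕ, Nonempty (Fin N ≃ Σ t, Fin (n t ^ 2 - r t)) := ⟨_, ⟨(Fintype.equivFin _).symm⟩⟩
  have hN : 1 ≤ N := by
    obtain ⟨t⟩ := ‹Nonempty T›
    have h1 := hn t
    have h2 : 0 < N := by
      have h3 := (eN.symm ⟨t, ⟨0, by omega⟩⟩).pos
      exact h3
    exact h2
  obtain ⟨e⟩ : Nonempty (∀ t, Fin (n t ^ 2) ≃ Fin (n t) × Fin (n t)) :=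
    ⟨fun t => (finCongr (pow_two (n t))).trans finProdFinEquiv.symm⟩
  refine adm_key_r hN (dat_fam h eM eN) (BT eM e α) (BT_euler eM e fun t => (h t).summable) ?_ hlam
  by_cases hc2 : c < 1 / 2
  · exact Or.inl hc2
  have hc0 : 1 / 2 ≤ c := not_lt.1 hc2
  rcases hc with hc | ⟨t, q, i, hc⟩ | ⟨t, p, hp, i, x, hx, hc⟩ | ⟨t, j, x, hx, hc⟩ | hc
  · exact absurd hc hc2
  · refine Or.inr (Or.inl ?_)
    have hp1 : (1 : ℝ) < ((q.1 : ℕ) : ℝ) := by exact_mod_cast q.1.2.one_lt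
    have hp0 : (0 : ℝ) < ((q.1 : ℕ) : ℝ) := by linarith
    obtain ⟨i', θ, hθ, hi'⟩ : ∃ (i' : Fin (n t)) (θ : ℝ), c < 2 * θ ∧ ‖α t q i'‖ = ((q.1 : ℕ) : ℝ) ^ θ := by
      set u : ℝ := Real.logb ((q.1 : ℕ) : ℝ) ‖α t q i‖ with hu
      have h0 : 0 < ‖α t q i‖ := norm_pos_iff.2 ((h t).ne_zero q i)
      have h1 : ((q.1 : ℕ) : ℝ) ^ u = ‖α t q i‖ := Real.rpow_logb hp0 hp1.ne' h0
      rcases le_total 0 u with h2 | h2
      · rw [abs_of_nonneg h2] at hc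
        exact ⟨i, u, hc, h1.symm⟩
      · rw [abs_of_nonpos h2] at hc
        obtain ⟨τ, hτ⟩ := (h t).unitary q
        refine ⟨τ i, -u, hc, ?_⟩
        rw [hτ, norm_inv, RCLike.norm_conj, ← h1, Real.rpow_neg hp0.le]
    refine ⟨q, eM.symm ⟨t, (e t).symm (i', i')⟩, 2 * θ, ?_, hθ⟩
    unfold BT
    rw [Equiv.apply_symm_apply]
    simp only
    rw [Equiv.apply_symm_apply]
    simp only
    rw [Complex.mul_conj, Complex.normSq_eq_norm_sq, hi', ← Real.rpow_natCast, ← Real.rpow_mul hp0.le,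
      Complex.ofReal_cpow hp0.le]
    push_cast
    congr 1
    ring
  · refine Or.inr (Or.inr (Or.inl ⟨p, hp, eM.symm ⟨t, i⟩, x, ?_, hc⟩))
    show β (eM (eM.symm ⟨t, i⟩)).1 p (eM (eM.symm ⟨t, i⟩)).2 = _
    rw [Equiv.apply_symm_apply]
    exact hx
  · refine Or.inr (Or.inr (Or.inr (Or.inl ⟨eN.symm ⟨t, j⟩, x, ?_, hc⟩)))
    show κ (eN (eN.symm ⟨t, j⟩)).1 (eN (eN.symm ⟨t, j⟩)).2 = _
    rw [Equiv.apply_symm_apply]
    exact hx
  · exact Or.inr (Or.inr (Or.inr (Or.inr hc)))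

/-! ## Tempered parameters -/

/-- the parameters of a unitary representation of `GL_2` whose `k`-th power sum is less than `2` are of absolute value
`1` -/
theorem temp_gl2 {a : Fin 2 → ℂ} (h0 : ∀ i, a i ≠ 0)
    (hU : ∃ τ : Equiv.Perm (Fin 2), ∀ i, a (τ i) = ((starRingEnd ℂ) (a i))⁻¹) :
    (∀ i, ‖a i‖ = 1) ∨ ∃ x : ℝ, 0 < x ∧ a 0 / a 1 = x := by
  obtain ⟨τ, hτ⟩ := hU
  by_cases h1 : τ 0 = 0
  · left
    have h2 : τ 1 = 1 := by
      have h3 : τ 1 ≠ 0 := fun h => by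
        have := τ.injective (h.trans h1.symm)
        exact absurd this (by decide)
      omega
    have key : ∀ z : ℂ, z ≠ 0 → z = ((starRingEnd ℂ) z)⁻¹ → ‖z‖ = 1 := by
      intro z hz h
      have h3 : z * (starRingEnd ℂ) z = 1 := by
        have h4 : (starRingEnd ℂ) z ≠ 0 := by simpa using hz
        nth_rewrite 1 [h]
        exact inv_mul_cancel₀ h4
      rw [Complex.mul_conj, Complex.normSq_eq_norm_sq] at h3
      have h4 : ‖z‖ ^ 2 = 1 := by exact_mod_cast h3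
      exact (pow_eq_one_iff_of_nonneg (norm_nonneg _) (by norm_num)).1 h4
    intro i
    refine key (a i) (h0 i) ?_
    have h3 := hτ i
    fin_cases i
    · simpa [h1] using h3
    · simpa [h2] using h3
  · right
    have h2 : τ 0 = 1 := by omega
    have h3 := hτ 0
    rw [h2] at h3
    refine ⟨‖a 0‖ ^ 2, by have := norm_pos_iff.2 (h0 0); positivity, ?_⟩
    rw [h3, div_inv_eq_mul, Complex.mul_conj, Complex.normSq_eq_norm_sq]

/-- powers of a positive number with symmetric exponents -/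
theorem sym_ge {m : ℕ} {x : ℝ} (hx : 0 < x) {e : Fin m → ℤ} (σ : Equiv.Perm (Fin m)) (hσ : ∀ i, e (σ i) = -e i) :
    (m : ℝ) ≤ ∑ i, x ^ e i := by
  have h1 : ∑ i, x ^ e i = ∑ i, x ^ (-e i) := by
    rw [← Equiv.sum_comp σ (fun i => x ^ e i)]
    exact Finset.sum_congr rfl fun i _ => by simp only [hσ]
  have h2 : ∀ i, 2 ≤ x ^ e i + x ^ (-e i) := by
    intro i
    have h3 : 0 < x ^ e i := zpow_pos hx _
    rw [zpow_neg]
    have h4 := sq_nonneg (x ^ e i - 1)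
    have h5 : x ^ e i + (x ^ e i)⁻¹ = ((x ^ e i) ^ 2 + 1) / x ^ e i := by
      field_simp
    rw [h5, le_div_iff₀ h3]
    nlinarith
  have h3 : ∑ _i : Fin m, (2 : ℝ) ≤ ∑ i, (x ^ e i + x ^ (-e i)) := Finset.sum_le_sum fun i _ => h2 i
  rw [Finset.sum_add_distrib, ← h1, Finset.sum_const, Finset.card_univ, Fintype.card_fin, nsmul_eq_mul] at h3
  linarith

end Pool.Agent.H274.Iso
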