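import Mathlib
import Pool.Agent.H274.Iso3
import Pool.Agent.Y816.GL3T.Bal

/-! Excess and deficiency at every scale. -/

set_option autoImplicit false

open Complex MeasureTheory Set Filter Topology
open Pool.Agent.W189.TP (DS PS LL LL_nonneg)
open Pool.Agent.TH949.TX
open Pool.Agent.Y816.GL3T

namespace Pool.Agent.H274.Iso

section gen

variable {ι : Type*} {d L : ι → ℝ}

/-- the sum of the negative parts is bounded by `e^{bY}` and the sum of the positive parts -/
theorem upper [Countable ι] {ℓ : ℝ} (hℓ : 0 < ℓ) (hLℓ : ∀ i, ℓ ≤ L i)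
    (habs : ∀ t : ℝ, 1 < t → Summable fun i => |d i| * Real.exp (-(t * L i)))
    {F : ℂ → ℂ} (hF : MeromorphicOn F univ) (hE : ∀ s : ℂ, 1 < s.re → F s = cexp (DS d L s))
    {b : ℝ} (hb : ∀ ρ : ℂ, meromorphicOrderAt F ρ ≠ 0 → ρ.re ≤ b) (hb2 : 1 / 2 ≤ b) (hb1 : b ≤ 1)
    {ε : ℝ} (hε : 0 < ε) :
    ∀ᶠ Y : ℝ in atTop, SS (fun i => max 0 (-(d i))) L Y ≤
      Real.exp (ε * Y) * (Real.exp (b * Y) + SS (fun i => max 0 (d i)) L ((1 + ε) * Y)) := by
  classical
  wlog hε1 : ε ≤ 1 generalizing ε with H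
  · push Not at hε1
    have h1 := habs 2 (by norm_num)
    filter_upwards [H (ε := 1) one_pos le_rfl, eventually_ge_atTop 0] with Y hY hY0
    refine hY.trans (mul_le_mul (Real.exp_le_exp.2 (by nlinarith)) (add_le_add le_rfl ?_) ?_ (Real.exp_pos _).le)
    · exact SS_mono (fun i => le_max_left _ _) (fun i => max_le (abs_nonneg _) (le_abs_self _)) zero_le_two h1
        (by nlinarith)
    · exact add_nonneg (Real.exp_pos _).le (SS_nonneg (fun i => le_max_left _ _) _)
  have hL : ∀ i, 0 ≤ L i := fun i => hℓ.le.trans (hLℓ i)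
  have h1 := habs 2 (by norm_num)
  set P : ℝ → ℝ := fun Y => SS (fun i => max 0 (d i)) L Y with hP
  set N : ℝ → ℝ := fun Y => SS (fun i => max 0 (-(d i))) L Y with hN
  have hP0 : ∀ Y, 0 ≤ P Y := fun Y => SS_nonneg (fun i => le_max_left _ _) Y
  have hPm : Monotone P := fun Y Y' hYY => SS_mono (fun i => le_max_left _ _)
    (fun i => max_le (abs_nonneg _) (le_abs_self _)) zero_le_two h1 hYY
  have hNexp : ∀ t : ℝ, 1 < t → ∀ Y, N Y ≤ (∑' i, |d i| * Real.exp (-(t * L i))) * Real.exp (t * Y) :=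
    fun t ht Y => SS_le_exp (fun i => le_max_left _ _) (fun i => max_le (abs_nonneg _) (neg_le_abs _))
      (by linarith) (habs t ht) Y
  show ∀ᶠ Y : ℝ in atTop, N Y ≤ Real.exp (ε * Y) * (Real.exp (b * Y) + P ((1 + ε) * Y))
  rcases hb1.lt_or_eq with hb3 | hb3
  · -- `-d` and `1 / F`
    obtain ⟨d', hd'⟩ : ∃ d' : ι → ℝ, d' = fun i => -(d i) := ⟨_, rfl⟩
    have habs' : ∀ t : ℝ, 1 < t → Summable fun i => |d' i| * Real.exp (-(t * L i)) := fun t ht => by
      simpa only [hd', abs_neg] using habs t ht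
    have h1' := habs' 2 (by norm_num)
    have h2' := summ_dL hL habs' (t := 2) (by norm_num)
    have hF' : MeromorphicOn F⁻¹ univ := hF.inv
    have hE' : ∀ s : ℂ, 1 < s.re → F⁻¹ s = cexp (DS d' L s) := fun s hs => by
      have e1 : DS d' L s = -DS d L s := by
        unfold DS
        rw [← tsum_neg]
        refine tsum_congr fun i => ?_
        rw [hd']
        push_cast
        ring
      rw [Pi.inv_apply, hE s hs, e1, Complex.exp_neg]
    have hb' : ∀ ρ : ℂ, meromorphicOrderAt F⁻¹ ρ ≠ 0 → ρ.re ≤ b := fun ρ hρ => by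
      refine hb ρ fun h0 => hρ ?_
      rw [meromorphicOrderAt_inv, h0]
      rfl
    have hN' : ∀ Y, SS (fun i => max 0 (d' i)) L Y = N Y := fun Y => by rw [hN, hd']
    have hP' : ∀ Y, SS (fun i => max 0 (-(d' i))) L Y = P Y := fun Y => by
      rw [hP, hd']
      simp only [neg_neg]
    set e : ℝ := min (ε / 8) ((1 - b) / 2) with he
    have he0 : 0 < e := lt_min (by positivity) (by linarith)
    have he1 : e ≤ ε / 8 := min_le_left _ _
    have he2 : e ≤ (1 - b) / 2 := min_le_right _ _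
    set σ : ℝ := b + e with hσ
    have hσ1 : σ < 1 := by rw [hσ]; linarith
    set lam : ℝ := ε / 8 with hlam
    have hlam0 : 0 < lam := by rw [hlam]; positivity
    have hlam1 : lam ≤ 1 := by rw [hlam]; linarith
    set lam1 : ℝ := lam * ε / 40 with hl1
    have hl10 : 0 < lam1 := by rw [hl1]; positivity
    have hl11 : lam1 ≤ 1 / 2 := by
      rw [hl1]
      nlinarith
    have hst := step hℓ hLℓ habs' hF' hE' hb' hb2 (show b < σ by rw [hσ]; linarith) hσ1 hlam0 hlam1 hl10.le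
    have e64 : ∀ Y : ℝ, lam1 ^ 2 * Y / (4 * (lam ^ 2 / 100)) = ε ^ 2 / 64 * Y := by
      intro Y
      rw [hl1]
      field_simp
      ring
    set C : ℝ := ℓ⁻¹ * (4 * Real.pi * (lam ^ 2 / 100) + 1) * 2 with hC
    have hC0 : 0 ≤ C := by rw [hC]; positivity
    have hpoly := poly_exp C 2 (c := ε / 4) (by positivity)
    obtain ⟨N2, hN2⟩ : ∃ N2 : ℝ → ℝ, N2 = fun Z => Real.exp (b * (Z / (1 + ε))) + P Z := ⟨_, rfl⟩
    have hN20 : ∀ Z, 0 ≤ N2 Z := fun Z => by
      rw [hN2]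
      exact add_nonneg (Real.exp_pos _).le (hP0 _)
    have hN2m : Monotone N2 := fun Y Y' hYY => by
      rw [hN2]
      refine add_le_add (Real.exp_le_exp.2 (mul_le_mul_of_nonneg_left ?_ (by linarith))) (hPm hYY)
      gcongr
    have hN2e : ∀ Y, N2 ((1 + ε) * Y) = Real.exp (b * Y) + P ((1 + ε) * Y) := fun Y => by
      rw [hN2]
      simp only
      rw [mul_div_cancel_left₀ _ (by positivity)]
    have hone : ∀ᶠ Y : ℝ in atTop, N Y ≤ N ((1 - lam1) * Y) + Real.exp (ε / 2 * Y) * N2 ((1 + ε) * Y) := by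
      filter_upwards [hst, hpoly, eventually_ge_atTop 1] with Y a1 a3 a4
      have hY0 : 0 < Y := by linarith
      rw [e64, hN', hN'] at a1
      have w1 := WN_le hL zero_le_two h1' h2' hlam0.le hlam1 hY0 (c := σ) (by linarith) (by linarith)
      rw [hP'] at w1
      have w2 : P ((1 + lam) * Y) ≤ P ((1 + ε) * Y) := hPm (by rw [hlam]; nlinarith)
      have w3 := hP0 ((1 + lam) * Y)
      have s1 : Real.sqrt (4 * Real.pi * (lam ^ 2 / 100 * Y)) ≤ (4 * Real.pi * (lam ^ 2 / 100) + 1) * Y := by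
        rw [Real.sqrt_le_left (by positivity)]
        have hpi := Real.pi_pos
        have x0 : 0 ≤ 4 * Real.pi * (lam ^ 2 / 100) := by positivity
        set x := 4 * Real.pi * (lam ^ 2 / 100)
        have e1 : 4 * Real.pi * (lam ^ 2 / 100 * Y) = x * Y := by ring
        rw [e1]
        have x2 : x * Y ≤ (x + 1) * Y * 1 := by nlinarith
        have x3 : 1 ≤ (x + 1) * Y := by nlinarith
        calc x * Y ≤ (x + 1) * Y * 1 := x2
          _ ≤ (x + 1) * Y * ((x + 1) * Y) := mul_le_mul_of_nonneg_left x3 (by positivity)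
          _ = _ := by ring
      have hE1 : 0 < Real.exp (σ * Y + ε ^ 2 / 64 * Y) := Real.exp_pos _
      have y4 : ε ^ 2 ≤ ε := by nlinarith
      have s2 : Real.exp (σ * Y + ε ^ 2 / 64 * Y) * (2 + WN d' L lam σ Y) ≤
          2 * Y * Real.exp (ε / 4 * Y) * (Real.exp (b * Y) + P ((1 + lam) * Y)) := by
        have y1 : Real.exp (σ * Y + ε ^ 2 / 64 * Y) ≤ Real.exp (ε / 4 * Y) * Real.exp (b * Y) := by
          rw [← Real.exp_add]
          refine Real.exp_le_exp.2 ?_
          rw [hσ]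
          nlinarith
        have y2 : Real.exp (σ * Y + ε ^ 2 / 64 * Y) * Real.exp (-(σ * (1 - lam) * Y)) ≤ Real.exp (ε / 4 * Y) := by
          rw [← Real.exp_add]
          refine Real.exp_le_exp.2 ?_
          have y3 : σ + ε ^ 2 / 64 - σ * (1 - lam) ≤ ε / 4 := by
            have y5 : σ * lam ≤ 1 * lam := mul_le_mul_of_nonneg_right hσ1.le hlam0.le
            rw [hlam] at y5 ⊢
            nlinarith
          nlinarith
        have y6 : 0 < Real.exp (ε / 4 * Y) * Real.exp (b * Y) := by positivity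
        calc Real.exp (σ * Y + ε ^ 2 / 64 * Y) * (2 + WN d' L lam σ Y)
            ≤ Real.exp (σ * Y + ε ^ 2 / 64 * Y) *
              (2 + 2 * Y * Real.exp (-(σ * (1 - lam) * Y)) * P ((1 + lam) * Y)) :=
              mul_le_mul_of_nonneg_left (by linarith) hE1.le
          _ = 2 * Real.exp (σ * Y + ε ^ 2 / 64 * Y) + 2 * Y * P ((1 + lam) * Y) *
              (Real.exp (σ * Y + ε ^ 2 / 64 * Y) * Real.exp (-(σ * (1 - lam) * Y))) := by ring
          _ ≤ 2 * (Real.exp (ε / 4 * Y) * Real.exp (b * Y)) + 2 * Y * P ((1 + lam) * Y) * Real.exp (ε / 4 * Y) :=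
              add_le_add (mul_le_mul_of_nonneg_left y1 zero_le_two)
                (mul_le_mul_of_nonneg_left y2 (by positivity))
          _ ≤ 2 * Y * (Real.exp (ε / 4 * Y) * Real.exp (b * Y)) +
              2 * Y * P ((1 + lam) * Y) * Real.exp (ε / 4 * Y) := by
              refine add_le_add ?_ le_rfl
              nlinarith
          _ = _ := by ring
      have s4 : ℓ⁻¹ * Real.exp (σ * Y + ε ^ 2 / 64 * Y) * Real.sqrt (4 * Real.pi * (lam ^ 2 / 100 * Y)) *
          (2 + WN d' L lam σ Y) ≤ Real.exp (ε / 2 * Y) * N2 ((1 + ε) * Y) := by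
        rw [hN2e]
        have hQ : 0 ≤ Real.exp (b * Y) + P ((1 + lam) * Y) := add_nonneg (Real.exp_pos _).le w3
        calc _ = (ℓ⁻¹ * Real.sqrt (4 * Real.pi * (lam ^ 2 / 100 * Y))) *
              (Real.exp (σ * Y + ε ^ 2 / 64 * Y) * (2 + WN d' L lam σ Y)) := by ring
          _ ≤ (ℓ⁻¹ * Real.sqrt (4 * Real.pi * (lam ^ 2 / 100 * Y))) *
              (2 * Y * Real.exp (ε / 4 * Y) * (Real.exp (b * Y) + P ((1 + lam) * Y))) :=
              mul_le_mul_of_nonneg_left s2 (by positivity)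
          _ ≤ (ℓ⁻¹ * ((4 * Real.pi * (lam ^ 2 / 100) + 1) * Y)) *
              (2 * Y * Real.exp (ε / 4 * Y) * (Real.exp (b * Y) + P ((1 + lam) * Y))) :=
              mul_le_mul_of_nonneg_right (mul_le_mul_of_nonneg_left s1 (by positivity)) (by positivity)
          _ = C * Y ^ 2 * Real.exp (ε / 4 * Y) * (Real.exp (b * Y) + P ((1 + lam) * Y)) := by rw [hC]; ring
          _ ≤ Real.exp (ε / 4 * Y) * Real.exp (ε / 4 * Y) * (Real.exp (b * Y) + P ((1 + ε) * Y)) := by
              refine mul_le_mul (mul_le_mul_of_nonneg_right a3 (Real.exp_pos _).le)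
                (add_le_add le_rfl w2) hQ (by positivity)
          _ = _ := by
              rw [← Real.exp_add]
              congr 2
              ring
      linarith
    obtain ⟨J, hJ⟩ := exists_pow_lt_of_lt_one (show (0 : ℝ) < 1 / 16 by norm_num) (show 1 - lam1 < 1 by linarith)
    have hit := iterate hN2m hN20 (c := ε / 2) (ε := ε) (q := 1 - lam1) (by positivity) hε.le (by linarith)
      (by linarith) hone J
    set B : ℝ := ∑' i, |d i| * Real.exp (-(2 * L i)) with hB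
    have hB0 : 0 ≤ B := tsum_nonneg fun i => by positivity
    filter_upwards [hit, poly_exp (J + B) 0 (c := ε / 2) (by positivity), eventually_gt_atTop 0] with Y a1 a4 a5
    rw [pow_zero, mul_one] at a4
    have hJ0 : 0 ≤ (1 - lam1) ^ J := pow_nonneg (by linarith) J
    have q1 := hNexp 2 (by norm_num) ((1 - lam1) ^ J * Y)
    rw [← hB] at q1
    have q2 : Real.exp (2 * ((1 - lam1) ^ J * Y)) ≤ Real.exp (b * Y) := Real.exp_le_exp.2 (by nlinarith)
    have p1 : N ((1 - lam1) ^ J * Y) ≤ B * (Real.exp (ε / 2 * Y) * N2 ((1 + ε) * Y)) := by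
      refine q1.trans (mul_le_mul_of_nonneg_left (q2.trans ?_) hB0)
      rw [hN2e]
      have p2 : 1 ≤ Real.exp (ε / 2 * Y) := Real.one_le_exp (by positivity)
      have p3 := hP0 ((1 + ε) * Y)
      have p4 := Real.exp_pos (b * Y)
      nlinarith
    calc N Y ≤ N ((1 - lam1) ^ J * Y) + J * (Real.exp (ε / 2 * Y) * N2 ((1 + ε) * Y)) := a1
      _ ≤ (J + B) * (Real.exp (ε / 2 * Y) * N2 ((1 + ε) * Y)) := by linarith
      _ ≤ Real.exp (ε / 2 * Y) * (Real.exp (ε / 2 * Y) * N2 ((1 + ε) * Y)) :=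
          mul_le_mul_of_nonneg_right a4 (mul_nonneg (Real.exp_pos _).le (hN20 _))
      _ = Real.exp (ε * Y) * (Real.exp (b * Y) + P ((1 + ε) * Y)) := by
          rw [hN2e, ← mul_assoc, ← Real.exp_add]
          congr 2
          ring
  · set B : ℝ := ∑' i, |d i| * Real.exp (-((1 + ε / 2) * L i)) with hB
    filter_upwards [poly_exp B 0 (c := ε / 2) (by positivity), eventually_gt_atTop 0] with Y a2 a3
    rw [pow_zero, mul_one] at a2
    have q1 := hNexp (1 + ε / 2) (by linarith) Y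
    rw [← hB] at q1
    have p3 := hP0 ((1 + ε) * Y)
    rw [hb3]
    calc N Y ≤ B * Real.exp ((1 + ε / 2) * Y) := q1
      _ ≤ Real.exp (ε / 2 * Y) * Real.exp ((1 + ε / 2) * Y) := mul_le_mul_of_nonneg_right a2 (Real.exp_pos _).le
      _ = Real.exp (ε * Y) * Real.exp (1 * Y) := by
          rw [← Real.exp_add, ← Real.exp_add]
          congr 1
          ring
      _ ≤ _ := mul_le_mul_of_nonneg_left (by linarith) (Real.exp_pos _).le

/-- **Excess and deficiency.** -/
theorem law_gen [Countable ι] {ℓ : ℝ} (hℓ : 0 < ℓ) (hLℓ : ∀ i, ℓ ≤ L i)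
    (habs : ∀ t : ℝ, 1 < t → Summable fun i => |d i| * Real.exp (-(t * L i)))
    {F : ℂ → ℂ} (hF : MeromorphicOn F univ) (hE : ∀ s : ℂ, 1 < s.re → F s = cexp (DS d L s))
    (hreal : ∀ x : ℝ, 1 / 2 ≤ x → 0 ≤ meromorphicOrderAt F (x : ℂ))
    (hex : ∀ δ : ℝ, 0 < δ → ∃ ρ : ℂ, 1 / 2 - δ < ρ.re ∧ ρ.im ≠ 0 ∧ meromorphicOrderAt F ρ ≠ 0) :
    ∃ b : ℝ, 1 / 2 ≤ b ∧ b ≤ 1 ∧ (∀ c : ℝ, (∃ ρ : ℂ, c < ρ.re ∧ meromorphicOrderAt F ρ ≠ 0) ↔ c < b) ∧
    ∀ ε : ℝ, 0 < ε → ∀ᶠ Y : ℝ in atTop,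
      Real.exp ((b - ε) * Y) ≤ SS (fun i => max 0 (-(d i))) L Y ∧
      SS (fun i => max 0 (d i)) L Y ≤ Real.exp (ε * Y) * SS (fun i => max 0 (-(d i))) L ((1 + ε) * Y) ∧
      SS (fun i => max 0 (-(d i))) L Y ≤
        Real.exp (ε * Y) * (Real.exp (b * Y) + SS (fun i => max 0 (d i)) L ((1 + ε) * Y)) := by
  classical
  have hL : ∀ i, 0 ≤ L i := fun i => hℓ.le.trans (hLℓ i)
  have h1 := habs 2 (by norm_num)
  set S : Set ℝ := {x | ∃ ρ : ℂ, ρ.re = x ∧ meromorphicOrderAt F ρ ≠ 0} with hS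
  have hle1 : ∀ ρ : ℂ, meromorphicOrderAt F ρ ≠ 0 → ρ.re ≤ 1 := by
    intro ρ hρ
    obtain ⟨Z, m, h, hZ1, hZ2, -, -⟩ := t_extract hL habs hF hE (c := min ρ.re 0) (H := |ρ.im| + 1)
      (lt_of_le_of_lt (min_le_right _ _) (by norm_num)) (by positivity)
    exact (hZ1 ρ (hZ2 ρ (min_le_left _ _) (by linarith) hρ)).2.1
  have hSb : BddAbove S := by
    refine ⟨1, ?_⟩
    rintro x ⟨ρ, rfl, h⟩
    exact hle1 ρ h
  have hSn : S.Nonempty := by
    obtain ⟨ρ, -, -, h4⟩ := hex 1 one_pos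
    exact ⟨ρ.re, ρ, rfl, h4⟩
  set b : ℝ := sSup S with hb
  have hb1 : b ≤ 1 := csSup_le hSn (by rintro x ⟨ρ, rfl, h⟩; exact hle1 ρ h)
  have hb2 : 1 / 2 ≤ b := by
    by_contra hcon
    push Not at hcon
    obtain ⟨ρ, h3, h4, h5⟩ := hex (1 / 2 - b) (by linarith)
    have : ρ.re ≤ b := le_csSup hSb ⟨ρ, rfl, h5⟩
    linarith
  have hbρ : ∀ ρ : ℂ, meromorphicOrderAt F ρ ≠ 0 → ρ.re ≤ b := fun ρ hρ => le_csSup hSb ⟨ρ, rfl, hρ⟩
  have hlow : ∀ a : ℝ, a < b → ∃ ρ : ℂ, a < ρ.re ∧ meromorphicOrderAt F ρ ≠ 0 := by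
    intro a ha
    obtain ⟨x, ⟨ρ, rfl, h4⟩, h5⟩ := exists_lt_of_lt_csSup hSn (hb ▸ ha)
    exact ⟨ρ, h5, h4⟩
  refine ⟨b, hb2, hb1, fun c => ⟨fun ⟨ρ, h3, h4⟩ => h3.trans_le (hbρ ρ h4), hlow c⟩, fun ε hε => ?_⟩
  obtain ⟨lam, hlam, hlam1, hlamε⟩ : ∃ lam : ℝ, 0 < lam ∧ lam ≤ 1 / 4 ∧ lam ≤ ε / 8 :=
    ⟨min (1 / 4) (ε / 8), lt_min (by norm_num) (by positivity), min_le_left _ _, min_le_right _ _⟩
  have hng := neg_large hL habs hF hE hreal hex (a := b - lam) (by linarith) (by linarith)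
    (hlow (b - lam) (by linarith)) hlam (by linarith)
  have hng' := (tendsto_id.const_mul_atTop (show 0 < (1 + lam)⁻¹ by positivity)).eventually hng
  filter_upwards [hng', poly_exp 32 1 (c := ε / 8) (by positivity),
    balance hℓ hLℓ habs hF hE hreal hex hε, upper hℓ hLℓ habs hF hE hbρ hb2 hb1 hε,
    eventually_gt_atTop 0] with Y a1 a2 a3 a4 a5
  refine ⟨?_, a3, a4⟩
  rw [pow_one] at a2
  have hZ : (1 + lam) * ((1 + lam)⁻¹ * id Y) = Y := by
    rw [← mul_assoc, mul_inv_cancel₀ (by positivity), one_mul]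
    rfl
  rw [hZ] at a1
  set N := SS (fun i => max 0 (-(d i))) L Y with hN
  have hN0 : 0 ≤ N := SS_nonneg (fun i => le_max_left _ _) _
  have hinv : 1 - lam ≤ (1 + lam)⁻¹ := by
    rw [le_inv_comm₀ (by linarith) (by positivity), inv_eq_one_div, le_div_iff₀ (by linarith)]
    nlinarith
  have hinv1 : (1 + lam)⁻¹ ≤ 1 := inv_le_one_of_one_le₀ (by linarith)
  have h3 : Real.exp ((b - ε / 2) * Y) ≤ Real.exp ((b - lam) * (1 - lam) * ((1 + lam)⁻¹ * id Y)) := by
    refine Real.exp_le_exp.2 ?_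
    have h4 : (b - lam) * (1 - lam) * (1 - lam) ≤ (b - lam) * (1 - lam) * (1 + lam)⁻¹ :=
      mul_le_mul_of_nonneg_left hinv (mul_nonneg (by linarith) (by linarith))
    have h5 : b - ε / 2 ≤ (b - lam) * (1 - lam) * (1 - lam) := by
      have g1 : 1 - 2 * lam ≤ (1 - lam) * (1 - lam) := by nlinarith [sq_nonneg lam]
      have g2 : (b - lam) * (1 - 2 * lam) ≤ (b - lam) * ((1 - lam) * (1 - lam)) :=
        mul_le_mul_of_nonneg_left g1 (by linarith)
      have g3 : lam * b ≤ lam * 1 := mul_le_mul_of_nonneg_left hb1 hlam.le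
      have g4 : 0 ≤ lam * lam := mul_self_nonneg lam
      have g5 : (b - lam) * (1 - 2 * lam) = b - lam - 2 * (lam * b) + 2 * (lam * lam) := by ring
      have g6 : (b - lam) * ((1 - lam) * (1 - lam)) = (b - lam) * (1 - lam) * (1 - lam) := by ring
      linarith
    have h6 : (b - lam) * (1 - lam) * ((1 + lam)⁻¹ * id Y) = (b - lam) * (1 - lam) * (1 + lam)⁻¹ * Y := by
      rw [id]
      ring
    rw [h6]
    exact mul_le_mul_of_nonneg_right (h5.trans h4) a5.le
  have h4 : 32 * ((1 + lam)⁻¹ * id Y) * N ≤ Real.exp (ε / 8 * Y) * N := by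
    refine mul_le_mul_of_nonneg_right (le_trans ?_ a2) hN0
    rw [id]
    nlinarith
  have h5 : Real.exp ((b - ε / 2) * Y) ≤ Real.exp (ε / 8 * Y) * N := h3.trans (a1.trans h4)
  have h6 : Real.exp ((b - ε) * Y) ≤ Real.exp (-(ε / 8 * Y)) * Real.exp ((b - ε / 2) * Y) := by
    rw [← Real.exp_add]
    refine Real.exp_le_exp.2 ?_
    nlinarith
  calc Real.exp ((b - ε) * Y) ≤ Real.exp (-(ε / 8 * Y)) * Real.exp ((b - ε / 2) * Y) := h6
    _ ≤ Real.exp (-(ε / 8 * Y)) * (Real.exp (ε / 8 * Y) * N) := mul_le_mul_of_nonneg_left h5 (Real.exp_pos _).le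
    _ = N := by
        rw [← mul_assoc, ← Real.exp_add]
        simp

theorem SS_scale {w w' : ι → ℝ} {C Y : ℝ} (hfin : {i | L i ≤ Y}.Finite) (h : ∀ i, L i ≤ Y → w' i ≤ C * w i) :
    SS w' L Y ≤ C * SS w L Y := by
  classical
  unfold SS
  rw [← tsum_mul_left]
  refine Summable.tsum_le_tsum (fun i => ?_) ?_ ?_
  · by_cases hi : L i ≤ Y
    · rw [if_pos hi, if_pos hi]
      exact h i hi
    · rw [if_neg hi, if_neg hi, mul_zero]
  · refine summable_of_hasFiniteSupport (hfin.subset fun i hi => ?_)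
    by_contra h4
    exact hi (if_neg h4)
  · refine summable_of_hasFiniteSupport (hfin.subset fun i hi => ?_)
    by_contra h4
    refine hi ?_
    have h5 : ¬ L i ≤ Y := h4
    simp only
    rw [if_neg h5, mul_zero]

end gen

variable {S : Finset Nat.Primes}

/-- the excess `∑_{q ≤ e^Y} max(0, W(q) - r)` -/
noncomputable def ExcY (r : ℕ) (W : PS S × ℕ → ℝ) (Y : ℝ) : ℝ := SS (fun x => max 0 (W x - r)) LL Y

/-- the deficiency `∑_{q ≤ e^Y} max(0, r - W(q))` -/
noncomputable def DefY (r : ℕ) (W : PS S × ℕ → ℝ) (Y : ℝ) : ℝ := SS (fun x => max 0 (r - W x)) LL Y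

theorem two_le_LL (x : PS S × ℕ) : Real.log 2 ≤ LL x := by
  have h1 : Real.log 2 ≤ Real.log ((x.1.1 : ℕ) : ℝ) :=
    Real.log_le_log (by norm_num) (by exact_mod_cast x.1.1.2.two_le)
  have h2 : 0 < Real.log 2 := Real.log_pos (by norm_num)
  have h3 : (0 : ℝ) ≤ x.2 := Nat.cast_nonneg _
  unfold LL
  nlinarith

theorem k_le_LL (x : PS S × ℕ) : (x.2 : ℝ) + 1 ≤ LL x / Real.log 2 := by
  have h1 : Real.log 2 ≤ Real.log ((x.1.1 : ℕ) : ℝ) :=
    Real.log_le_log (by norm_num) (by exact_mod_cast x.1.1.2.two_le)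
  have h2 : 0 < Real.log 2 := Real.log_pos (by norm_num)
  have h3 : (0 : ℝ) ≤ x.2 := Nat.cast_nonneg _
  rw [le_div_iff₀ h2]
  unfold LL
  nlinarith

theorem pos_part (r : ℕ) (W : PS S × ℕ → ℝ) (x : PS S × ℕ) :
    max 0 (dr r W x) = max 0 (W x - r) / ((x.2 : ℝ) + 1) := by
  have hx : (0 : ℝ) < (x.2 : ℝ) + 1 := by positivity
  unfold dr
  rw [← max_div_div_right hx.le, zero_div]

theorem neg_part (r : ℕ) (W : PS S × ℕ → ℝ) (x : PS S × ℕ) :
    max 0 (-(dr r W x)) = max 0 (r - W x) / ((x.2 : ℝ) + 1) := by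
  have hx : (0 : ℝ) < (x.2 : ℝ) + 1 := by positivity
  unfold dr
  rw [← neg_div, neg_sub, ← max_div_div_right hx.le, zero_div]

theorem law {r M N : ℕ} (hN : 1 ≤ N) {W : PS S × ℕ → ℝ} {β : Nat.Primes → Fin M → ℂ}
    {κ : Fin N → ℂ} (h : Dat r S W β κ) :
    ∃ b : ℝ, 1 / 2 ≤ b ∧ b ≤ 1 ∧ (∀ c : ℝ, SingD r W c ↔ c < b) ∧
    ∀ ε : ℝ, 0 < ε → ∀ᶠ Y : ℝ in atTop,
      Real.exp ((b - ε) * Y) ≤ DefY r W Y ∧
      ExcY r W Y ≤ Real.exp (ε * Y) * DefY r W ((1 + ε) * Y) ∧
      DefY r W Y ≤ Real.exp (ε * Y) * (Real.exp (b * Y) + ExcY r W ((1 + ε) * Y)) := by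
  classical
  obtain ⟨F0, hF0, hE, hreal, hex⟩ := core hN h
  have hsd : ∀ t : ℝ, 1 < t → Summable fun x : PS S × ℕ => |dr r W x| * Real.exp (-(t * LL x)) :=
    fun t ht => summable_dr h.nonneg h.summable ht
  have hlog2 : 0 < Real.log 2 := Real.log_pos (by norm_num)
  obtain ⟨b, hb2, hb1, hbS, hlaw⟩ := law_gen hlog2 two_le_LL hsd hF0 hE hreal hex
  refine ⟨b, hb2, hb1, fun c => ?_, fun ε hε => ?_⟩
  · rw [← hbS c]
    constructor
    · rintro ⟨F, ρ, hF, hFE, h3, h5⟩
      refine ⟨ρ, h3, ?_⟩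
      rw [← order_eq hF hF0 (fun s hs => ?_) ρ]
      · exact h5
      · have h6 := hFE s hs
        have h7 := exp_dr (r := r) h.nonneg h.summable hs
        have hb : Pool.Agent.W189.TP.bad S (fun _ (_ : Fin 1) => 1) s = ∏ p ∈ S, (1 - ((p : ℕ) : ℂ) ^ (-s)) := by
          unfold Pool.Agent.W189.TP.bad
          simp
        rw [hb, ← h6] at h7
        have h8 : (riemannZeta s * ∏ p ∈ S, (1 - ((p : ℕ) : ℂ) ^ (-s))) ^ r ≠ 0 := by
          refine pow_ne_zero r (mul_ne_zero (riemannZeta_ne_zero_of_one_le_re hs.le) ?_)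
          rw [← hb]
          exact norm_pos_iff.1 (bad1_pos (by linarith))
        rw [hE s hs]
        exact (mul_right_cancel₀ h8 h7).symm
    · rintro ⟨ρ, h3, h5⟩
      refine ⟨F0, ρ, hF0, fun s hs => ?_, h3, h5⟩
      rw [hE s hs, ← exp_dr (r := r) h.nonneg h.summable hs]
      unfold Pool.Agent.W189.TP.bad
      simp
  · -- comparison of the weights
    have hPle : ∀ Y, SS (fun x => max 0 (dr r W x)) LL Y ≤ 1 * ExcY r W Y := fun Y => by
      refine SS_scale (LL_fin Y) fun x _ => ?_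
      rw [pos_part, one_mul]
      exact div_le_self (le_max_left _ _) (by have : (0 : ℝ) ≤ x.2 := Nat.cast_nonneg _; linarith)
    have hNle : ∀ Y, SS (fun x => max 0 (-(dr r W x))) LL Y ≤ 1 * DefY r W Y := fun Y => by
      refine SS_scale (LL_fin Y) fun x _ => ?_
      rw [neg_part, one_mul]
      exact div_le_self (le_max_left _ _) (by have : (0 : ℝ) ≤ x.2 := Nat.cast_nonneg _; linarith)
    have hPge : ∀ Y, ExcY r W Y ≤ (Y / Real.log 2) * SS (fun x => max 0 (dr r W x)) LL Y := fun Y => by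
      refine SS_scale (LL_fin Y) fun x hx => ?_
      have hx0 : (0 : ℝ) < (x.2 : ℝ) + 1 := by positivity
      have h1 : (x.2 : ℝ) + 1 ≤ Y / Real.log 2 := (k_le_LL x).trans (by gcongr)
      have h2 : 0 ≤ max 0 (dr r W x) := le_max_left _ _
      have h3 : max 0 (W x - r) = ((x.2 : ℝ) + 1) * max 0 (dr r W x) := by
        rw [pos_part]
        field_simp
      rw [h3]
      exact mul_le_mul_of_nonneg_right h1 h2
    have hNge : ∀ Y, DefY r W Y ≤ (Y / Real.log 2) * SS (fun x => max 0 (-(dr r W x))) LL Y := fun Y => by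
      refine SS_scale (LL_fin Y) fun x hx => ?_
      have hx0 : (0 : ℝ) < (x.2 : ℝ) + 1 := by positivity
      have h1 : (x.2 : ℝ) + 1 ≤ Y / Real.log 2 := (k_le_LL x).trans (by gcongr)
      have h2 : 0 ≤ max 0 (-(dr r W x)) := le_max_left _ _
      have h3 : max 0 (r - W x) = ((x.2 : ℝ) + 1) * max 0 (-(dr r W x)) := by
        rw [neg_part]
        field_simp
      rw [h3]
      exact mul_le_mul_of_nonneg_right h1 h2
    have h1 := hsd 2 (by norm_num)
    have hDm : ∀ Y Y' : ℝ, Y ≤ Y' → DefY r W Y ≤ DefY r W Y' := fun Y Y' hYY => by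
      unfold DefY SS
      refine Summable.tsum_le_tsum (fun x => ?_) ?_ ?_
      · split_ifs with h h'
        · exact le_rfl
        · exact absurd (h.trans hYY) h'
        · exact le_max_left _ _
        · exact le_rfl
      · refine summable_of_hasFiniteSupport ((LL_fin Y).subset fun i hi => ?_)
        by_contra h4
        exact hi (if_neg h4)
      · refine summable_of_hasFiniteSupport ((LL_fin Y').subset fun i hi => ?_)
        by_contra h4
        exact hi (if_neg h4)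
    have hEm : ∀ Y Y' : ℝ, Y ≤ Y' → ExcY r W Y ≤ ExcY r W Y' := fun Y Y' hYY => by
      unfold ExcY SS
      refine Summable.tsum_le_tsum (fun x => ?_) ?_ ?_
      · split_ifs with h h'
        · exact le_rfl
        · exact absurd (h.trans hYY) h'
        · exact le_max_left _ _
        · exact le_rfl
      · refine summable_of_hasFiniteSupport ((LL_fin Y).subset fun i hi => ?_)
        by_contra h4
        exact hi (if_neg h4)
      · refine summable_of_hasFiniteSupport ((LL_fin Y').subset fun i hi => ?_)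
        by_contra h4
        exact hi (if_neg h4)
    filter_upwards [hlaw ε hε, hlaw (ε / 2) (by positivity),
      poly_exp ((Real.log 2)⁻¹) 1 (c := ε / 2) (by positivity), eventually_gt_atTop 0] with Y a1 a2 a3 a4
    obtain ⟨b1, -, -⟩ := a1
    obtain ⟨-, b2, b3⟩ := a2
    rw [pow_one] at a3
    have hYl : Y / Real.log 2 ≤ Real.exp (ε / 2 * Y) := by
      rw [div_eq_inv_mul]
      exact a3
    have hYl0 : 0 ≤ Y / Real.log 2 := by positivity
    have hmono : (1 + ε / 2) * Y ≤ (1 + ε) * Y := by nlinarith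
    have hD0 : 0 ≤ DefY r W ((1 + ε) * Y) := SS_nonneg (fun i => le_max_left _ _) _
    have hE0 : 0 ≤ ExcY r W ((1 + ε) * Y) := SS_nonneg (fun i => le_max_left _ _) _
    refine ⟨b1.trans ((hNle Y).trans (one_mul _).le), ?_, ?_⟩
    · calc ExcY r W Y ≤ (Y / Real.log 2) * SS (fun x => max 0 (dr r W x)) LL Y := hPge Y
        _ ≤ (Y / Real.log 2) * (Real.exp (ε / 2 * Y) * SS (fun x => max 0 (-(dr r W x))) LL ((1 + ε / 2) * Y)) :=
            mul_le_mul_of_nonneg_left b2 hYl0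
        _ ≤ (Y / Real.log 2) * (Real.exp (ε / 2 * Y) * DefY r W ((1 + ε) * Y)) := by
            refine mul_le_mul_of_nonneg_left (mul_le_mul_of_nonneg_left ?_ (Real.exp_pos _).le) hYl0
            exact (hNle _).trans ((one_mul _).le.trans (hDm _ _ hmono))
        _ ≤ Real.exp (ε / 2 * Y) * (Real.exp (ε / 2 * Y) * DefY r W ((1 + ε) * Y)) :=
            mul_le_mul_of_nonneg_right hYl (mul_nonneg (Real.exp_pos _).le hD0)
        _ = _ := by
            rw [← mul_assoc, ← Real.exp_add]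
            congr 2
            ring
    · calc DefY r W Y ≤ (Y / Real.log 2) * SS (fun x => max 0 (-(dr r W x))) LL Y := hNge Y
        _ ≤ (Y / Real.log 2) * (Real.exp (ε / 2 * Y) *
              (Real.exp (b * Y) + SS (fun x => max 0 (dr r W x)) LL ((1 + ε / 2) * Y))) :=
            mul_le_mul_of_nonneg_left b3 hYl0
        _ ≤ (Y / Real.log 2) * (Real.exp (ε / 2 * Y) * (Real.exp (b * Y) + ExcY r W ((1 + ε) * Y))) := by
            refine mul_le_mul_of_nonneg_left (mul_le_mul_of_nonneg_left (add_le_add le_rfl ?_)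
              (Real.exp_pos _).le) hYl0
            exact (hPle _).trans ((one_mul _).le.trans (hEm _ _ hmono))
        _ ≤ Real.exp (ε / 2 * Y) * (Real.exp (ε / 2 * Y) * (Real.exp (b * Y) + ExcY r W ((1 + ε) * Y))) :=
            mul_le_mul_of_nonneg_right hYl (mul_nonneg (Real.exp_pos _).le
              (add_nonneg (Real.exp_pos _).le hE0))
        _ = _ := by
            rw [← mul_assoc, ← Real.exp_add]
            congr 2
            ring

end Pool.Agent.H274.Iso
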