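import Mathlib
import Pool.Agent.H274.Iso4
import Pool.Agent.Y816.GL3T.Main

/-! Excess and deficiency at every scale for `GL_3` over a number field. -/

set_option autoImplicit false

open Complex MeasureTheory Set Filter Topology NumberField IsDedekindDomain
open Pool.Agent.W189.TP (DS)
open Pool.Agent.TH861.GL3
open Pool.Agent.TH949.TX
open Pool.Agent.Y816.GL3T

namespace Pool.Agent.H274.GL3Law

variable {K : Type*} [Field K] [NumberField K] {S : Finset (HeightOneSpectrum (𝓞 K))}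

/-- the excess `∑_{(N v)^k ≤ e^Y} max(0, |tr|² - 1)` -/
noncomputable def ExcY (α : PL S → Fin 3 → ℂ) (Y : ℝ) : ℝ :=
  SS (fun x => max 0 (‖∑ i, α x.1 i ^ (x.2 + 1)‖ ^ 2 - 1)) LL Y

/-- the deficiency `∑_{(N v)^k ≤ e^Y} max(0, 1 - |tr|²)` -/
noncomputable def DefY (α : PL S → Fin 3 → ℂ) (Y : ℝ) : ℝ :=
  SS (fun x => max 0 (1 - ‖∑ i, α x.1 i ^ (x.2 + 1)‖ ^ 2)) LL Y

theorem pos_part (α : PL S → Fin 3 → ℂ) (x : PL S × ℕ) :
    max 0 (dd α x) = max 0 (‖∑ i, α x.1 i ^ (x.2 + 1)‖ ^ 2 - 1) / ((x.2 : ℝ) + 1) := by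
  have hx : (0 : ℝ) < (x.2 : ℝ) + 1 := by positivity
  unfold dd
  rw [← max_div_div_right hx.le, zero_div]

theorem neg_part (α : PL S → Fin 3 → ℂ) (x : PL S × ℕ) :
    max 0 (-(dd α x)) = max 0 (1 - ‖∑ i, α x.1 i ^ (x.2 + 1)‖ ^ 2) / ((x.2 : ℝ) + 1) := by
  have hx : (0 : ℝ) < (x.2 : ℝ) + 1 := by positivity
  unfold dd
  rw [← neg_div, neg_sub, ← max_div_div_right hx.le, zero_div]

theorem k_le_LL (x : PL S × ℕ) : (x.2 : ℝ) + 1 ≤ LL x / Real.log 2 := by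
  have h1 : Real.log 2 ≤ Real.log (qq x.1.1 : ℝ) :=
    Real.log_le_log (by norm_num) (by exact_mod_cast two_le_qq x.1.1)
  have h2 : 0 < Real.log 2 := Real.log_pos (by norm_num)
  have h3 : (0 : ℝ) ≤ x.2 := Nat.cast_nonneg _
  rw [le_div_iff₀ h2]
  unfold LL
  nlinarith

theorem SS_mono' {ι : Type*} {w L : ι → ℝ} (hw : ∀ i, 0 ≤ w i) (hf : ∀ b, {i | L i ≤ b}.Finite) {Y Y' : ℝ}
    (hYY : Y ≤ Y') : SS w L Y ≤ SS w L Y' := by
  classical
  unfold SS
  refine Summable.tsum_le_tsum (fun x => ?_) ?_ ?_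
  · split_ifs with h h'
    · exact le_rfl
    · exact absurd (h.trans hYY) h'
    · exact hw x
    · exact le_rfl
  · refine summable_of_hasFiniteSupport ((hf Y).subset fun i hi => ?_)
    by_contra h4
    exact hi (if_neg h4)
  · refine summable_of_hasFiniteSupport ((hf Y').subset fun i hi => ?_)
    by_contra h4
    exact hi (if_neg h4)

theorem law3 {α : PL S → Fin 3 → ℂ} (h : AdjointGL3 α) :
    ∃ (F : ℂ → ℂ) (b : ℝ), MeromorphicOn F univ ∧ (∀ s : ℂ, 1 < s.re → F s = cexp (logAd α s)) ∧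
    1 / 2 ≤ b ∧ b ≤ 1 ∧ (∀ c : ℝ, (∃ ρ : ℂ, c < ρ.re ∧ meromorphicOrderAt F ρ ≠ 0) ↔ c < b) ∧
    ∀ ε : ℝ, 0 < ε → ∀ᶠ Y : ℝ in atTop,
      Real.exp ((b - ε) * Y) ≤ DefY α Y ∧
      ExcY α Y ≤ Real.exp (ε * Y) * DefY α ((1 + ε) * Y) ∧
      DefY α Y ≤ Real.exp (ε * Y) * (Real.exp (b * Y) + ExcY α ((1 + ε) * Y)) := by
  classical
  have := countable_primes K
  obtain ⟨F, hF, hE, hreal, hex⟩ := gl3_core h
  have hlog2 : 0 < Real.log 2 := Real.log_pos (by norm_num)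
  have hcusp := h.auto.cuspidal
  have hsd : ∀ t : ℝ, 1 < t → Summable fun x : PL S × ℕ => |dd α x| * Real.exp (-(t * LL x)) :=
    fun t ht => summable_abs hcusp ht
  obtain ⟨b, hb2, hb1, hbS, hlaw⟩ := Pool.Agent.H274.Iso.law_gen hlog2 Pool.Agent.TH949.RES.log_two_le hsd
    hF hE hreal hex
  refine ⟨F, b, hF, fun s hs => by rw [hE s hs, logAd_eq], hb2, hb1, hbS, fun ε hε => ?_⟩
  have hPle : ∀ Y, SS (fun x => max 0 (dd α x)) LL Y ≤ 1 * ExcY α Y := fun Y => by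
    refine Pool.Agent.H274.Iso.SS_scale (LL_fin3 Y) fun x _ => ?_
    rw [pos_part, one_mul]
    exact div_le_self (le_max_left _ _) (by have : (0 : ℝ) ≤ x.2 := Nat.cast_nonneg _; linarith)
  have hNle : ∀ Y, SS (fun x => max 0 (-(dd α x))) LL Y ≤ 1 * DefY α Y := fun Y => by
    refine Pool.Agent.H274.Iso.SS_scale (LL_fin3 Y) fun x _ => ?_
    rw [neg_part, one_mul]
    exact div_le_self (le_max_left _ _) (by have : (0 : ℝ) ≤ x.2 := Nat.cast_nonneg _; linarith)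
  have hPge : ∀ Y, ExcY α Y ≤ (Y / Real.log 2) * SS (fun x => max 0 (dd α x)) LL Y := fun Y => by
    refine Pool.Agent.H274.Iso.SS_scale (LL_fin3 Y) fun x hx => ?_
    have hx0 : (0 : ℝ) < (x.2 : ℝ) + 1 := by positivity
    have h1 : (x.2 : ℝ) + 1 ≤ Y / Real.log 2 := (k_le_LL x).trans (by gcongr)
    have h2 : 0 ≤ max 0 (dd α x) := le_max_left _ _
    have h3 : max 0 (‖∑ i, α x.1 i ^ (x.2 + 1)‖ ^ 2 - 1) = ((x.2 : ℝ) + 1) * max 0 (dd α x) := by
      rw [pos_part]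
      field_simp
    rw [h3]
    exact mul_le_mul_of_nonneg_right h1 h2
  have hNge : ∀ Y, DefY α Y ≤ (Y / Real.log 2) * SS (fun x => max 0 (-(dd α x))) LL Y := fun Y => by
    refine Pool.Agent.H274.Iso.SS_scale (LL_fin3 Y) fun x hx => ?_
    have hx0 : (0 : ℝ) < (x.2 : ℝ) + 1 := by positivity
    have h1 : (x.2 : ℝ) + 1 ≤ Y / Real.log 2 := (k_le_LL x).trans (by gcongr)
    have h2 : 0 ≤ max 0 (-(dd α x)) := le_max_left _ _
    have h3 : max 0 (1 - ‖∑ i, α x.1 i ^ (x.2 + 1)‖ ^ 2) = ((x.2 : ℝ) + 1) * max 0 (-(dd α x)) := by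
      rw [neg_part]
      field_simp
    rw [h3]
    exact mul_le_mul_of_nonneg_right h1 h2
  have hDm : ∀ Y Y' : ℝ, Y ≤ Y' → DefY α Y ≤ DefY α Y' := fun Y Y' hYY =>
    SS_mono' (fun x => le_max_left _ _) LL_fin3 hYY
  have hEm : ∀ Y Y' : ℝ, Y ≤ Y' → ExcY α Y ≤ ExcY α Y' := fun Y Y' hYY =>
    SS_mono' (fun x => le_max_left _ _) LL_fin3 hYY
  filter_upwards [hlaw ε hε, hlaw (ε / 2) (by positivity),
    poly_exp ((Real.log 2)⁻¹) 1 (c := ε / 2) (by positivity), eventually_gt_atTop 0] with Y a1 a2 a3 a4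
  obtain ⟨b1, -, -⟩ := a1
  obtain ⟨-, b2, b3⟩ := a2
  rw [pow_one] at a3
  have hYl : Y / Real.log 2 ≤ Real.exp (ε / 2 * Y) := by
    rw [div_eq_inv_mul]
    exact a3
  have hYl0 : 0 ≤ Y / Real.log 2 := by positivity
  have hmono : (1 + ε / 2) * Y ≤ (1 + ε) * Y := by nlinarith
  have hD0 : 0 ≤ DefY α ((1 + ε) * Y) := SS_nonneg (fun i => le_max_left _ _) _
  have hE0 : 0 ≤ ExcY α ((1 + ε) * Y) := SS_nonneg (fun i => le_max_left _ _) _
  refine ⟨b1.trans ((hNle Y).trans (one_mul _).le), ?_, ?_⟩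
  · calc ExcY α Y ≤ (Y / Real.log 2) * SS (fun x => max 0 (dd α x)) LL Y := hPge Y
      _ ≤ (Y / Real.log 2) * (Real.exp (ε / 2 * Y) * SS (fun x => max 0 (-(dd α x))) LL ((1 + ε / 2) * Y)) :=
          mul_le_mul_of_nonneg_left b2 hYl0
      _ ≤ (Y / Real.log 2) * (Real.exp (ε / 2 * Y) * DefY α ((1 + ε) * Y)) := by
          refine mul_le_mul_of_nonneg_left (mul_le_mul_of_nonneg_left ?_ (Real.exp_pos _).le) hYl0
          exact (hNle _).trans ((one_mul _).le.trans (hDm _ _ hmono))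
      _ ≤ Real.exp (ε / 2 * Y) * (Real.exp (ε / 2 * Y) * DefY α ((1 + ε) * Y)) :=
          mul_le_mul_of_nonneg_right hYl (mul_nonneg (Real.exp_pos _).le hD0)
      _ = _ := by
          rw [← mul_assoc, ← Real.exp_add]
          congr 2
          ring
  · calc DefY α Y ≤ (Y / Real.log 2) * SS (fun x => max 0 (-(dd α x))) LL Y := hNge Y
      _ ≤ (Y / Real.log 2) * (Real.exp (ε / 2 * Y) *
            (Real.exp (b * Y) + SS (fun x => max 0 (dd α x)) LL ((1 + ε / 2) * Y))) :=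
          mul_le_mul_of_nonneg_left b3 hYl0
      _ ≤ (Y / Real.log 2) * (Real.exp (ε / 2 * Y) * (Real.exp (b * Y) + ExcY α ((1 + ε) * Y))) := by
          refine mul_le_mul_of_nonneg_left (mul_le_mul_of_nonneg_left (add_le_add le_rfl ?_)
            (Real.exp_pos _).le) hYl0
          exact (hPle _).trans ((one_mul _).le.trans (hEm _ _ hmono))
      _ ≤ Real.exp (ε / 2 * Y) * (Real.exp (ε / 2 * Y) * (Real.exp (b * Y) + ExcY α ((1 + ε) * Y))) :=
          mul_le_mul_of_nonneg_right hYl (mul_nonneg (Real.exp_pos _).le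
            (add_nonneg (Real.exp_pos _).le hE0))
      _ = _ := by
          rw [← mul_assoc, ← Real.exp_add]
          congr 2
          ring

theorem unitary_pow {a : Fin 3 → ℂ} (h : Pool.Agent.W189.RS.Unitary a) (k : ℕ) :
    Pool.Agent.W189.RS.Unitary fun i => a i ^ k := by
  refine ⟨fun i => pow_ne_zero k (h.1 i), ?_⟩
  have h2 := congrArg (Multiset.map fun z : ℂ => z ^ k) h.2
  rw [Multiset.map_map, Multiset.map_map] at h2
  have e : (fun i => ((starRingEnd ℂ) (a i ^ k))⁻¹) =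
      (fun z : ℂ => z ^ k) ∘ fun i => ((starRingEnd ℂ) (a i))⁻¹ := by
    funext i
    simp only [Function.comp, map_pow, inv_pow]
  rw [e, h2]
  rfl

theorem single_le {ι : Type*} {w L : ι → ℝ} (hw : ∀ i, 0 ≤ w i) (hf : ∀ b, {i | L i ≤ b}.Finite) {Y : ℝ} {x : ι}
    (hx : L x ≤ Y) : w x ≤ SS w L Y := by
  classical
  have hs : Summable fun i => if L i ≤ Y then w i else 0 := by
    refine summable_of_hasFiniteSupport ((hf Y).subset fun i hi => ?_)
    by_contra h4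
    exact hi (if_neg h4)
  have h1 := hs.le_tsum x (fun j _ => by
    split_ifs
    · exact hw j
    · exact le_rfl)
  rw [if_pos hx] at h1
  unfold SS
  convert h1

/-- a violation of the Ramanujan conjecture gives excess -/
theorem exc_large {α : PL S → Fin 3 → ℂ} (h : ∀ v, Pool.Agent.W189.RS.Unitary (α v)) (v : PL S) (i : Fin 3) {θ : ℝ}
    (hθ : 0 < θ) (hv : ‖α v i‖ = Real.exp (θ * Real.log (qq v.1 : ℝ))) {ε : ℝ} (hε : 0 < ε) :
    ∀ᶠ Y : ℝ in atTop, Real.exp ((2 * θ - ε) * Y) ≤ ExcY α Y := by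
  set l : ℝ := Real.log (qq v.1 : ℝ) with hl
  have hl0 : 0 < l := Real.log_pos (one_lt_qq v.1)
  set m : ℝ := max (θ - ε / 2) 0 with hm
  have hmθ : m < θ := max_lt (by linarith) hθ
  have hm0 : 0 ≤ m := le_max_right _ _
  filter_upwards [poly_exp (2 * Real.exp (θ * l)) 0 (c := θ - m) (by linarith), eventually_ge_atTop l,
    eventually_ge_atTop 0] with Y a1 a2 a3
  rw [pow_zero, mul_one] at a1
  have hf1 : 1 ≤ ⌊Y / l⌋₊ := by
    rw [Nat.one_le_floor_iff, le_div_iff₀ hl0, one_mul]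
    exact a2
  obtain ⟨k, hk⟩ : ∃ k : ℕ, k + 1 = ⌊Y / l⌋₊ := ⟨⌊Y / l⌋₊ - 1, by omega⟩
  have hk1 : ((k : ℝ) + 1) * l ≤ Y := by
    have h1 : ((⌊Y / l⌋₊ : ℕ) : ℝ) ≤ Y / l := Nat.floor_le (by positivity)
    rw [← hk] at h1
    push_cast at h1
    rwa [le_div_iff₀ hl0] at h1
  have hk2 : Y - l ≤ ((k : ℝ) + 1) * l := by
    have h1 : Y / l < ((⌊Y / l⌋₊ : ℕ) : ℝ) + 1 := Nat.lt_floor_add_one _
    rw [← hk, div_lt_iff₀ hl0] at h1
    push_cast at h1
    nlinarith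
  have hLL : LL (v, k) ≤ Y := hk1
  have hsl := single_le (w := fun x : PL S × ℕ => max 0 (‖∑ i, α x.1 i ^ (x.2 + 1)‖ ^ 2 - 1)) (L := LL)
    (fun x => le_max_left _ _) LL_fin3 hLL
  have hnorm : ‖α v i ^ (k + 1)‖ = Real.exp (θ * (((k : ℝ) + 1) * l)) := by
    rw [norm_pow, hv, ← Real.exp_nat_mul]
    congr 1
    push_cast
    ring
  have hgt : 1 < ‖α v i ^ (k + 1)‖ := by
    rw [hnorm, Real.one_lt_exp_iff]
    positivity
  have hnt : ¬ ∀ j, ‖(fun i => α v i ^ (k + 1)) j‖ = 1 := fun hcon => by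
    have := hcon i
    simp only at this
    linarith
  have hdef := defect_le (unitary_pow (h v) (k + 1)) hnt
  have hone : (‖α v i ^ (k + 1)‖ - 1) ^ 2 ≤ ∑ j, (‖α v j ^ (k + 1)‖ - 1) ^ 2 :=
    Finset.single_le_sum (f := fun j => (‖α v j ^ (k + 1)‖ - 1) ^ 2) (fun j _ => sq_nonneg _) (Finset.mem_univ i)
  have hbig : Real.exp ((θ - ε / 2) * Y) ≤ ‖α v i ^ (k + 1)‖ - 1 := by
    have b1 : Real.exp ((θ - ε / 2) * Y) ≤ Real.exp (m * Y) :=
      Real.exp_le_exp.2 (mul_le_mul_of_nonneg_right (le_max_left _ _) a3)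
    have b2 : 1 ≤ Real.exp (m * Y) := Real.one_le_exp (by positivity)
    have b3 : Real.exp (θ * (Y - l)) ≤ ‖α v i ^ (k + 1)‖ := by
      rw [hnorm]
      exact Real.exp_le_exp.2 (mul_le_mul_of_nonneg_left hk2 hθ.le)
    have b4 : 2 * Real.exp (m * Y) ≤ Real.exp (θ * (Y - l)) := by
      have c1 : Real.exp (θ * (Y - l)) = Real.exp ((θ - m) * Y) * (Real.exp (m * Y) * Real.exp (-(θ * l))) := by
        rw [← Real.exp_add, ← Real.exp_add]
        congr 1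
        ring
      have c2 : 2 * Real.exp (m * Y) = 2 * Real.exp (θ * l) * (Real.exp (m * Y) * Real.exp (-(θ * l))) := by
        rw [Real.exp_neg]
        field_simp
      rw [c1, c2]
      exact mul_le_mul_of_nonneg_right a1 (by positivity)
    linarith
  have hsq : Real.exp ((2 * θ - ε) * Y) ≤ (‖α v i ^ (k + 1)‖ - 1) ^ 2 := by
    have c1 : Real.exp ((2 * θ - ε) * Y) = Real.exp ((θ - ε / 2) * Y) ^ 2 := by
      rw [← Real.exp_nat_mul]
      congr 1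
      push_cast
      ring
    rw [c1]
    exact pow_le_pow_left₀ (Real.exp_pos _).le hbig 2
  have hle := le_max_right (0 : ℝ) (‖∑ i, α v i ^ (k + 1)‖ ^ 2 - 1)
  unfold ExcY
  simp only at hdef hsl
  linarith

/-- lower bounds for the deficiency and for the number of tempered places, at every scale -/
theorem lower3 {α : PL S → Fin 3 → ℂ} (h : AdjointGL3 α) {b : ℝ}
    (hlaw : ∀ ε : ℝ, 0 < ε → ∀ᶠ Y : ℝ in atTop,
      Real.exp ((b - ε) * Y) ≤ DefY α Y ∧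
      ExcY α Y ≤ Real.exp (ε * Y) * DefY α ((1 + ε) * Y) ∧
      DefY α Y ≤ Real.exp (ε * Y) * (Real.exp (b * Y) + ExcY α ((1 + ε) * Y))) {c : ℝ}
    (hb : 0 < b)
    (hc : c < b ∨ ∃ (v : PL S) (i : Fin 3), c < 2 * (Real.log ‖α v i‖ / Real.log (qq v.1 : ℝ))) :
    ∀ᶠ Y : ℝ in atTop, Real.exp (c * Y) ≤ DefY α Y := by
  by_cases hcb : c < b
  · filter_upwards [hlaw (b - c) (by linarith)] with Y hY
    have := hY.1
    rwa [sub_sub_cancel] at this
  · obtain ⟨v, i, hvi⟩ := hc.resolve_left hcb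
    have hl0 : 0 < Real.log (qq v.1 : ℝ) := Real.log_pos (one_lt_qq v.1)
    set θ : ℝ := Real.log ‖α v i‖ / Real.log (qq v.1 : ℝ) with hθ
    have hc0 : 0 < c := lt_of_lt_of_le hb (not_lt.1 hcb)
    have hθ0 : 0 < θ := by linarith
    have hv : ‖α v i‖ = Real.exp (θ * Real.log (qq v.1 : ℝ)) := by
      rw [hθ, div_mul_cancel₀ _ hl0.ne', Real.exp_log (norm_pos_iff.2 ((h.unitary v).1 i))]
    obtain ⟨ε, hε⟩ : ∃ ε : ℝ, ε = (2 * θ - c) / (2 + c) := ⟨_, rfl⟩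
    have hε0 : 0 < ε := by rw [hε]; exact div_pos (by linarith) (by linarith)
    have hεe : ε * (2 + c) = 2 * θ - c := by rw [hε]; field_simp
    have h1 := exc_large h.unitary v i hθ0 hv hε0
    have h2 := h1.and (hlaw ε hε0)
    have ht : Tendsto (fun Y : ℝ => (1 + ε)⁻¹ * id Y) atTop atTop :=
      tendsto_id.const_mul_atTop (show 0 < (1 + ε)⁻¹ by positivity)
    filter_upwards [ht.eventually h2, eventually_ge_atTop 0] with Y hY hY0
    obtain ⟨g1, -, g2, -⟩ := hY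
    have hZ : (1 + ε) * ((1 + ε)⁻¹ * id Y) = Y := by
      rw [← mul_assoc, mul_inv_cancel₀ (by positivity), one_mul]
      rfl
    rw [hZ] at g2
    set Z : ℝ := (1 + ε)⁻¹ * id Y with hZd
    have g3 := g1.trans g2
    have g4 : Real.exp ((2 * θ - ε) * Z) = Real.exp (ε * Z) * Real.exp ((2 * θ - 2 * ε) * Z) := by
      rw [← Real.exp_add]
      congr 1
      ring
    rw [g4] at g3
    have g5 := le_of_mul_le_mul_left g3 (Real.exp_pos _)
    refine le_trans (le_of_eq ?_) g5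
    congr 1
    have : 2 * θ - 2 * ε = c * (1 + ε) := by linarith
    rw [this, mul_assoc, hZ]

theorem temp3 {α : PL S → Fin 3 → ℂ} (h : AdjointGL3 α) {c c₁ : ℝ} (hc : c < c₁)
    (hD : ∀ᶠ Y : ℝ in atTop, Real.exp (c₁ * Y) ≤ DefY α Y) :
    ∀ᶠ Y : ℝ in atTop, Real.exp (c * Y) ≤
      (({v : PL S | Real.log (qq v.1 : ℝ) ≤ Y ∧ ∀ i, ‖α v i‖ = 1}.ncard : ℕ) : ℝ) := by
  have hlog2 : 0 < Real.log 2 := Real.log_pos (by norm_num)
  filter_upwards [hD, poly_exp ((Real.log 2)⁻¹ * ((Real.log 2)⁻¹ + 1)) 2 (c := c₁ - c) (by linarith),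
    eventually_ge_atTop 1] with Y a1 a2 a3
  have hY0 : 0 < Y := by linarith
  have hNge : DefY α Y ≤ (Y / Real.log 2) * SS (fun x => max 0 (-(dd α x))) LL Y := by
    refine Pool.Agent.H274.Iso.SS_scale (LL_fin3 Y) fun x hx => ?_
    have hx0 : (0 : ℝ) < (x.2 : ℝ) + 1 := by positivity
    have h1 : (x.2 : ℝ) + 1 ≤ Y / Real.log 2 := (k_le_LL x).trans (by gcongr)
    have h2 : 0 ≤ max 0 (-(dd α x)) := le_max_left _ _
    have h3 : max 0 (1 - ‖∑ i, α x.1 i ^ (x.2 + 1)‖ ^ 2) = ((x.2 : ℝ) + 1) * max 0 (-(dd α x)) := by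
      rw [neg_part]
      field_simp
    rw [h3]
    exact mul_le_mul_of_nonneg_right h1 h2
  have b2 := neg_count h Y
  set T : ℝ := (({v : PL S | Real.log (qq v.1 : ℝ) ≤ Y ∧ ∀ i, ‖α v i‖ = 1}.ncard : ℕ) : ℝ) with hT
  have hT0 : 0 ≤ T := Nat.cast_nonneg _
  have b3 : ((⌊Y / Real.log 2⌋₊ : ℝ) + 1) ≤ ((Real.log 2)⁻¹ + 1) * Y := by
    have c1 : (⌊Y / Real.log 2⌋₊ : ℝ) ≤ Y / Real.log 2 := Nat.floor_le (by positivity)
    have c2 : Y / Real.log 2 = (Real.log 2)⁻¹ * Y := div_eq_inv_mul _ _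
    linarith
  have b4 : Real.exp (c₁ * Y) ≤ Real.exp ((c₁ - c) * Y) * T := by
    calc Real.exp (c₁ * Y) ≤ (Y / Real.log 2) * SS (fun x => max 0 (-(dd α x))) LL Y := a1.trans hNge
      _ ≤ (Y / Real.log 2) * (((Real.log 2)⁻¹ + 1) * Y * T) :=
          mul_le_mul_of_nonneg_left (b2.trans (mul_le_mul_of_nonneg_right b3 hT0)) (by positivity)
      _ = (Real.log 2)⁻¹ * ((Real.log 2)⁻¹ + 1) * Y ^ 2 * T := by
          rw [div_eq_inv_mul]
          ring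
      _ ≤ Real.exp ((c₁ - c) * Y) * T := mul_le_mul_of_nonneg_right a2 hT0
  have b5 : Real.exp (c₁ * Y) = Real.exp ((c₁ - c) * Y) * Real.exp (c * Y) := by
    rw [← Real.exp_add]
    congr 1
    ring
  rw [b5] at b4
  exact le_of_mul_le_mul_left b4 (Real.exp_pos _)

end Pool.Agent.H274.GL3Law
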