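import Mathlib
import Pool.Agent.Y854.GM.Win

/-! From moments to pointwise bounds in windows. -/

set_option autoImplicit false

open Filter MeasureTheory

namespace Pool.Agent.H274.GWin

variable {T : Type} {h v : T → ℝ}

/-- `v t ≤ C (h t)^κ` for all `t` with `|h t - a u_m| ≤ u_m^θ` for some `m` -/
def Bounded (h v : T → ℝ) (κ a θ : ℝ) (u : ℕ → ℝ) (C : ℝ) : Prop :=
  ∀ (m : ℕ) (t : T), |h t - a * u m| ≤ u m ^ θ → v t ≤ C * h t ^ κ

/-- the elements with a large value -/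
def Large (h v : T → ℝ) (κ : ℝ) : Set T := {t | h t ^ κ ≤ v t}

/-- the number of large values -/
theorem count (hh : ∀ t, 1 ≤ h t) {q : ℕ} (hs : ∀ s : ℝ, 1 < s → Summable fun t => v t ^ q * h t ^ (-s))
    (hv : ∀ t, 0 ≤ v t) {κ : ℝ} (hκ1 : q * κ ≤ 1) (ε : ℝ) (hε : 0 < ε) :
    ∃ C : ℝ, ∀ X : ℝ, 1 ≤ X → {t | t ∈ Large h v κ ∧ h t ≤ X}.Finite ∧
      ({t | t ∈ Large h v κ ∧ h t ≤ X}.ncard : ℝ) ≤ C * X ^ (1 - q * κ + ε) := by
  classical
  have hS := hs (1 + ε) (by linarith)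
  have h0 : ∀ t, 0 ≤ v t ^ q * h t ^ (-(1 + ε)) := fun t => by
    have := hh t
    have := hv t
    positivity
  refine ⟨∑' t, v t ^ q * h t ^ (-(1 + ε)), fun X hX => ?_⟩
  have hX0 : 0 < X := by linarith
  have h1 : ∀ t, t ∈ Large h v κ → h t ≤ X → X ^ (q * κ - (1 + ε)) ≤ v t ^ q * h t ^ (-(1 + ε)) := by
    intro t g1 g2
    have hN0 : 0 < h t := by have := hh t; linarith
    have g3 : h t ^ (q * κ) ≤ v t ^ q := by
      have g4 : h t ^ ((q : ℝ) * κ) = (h t ^ κ) ^ q := by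
        rw [← Real.rpow_natCast (h t ^ κ), ← Real.rpow_mul hN0.le, mul_comm]
      rw [g4]
      exact pow_le_pow_left₀ (by positivity) g1 q
    have g4 : X ^ (q * κ - (1 + ε)) ≤ h t ^ (q * κ - (1 + ε)) :=
      Real.rpow_le_rpow_of_nonpos hN0 g2 (by linarith)
    have g5 : h t ^ (q * κ - (1 + ε)) = h t ^ (q * κ) * h t ^ (-(1 + ε)) := by
      rw [← Real.rpow_add hN0]
      congr 1
    rw [g5] at g4
    exact g4.trans (mul_le_mul_of_nonneg_right g3 (by positivity))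
  have hc : 0 < X ^ (q * κ - (1 + ε)) := by positivity
  have hfin : {t | t ∈ Large h v κ ∧ h t ≤ X}.Finite := by
    have h2 := hS.tendsto_cofinite_zero.eventually (gt_mem_nhds hc)
    refine (Filter.eventually_cofinite.1 h2).subset fun t ht => ?_
    exact not_lt.2 (h1 t ht.1 ht.2)
  refine ⟨hfin, ?_⟩
  set G := hfin.toFinset with hG
  have h2 : ∀ t ∈ G, X ^ (q * κ - (1 + ε)) ≤ v t ^ q * h t ^ (-(1 + ε)) := fun t ht => by
    obtain ⟨g1, g2⟩ := hfin.mem_toFinset.1 ht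
    exact h1 t g1 g2
  have h3 := Finset.sum_le_sum h2
  rw [Finset.sum_const, nsmul_eq_mul] at h3
  have h4 : ∑ t ∈ G, v t ^ q * h t ^ (-(1 + ε)) ≤ ∑' t, v t ^ q * h t ^ (-(1 + ε)) :=
    hS.sum_le_tsum _ fun t _ => h0 t
  rw [Set.ncard_eq_toFinset_card _ hfin]
  have h6 : X ^ (q * κ - (1 + ε)) * X ^ (1 - q * κ + ε) = 1 := by
    rw [← Real.rpow_add hX0]
    have : q * κ - (1 + ε) + (1 - q * κ + ε) = 0 := by ring
    rw [this, Real.rpow_zero]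
  calc (G.card : ℝ) = (G.card : ℝ) * X ^ (q * κ - (1 + ε)) * X ^ (1 - q * κ + ε) := by rw [mul_assoc, h6, mul_one]
    _ ≤ _ := mul_le_mul_of_nonneg_right (h3.trans h4) (by positivity)

/-- the windows for one family of values -/
theorem one (hh : ∀ t, 1 ≤ h t) {q : ℕ} (hs : ∀ s : ℝ, 1 < s → Summable fun t => v t ^ q * h t ^ (-s))
    (hv : ∀ t, 0 ≤ v t) {u : ℕ → ℝ} {τ θ : ℝ} (hu : ∀ m, 1 ≤ u m) (hτ : 0 ≤ τ)
    (hgrow : ∀ t : ℝ, τ < t → Summable fun m : ℕ => u m ^ (-t)) (hθ : θ < 1) {κ : ℝ} (hκ : 0 < κ) (hκ1 : q * κ ≤ 1) :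
    ∃ E : Set ℝ, dimH E ≤ ENNReal.ofReal ((1 - q * κ + τ) / (1 - θ)) ∧
      ∀ a : ℝ, 0 < a → a ∉ E → ∃ C : ℝ, 0 ≤ C ∧ Bounded h v κ a θ u C := by
  classical
  obtain ⟨E, h1, h2⟩ := Pool.Agent.Y854.GM.windows (Large h v κ) h hu hτ hgrow
    (by linarith : 0 ≤ 1 - q * κ) hθ (fun ε hε => count hh hs hv hκ1 ε hε)
  refine ⟨E, h1, fun a ha haE => ?_⟩
  obtain ⟨m₀, hm₀⟩ := h2 a ha haE
  set M : ℝ := 1 + ∑ m ∈ Finset.range m₀, (a * u m + u m ^ θ) with hM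
  have hterm : ∀ m, 0 ≤ a * u m + u m ^ θ := fun m => by
    have := hu m
    positivity
  have hM1 : 1 ≤ M := by
    have : 0 ≤ ∑ m ∈ Finset.range m₀, (a * u m + u m ^ θ) := Finset.sum_nonneg fun m _ => hterm m
    linarith
  obtain ⟨C₁, hC₁⟩ := count hh hs hv hκ1 1 one_pos
  have hfin := (hC₁ M hM1).1
  set C : ℝ := 1 + ∑ t ∈ hfin.toFinset, v t with hC
  have hC1 : 1 ≤ C := by
    have : 0 ≤ ∑ t ∈ hfin.toFinset, v t := Finset.sum_nonneg fun t _ => hv t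
    linarith
  refine ⟨C, by linarith, fun m t hrm => ?_⟩
  have hr1 := hh t
  have hpow : 1 ≤ h t ^ κ := Real.one_le_rpow hr1 hκ.le
  by_cases hL : t ∈ Large h v κ
  · have hm : m < m₀ := by
      by_contra hcon
      exact absurd hrm (not_le.2 (hm₀ m (not_lt.1 hcon) t hL))
    have h3 : h t ≤ M := by
      have h4 : h t ≤ a * u m + u m ^ θ := by
        have := (abs_le.1 hrm).2
        linarith
      have h5 := Finset.single_le_sum (f := fun m => a * u m + u m ^ θ) (fun m _ => hterm m)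
        (Finset.mem_range.2 hm)
      linarith
    have h5 : t ∈ hfin.toFinset := hfin.mem_toFinset.2 ⟨hL, h3⟩
    have h6 : v t ≤ ∑ t ∈ hfin.toFinset, v t := Finset.single_le_sum (f := v) (fun t _ => hv t) h5
    nlinarith
  · have h4 : v t < h t ^ κ := not_le.1 hL
    nlinarith

theorem Bounded.mono (hh : ∀ t, 1 ≤ h t) {κ κ' a θ : ℝ} {u : ℕ → ℝ} {C : ℝ} (hk : κ ≤ κ')
    (hb : Bounded h v κ a θ u C) : Bounded h v κ' a θ u |C| := by
  intro m t hrm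
  have hr1 := hh t
  have h1 : h t ^ κ ≤ h t ^ κ' := Real.rpow_le_rpow_of_exponent_le hr1 hk
  have h2 : 0 ≤ h t ^ κ := by positivity
  calc v t ≤ C * h t ^ κ := hb m t hrm
    _ ≤ |C| * h t ^ κ := mul_le_mul_of_nonneg_right (le_abs_self C) h2
    _ ≤ |C| * h t ^ κ' := mul_le_mul_of_nonneg_left h1 (abs_nonneg C)

/-- the trivial range -/
theorem trivial_range (hh : ∀ t, 1 ≤ h t) {q : ℕ} (hq : 1 ≤ q)
    (hs : ∀ s : ℝ, 1 < s → Summable fun t => v t ^ q * h t ^ (-s))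
    (hv : ∀ t, 0 ≤ v t) {κ a θ : ℝ} {u : ℕ → ℝ} (hκ : 1 < q * κ) : ∃ C : ℝ, Bounded h v κ a θ u C := by
  set S₀ : ℝ := ∑' t, v t ^ q * h t ^ (-(q * κ)) with hS₀
  have hS := hs (q * κ) hκ
  have hp : ∀ t, 0 ≤ v t ^ q * h t ^ (-(q * κ)) := fun t => by
    have := hh t
    have := hv t
    positivity
  have h0 : 0 ≤ S₀ := tsum_nonneg hp
  refine ⟨S₀ + 1, fun m t _ => ?_⟩
  have hr0 : 0 < h t := by have := hh t; linarith
  have h1 : v t ^ q * h t ^ (-(q * κ)) ≤ S₀ := hS.le_tsum t fun t _ => hp t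
  have h3 : (h t ^ κ) ^ q = h t ^ (q * κ) := by
    rw [← Real.rpow_natCast (h t ^ κ), ← Real.rpow_mul hr0.le, mul_comm]
  have h4 : v t ^ q ≤ ((S₀ + 1) * h t ^ κ) ^ q := by
    have h5 : v t ^ q = v t ^ q * h t ^ (-(q * κ)) * h t ^ (q * κ) := by
      rw [mul_assoc, ← Real.rpow_add hr0, neg_add_cancel, Real.rpow_zero, mul_one]
    rw [h5, mul_pow, h3]
    refine mul_le_mul_of_nonneg_right (h1.trans ?_) (by positivity)
    have h6 : 1 ≤ S₀ + 1 := by linarith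
    calc S₀ ≤ (S₀ + 1) ^ 1 := by linarith
      _ ≤ (S₀ + 1) ^ q := pow_le_pow_right₀ h6 hq
  exact le_of_pow_le_pow_left₀ (by omega) (by positivity) h4

/-- almost all `a` -/
theorem ae_one (hh : ∀ t, 1 ≤ h t) {q : ℕ} (hq : 1 ≤ q)
    (hs : ∀ s : ℝ, 1 < s → Summable fun t => v t ^ q * h t ^ (-s))
    (hv : ∀ t, 0 ≤ v t) {u : ℕ → ℝ} {τ θ : ℝ} (hu : ∀ m, 1 ≤ u m) (hτ : 0 ≤ τ)
    (hgrow : ∀ t : ℝ, τ < t → Summable fun m : ℕ => u m ^ (-t)) (hθ : θ < 1) :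
    ∀ᵐ a : ℝ, 0 < a → ∀ κ : ℝ, 0 < κ → (θ + τ) / q < κ → ∃ C : ℝ, Bounded h v κ a θ u C := by
  have hq0 : (0 : ℝ) < q := by exact_mod_cast hq
  have hr : ∀ r : ℚ, ∀ᵐ a : ℝ, 0 < (r : ℝ) → q * (r : ℝ) ≤ 1 → (θ + τ) / q < r → 0 < a →
      ∃ C : ℝ, Bounded h v r a θ u C := by
    intro r
    by_cases hc : 0 < (r : ℝ) ∧ q * (r : ℝ) ≤ 1 ∧ (θ + τ) / q < r
    · obtain ⟨h1, h2, h3⟩ := hc
      obtain ⟨E, hE1, hE2⟩ := one hh hs hv hu hτ hgrow hθ h1 h2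
      have hnull : volume E = 0 := by
        rw [← hausdorffMeasure_real]
        refine hausdorffMeasure_of_dimH_lt (d := 1) (hE1.trans_lt ?_)
        have g1 : (1 - q * r + τ) / (1 - θ) < 1 := by
          rw [div_lt_one (by linarith)]
          rw [div_lt_iff₀ hq0] at h3
          linarith
        simpa using (ENNReal.ofReal_lt_one).2 g1
      filter_upwards [compl_mem_ae_iff.2 hnull] with a ha _ _ _ ha0
      obtain ⟨C, -, hC⟩ := hE2 a ha0 ha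
      exact ⟨C, hC⟩
    · exact Filter.Eventually.of_forall fun a h1 h2 h3 _ => absurd ⟨h1, h2, h3⟩ hc
  have hall : ∀ᵐ a : ℝ, ∀ r : ℚ, 0 < (r : ℝ) → q * (r : ℝ) ≤ 1 → (θ + τ) / q < r → 0 < a →
      ∃ C : ℝ, Bounded h v r a θ u C := ae_all_iff.2 hr
  filter_upwards [hall] with a ha ha0 κ hκ hκ2
  rcases lt_or_ge 1 (q * κ) with hκ1 | hκ1
  · exact trivial_range hh hq hs hv hκ1
  · obtain ⟨r, hr1, hr2⟩ := exists_rat_btwn (show max 0 ((θ + τ) / q) < κ from max_lt hκ hκ2)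
    have hr0 : 0 < (r : ℝ) := (le_max_left _ _).trans_lt hr1
    have hr3 : q * (r : ℝ) ≤ 1 := le_trans (mul_le_mul_of_nonneg_left hr2.le hq0.le) hκ1
    obtain ⟨C, hC⟩ := ha r hr0 hr3 ((le_max_right _ _).trans_lt hr1) ha0
    exact ⟨|C|, hC.mono hh hr2.le⟩

end Pool.Agent.H274.GWin
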