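import Mathlib
import Pool.Agent.Y854.GM.Win

/-! Families of intervals without primes, from series over prime gaps. -/

set_option autoImplicit false

open Finset Filter

namespace Pool.Agent.H274.Gaps

/-- the primes `p 0 = 2, p 1 = 3, …` -/
noncomputable def p (k : ℕ) : ℕ := Nat.nth Nat.Prime k

/-- the gap between `p k` and `p (k + 1)` -/
noncomputable def gap (k : ℕ) : ℕ := p (k + 1) - p k

/-- the index of the largest prime `≤ N` -/
noncomputable def idx (N : ℕ) : ℕ := Nat.count Nat.Prime (N + 1) - 1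

theorem p_prime (k : ℕ) : (p k).Prime := Nat.prime_nth_prime k

theorem p_lt (k : ℕ) : p k < p (k + 1) := Nat.nth_strictMono Nat.infinite_setOfPred_prime (Nat.lt_succ_self k)

theorem count_pos {N : ℕ} (hN : 2 ≤ N) : 0 < Nat.count Nat.Prime (N + 1) :=
  lt_of_le_of_lt (Nat.zero_le _) (Nat.count_strict_mono Nat.prime_two (show 2 < N + 1 by omega))

theorem p_idx_le {N : ℕ} (hN : 2 ≤ N) : p (idx N) ≤ N := by
  have h1 := count_pos hN
  have h2 : idx N < Nat.count Nat.Prime (N + 1) := by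
    unfold idx
    omega
  exact Nat.lt_succ_iff.1 (Nat.nth_lt_of_lt_count h2)

theorem lt_p_idx {N : ℕ} (hN : 2 ≤ N) : N < p (idx N + 1) := by
  have h1 := count_pos hN
  have h2 : idx N + 1 = Nat.count Nat.Prime (N + 1) := by
    unfold idx
    omega
  rw [h2]
  exact Nat.le_nth_count Nat.infinite_setOfPred_prime (N + 1)

/-- an interval without primes is in a gap -/
theorem le_next {N w : ℕ} (hN : 2 ≤ N) (hno : ∀ r : ℕ, r.Prime → ¬ (N < r ∧ r < N + w)) : N + w ≤ p (idx N + 1) := by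
  by_contra hcon
  exact hno _ (p_prime _) ⟨lt_p_idx hN, not_le.1 hcon⟩

theorem w_le_gap {N w : ℕ} (hN : 2 ≤ N) (hno : ∀ r : ℕ, r.Prime → ¬ (N < r ∧ r < N + w)) : w ≤ gap (idx N) := by
  have h1 := le_next hN hno
  have h2 := p_idx_le hN
  unfold gap
  omega

theorem fiber {f w : ℕ → ℕ} {E : Set ℕ} (h2 : ∀ n ∈ E, 2 ≤ f n)
    (hno : ∀ n ∈ E, ∀ r : ℕ, r.Prime → ¬ (f n < r ∧ r < f n + w n))
    (hdis : ∀ n ∈ E, ∀ n' ∈ E, n < n' → f n + w n ≤ f n') (T : Finset ℕ) (hT : ∀ n ∈ T, n ∈ E) (k : ℕ)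
    (hk : ∀ n ∈ T, idx (f n) = k) : ∑ n ∈ T, w n ≤ gap k := by
  classical
  have h3 : (T.biUnion fun n => Finset.Ico (f n) (f n + w n)).card = ∑ n ∈ T, w n := by
    rw [Finset.card_biUnion]
    · refine Finset.sum_congr rfl fun n _ => ?_
      rw [Nat.card_Ico]
      omega
    · intro n hn n' hn' hne
      change Disjoint (Finset.Ico (f n) (f n + w n)) (Finset.Ico (f n') (f n' + w n'))
      rw [Finset.disjoint_left]
      intro x hx hx'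
      rw [Finset.mem_Ico] at hx hx'
      rcases lt_or_gt_of_ne hne with h | h
      · have := hdis n (hT n hn) n' (hT n' hn') h
        omega
      · have := hdis n' (hT n' hn') n (hT n hn) h
        omega
  have h4 : (T.biUnion fun n => Finset.Ico (f n) (f n + w n)) ⊆ Finset.Ico (p k) (p (k + 1)) := by
    intro x hx
    obtain ⟨n, hn, hx⟩ := Finset.mem_biUnion.1 hx
    rw [Finset.mem_Ico] at hx ⊢
    have h5 := p_idx_le (h2 n (hT n hn))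
    have h6 := le_next (h2 n (hT n hn)) (hno n (hT n hn))
    rw [hk n hn] at h5 h6
    omega
  have h5 := Finset.card_le_card h4
  rw [h3, Nat.card_Ico] at h5
  exact h5

theorem sum_pow_le (T : Finset ℕ) (w : ℕ → ℕ) (q : ℕ) : ∑ n ∈ T, w n ^ (q + 1) ≤ (∑ n ∈ T, w n) ^ (q + 1) := by
  calc ∑ n ∈ T, w n ^ (q + 1) ≤ ∑ n ∈ T, w n * (∑ n ∈ T, w n) ^ q := by
        refine Finset.sum_le_sum fun n hn => ?_
        rw [pow_succ, mul_comm]
        exact Nat.mul_le_mul_left _ (Nat.pow_le_pow_left (Finset.single_le_sum (fun _ _ => Nat.zero_le _) hn) q)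
    _ = (∑ n ∈ T, w n) ^ (q + 1) := by
        rw [← Finset.sum_mul, pow_succ, mul_comm]

/-- the series over the exceptional intervals -/
theorem summable_exc {q : ℕ} {B : Set ℕ} {s : ℝ} (hs0 : 0 ≤ s)
    (hs : Summable (B.indicator fun k => (gap k : ℝ) ^ (q + 1) * (p k : ℝ) ^ (-s))) {f w : ℕ → ℕ} {E : Set ℕ}
    (h2 : ∀ n ∈ E, 2 ≤ f n) (hf : ∀ n ∈ E, f n ≤ 2 * n ^ 2)
    (hno : ∀ n ∈ E, ∀ r : ℕ, r.Prime → ¬ (f n < r ∧ r < f n + w n))
    (hdis : ∀ n ∈ E, ∀ n' ∈ E, n < n' → f n + w n ≤ f n') (hB : ∀ n ∈ E, idx (f n) ∈ B) :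
    Summable fun n : E => (w n : ℝ) ^ (q + 1) * (2 * (n : ℝ) ^ 2) ^ (-s) := by
  classical
  have hnn : ∀ k, 0 ≤ (B.indicator (fun k => (gap k : ℝ) ^ (q + 1) * (p k : ℝ) ^ (-s))) k := by
    intro k
    exact Set.indicator_nonneg (fun k _ => by positivity) k
  refine summable_of_sum_le (c := ∑' k, (B.indicator (fun k => (gap k : ℝ) ^ (q + 1) * (p k : ℝ) ^ (-s))) k)
    (fun n => by positivity) fun T => ?_
  set T' : Finset ℕ := T.map (Function.Embedding.subtype _) with hT'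
  have hTE : ∀ n ∈ T', n ∈ E := by
    intro n hn
    obtain ⟨x, _, rfl⟩ := Finset.mem_map.1 hn
    exact x.2
  have h3 : ∑ n ∈ T, (w n : ℝ) ^ (q + 1) * (2 * (n : ℝ) ^ 2) ^ (-s) =
      ∑ n ∈ T', (w n : ℝ) ^ (q + 1) * (2 * (n : ℝ) ^ 2) ^ (-s) := by
    rw [hT', Finset.sum_map]
    rfl
  rw [h3]
  have hpn : ∀ n ∈ T', (2 * (n : ℝ) ^ 2) ^ (-s) ≤ (p (idx (f n)) : ℝ) ^ (-s) := by
    intro n hn
    have h4 := p_idx_le (h2 n (hTE n hn))
    have h5 : (p (idx (f n)) : ℝ) ≤ 2 * (n : ℝ) ^ 2 := by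
      exact_mod_cast h4.trans (hf n (hTE n hn))
    have h6 : (0 : ℝ) < p (idx (f n)) := by exact_mod_cast (p_prime _).pos
    exact Real.rpow_le_rpow_of_nonpos h6 h5 (by linarith)
  calc ∑ n ∈ T', (w n : ℝ) ^ (q + 1) * (2 * (n : ℝ) ^ 2) ^ (-s)
      ≤ ∑ n ∈ T', (w n : ℝ) ^ (q + 1) * (p (idx (f n)) : ℝ) ^ (-s) :=
        Finset.sum_le_sum fun n hn => mul_le_mul_of_nonneg_left (hpn n hn) (by positivity)
    _ = ∑ k ∈ T'.image (fun n => idx (f n)), ∑ n ∈ T' with idx (f n) = k,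
          (w n : ℝ) ^ (q + 1) * (p (idx (f n)) : ℝ) ^ (-s) :=
        (Finset.sum_fiberwise_of_maps_to (fun n hn => Finset.mem_image_of_mem _ hn) _).symm
    _ ≤ ∑ k ∈ T'.image (fun n => idx (f n)), (B.indicator (fun k => (gap k : ℝ) ^ (q + 1) * (p k : ℝ) ^ (-s))) k := by
        refine Finset.sum_le_sum fun k hk => ?_
        obtain ⟨n₀, hn₀, rfl⟩ := Finset.mem_image.1 hk
        rw [Set.indicator_of_mem (hB n₀ (hTE n₀ hn₀))]
        have h4 : ∑ n ∈ T' with idx (f n) = idx (f n₀), (w n : ℝ) ^ (q + 1) * (p (idx (f n)) : ℝ) ^ (-s) =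
            ((∑ n ∈ T' with idx (f n) = idx (f n₀), w n ^ (q + 1) : ℕ) : ℝ) * (p (idx (f n₀)) : ℝ) ^ (-s) := by
          push_cast
          rw [Finset.sum_mul]
          refine Finset.sum_congr rfl fun n hn => ?_
          rw [(Finset.mem_filter.1 hn).2]
        rw [h4]
        refine mul_le_mul_of_nonneg_right ?_ (by positivity)
        have h5 := fiber h2 hno hdis (T'.filter fun n => idx (f n) = idx (f n₀))
          (fun n hn => hTE n (Finset.mem_filter.1 hn).1) (idx (f n₀)) (fun n hn => (Finset.mem_filter.1 hn).2)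
        have h6 := (sum_pow_le (T'.filter fun n => idx (f n) = idx (f n₀)) w q).trans (Nat.pow_le_pow_left h5 (q + 1))
        exact_mod_cast h6
    _ ≤ _ := hs.sum_le_tsum _ fun k _ => hnn k

/-- from series to counting -/
theorem count_exc {E : Set ℕ} {t : ℝ} (ht : 0 ≤ t) (hE : ∀ n ∈ E, 1 ≤ n) (h : Summable fun n : E => ((n : ℕ) : ℝ) ^ (-t)) :
    ∃ C : ℝ, ∀ X : ℝ, 1 ≤ X → {n | n ∈ E ∧ (n : ℝ) ≤ X}.Finite ∧ ({n | n ∈ E ∧ (n : ℝ) ≤ X}.ncard : ℝ) ≤ C * X ^ t := by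
  classical
  refine ⟨∑' n : E, ((n : ℕ) : ℝ) ^ (-t), fun X hX => ?_⟩
  have hX0 : 0 < X := by linarith
  have hfin : {n | n ∈ E ∧ (n : ℝ) ≤ X}.Finite := (Set.finite_Iic ⌊X⌋₊).subset fun n hn => Nat.le_floor hn.2
  refine ⟨hfin, ?_⟩
  rw [Set.ncard_eq_toFinset_card _ hfin]
  set G : Finset E := hfin.toFinset.attach.image (fun x => (⟨x.1, (hfin.mem_toFinset.1 x.2).1⟩ : E)) with hG
  have hcard : hfin.toFinset.card = G.card := by
    rw [hG, Finset.card_image_of_injective _ (fun x y hxy => Subtype.ext (by simpa using hxy)), Finset.card_attach]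
  have h1 : ∀ n ∈ G, X ^ (-t) ≤ ((n : ℕ) : ℝ) ^ (-t) := by
    intro n hn
    obtain ⟨x, _, rfl⟩ := Finset.mem_image.1 hn
    have h2 := hfin.mem_toFinset.1 x.2
    have h3 : (1 : ℝ) ≤ (x.1 : ℝ) := by exact_mod_cast hE _ h2.1
    exact Real.rpow_le_rpow_of_nonpos (by linarith) h2.2 (by linarith)
  have h2 := Finset.sum_le_sum h1
  rw [Finset.sum_const, nsmul_eq_mul] at h2
  have h3 : ∑ n ∈ G, ((n : ℕ) : ℝ) ^ (-t) ≤ ∑' n : E, ((n : ℕ) : ℝ) ^ (-t) := h.sum_le_tsum _ fun n _ => by positivity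
  rw [hcard]
  have h4 : X ^ (-t) * X ^ t = 1 := by
    rw [← Real.rpow_add hX0, neg_add_cancel, Real.rpow_zero]
  calc (G.card : ℝ) = (G.card : ℝ) * X ^ (-t) * X ^ t := by rw [mul_assoc, h4, mul_one]
    _ ≤ _ := mul_le_mul_of_nonneg_right (h2.trans h3) (by positivity)

/-- **Windows.** Intervals `(f n, f n + w n)`, `w n ≥ c n^γ`, without primes, from a series over gaps -/
theorem windows {q : ℕ} {B : Set ℕ} {σ γ c : ℝ} (hc : 0 < c)
    (hs : ∀ s : ℝ, σ < s → Summable (B.indicator fun k => (gap k : ℝ) ^ (q + 1) * (p k : ℝ) ^ (-s))) {f w : ℕ → ℕ} {E : Set ℕ}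
    (hσ : 0 ≤ σ) (hρ : 0 ≤ 2 * σ - (q + 1) * γ)
    (h2 : ∀ n ∈ E, 2 ≤ f n) (hf : ∀ n ∈ E, f n ≤ 2 * n ^ 2) (hw : ∀ n ∈ E, c * (n : ℝ) ^ γ ≤ w n)
    (hno : ∀ n ∈ E, ∀ r : ℕ, r.Prime → ¬ (f n < r ∧ r < f n + w n))
    (hdis : ∀ n ∈ E, ∀ n' ∈ E, n < n' → f n + w n ≤ f n') (hB : ∀ n ∈ E, idx (f n) ∈ B)
    {u : ℕ → ℝ} {τ θ : ℝ} (hu : ∀ m, 1 ≤ u m) (hτ : 0 ≤ τ) (hgrow : ∀ t : ℝ, τ < t → Summable fun m : ℕ => u m ^ (-t))
    (hθ : θ < 1) :
    ∃ Z : Set ℝ, dimH Z ≤ ENNReal.ofReal ((2 * σ - (q + 1) * γ + τ) / (1 - θ)) ∧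
      ∀ a : ℝ, 0 < a → a ∉ Z → ∃ m₀ : ℕ, ∀ m : ℕ, m₀ ≤ m → ∀ n ∈ E, u m ^ θ < |(n : ℝ) - a * u m| := by
  have hE1 : ∀ n ∈ E, 1 ≤ n := by
    intro n hn
    by_contra hcon
    have h0 : n = 0 := by omega
    have h3 := h2 n hn
    have h4 := hf n hn
    rw [h0] at h4
    simp at h4
    rw [h0] at h3
    omega
  refine Pool.Agent.Y854.GM.windows E (fun n : ℕ => (n : ℝ)) hu hτ hgrow hρ hθ fun ε hε => ?_
  have h3 := summable_exc (q := q) (s := σ + ε / 2) (by linarith) (hs _ (by linarith)) h2 hf hno hdis hB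
  have h4 : Summable fun n : E => ((n : ℕ) : ℝ) ^ (-(2 * σ - (q + 1) * γ + ε)) := by
    have h5 := h3.mul_left ((c ^ (q + 1))⁻¹ * 2 ^ (σ + ε / 2))
    refine Summable.of_nonneg_of_le (fun n => by positivity) (fun n => ?_) h5
    have hn1 : (1 : ℝ) ≤ ((n : ℕ) : ℝ) := by exact_mod_cast hE1 n n.2
    have hn0 : (0 : ℝ) < ((n : ℕ) : ℝ) := by linarith
    have h6 : (2 * ((n : ℕ) : ℝ) ^ 2) ^ (-(σ + ε / 2)) = 2 ^ (-(σ + ε / 2)) * ((n : ℕ) : ℝ) ^ (-(2 * σ + ε)) := by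
      rw [Real.mul_rpow (by norm_num) (by positivity), ← Real.rpow_natCast, ← Real.rpow_mul hn0.le]
      congr 2
      push_cast
      ring
    have h7 : c ^ (q + 1) * ((n : ℕ) : ℝ) ^ ((q + 1) * γ) ≤ (w n : ℝ) ^ (q + 1) := by
      have h8 := pow_le_pow_left₀ (by positivity) (hw n n.2) (q + 1)
      rw [mul_pow] at h8
      have h9 : (((n : ℕ) : ℝ) ^ γ) ^ (q + 1) = ((n : ℕ) : ℝ) ^ (((q : ℝ) + 1) * γ) := by
        rw [← Real.rpow_natCast, ← Real.rpow_mul hn0.le]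
        congr 1
        push_cast
        ring
      rwa [h9] at h8
    have h10 : (2 : ℝ) ^ (σ + ε / 2) * 2 ^ (-(σ + ε / 2)) = 1 := by
      rw [← Real.rpow_add (by norm_num), add_neg_cancel, Real.rpow_zero]
    have hcq : (c ^ (q + 1))⁻¹ * c ^ (q + 1) = 1 := inv_mul_cancel₀ (by positivity)
    have h11 : ((n : ℕ) : ℝ) ^ (-(2 * σ - ((q : ℝ) + 1) * γ + ε)) =
        ((n : ℕ) : ℝ) ^ (((q : ℝ) + 1) * γ) * ((n : ℕ) : ℝ) ^ (-(2 * σ + ε)) := by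
      rw [← Real.rpow_add hn0]
      congr 1
      ring
    rw [h6, h11]
    calc ((n : ℕ) : ℝ) ^ (((q : ℝ) + 1) * γ) * ((n : ℕ) : ℝ) ^ (-(2 * σ + ε)) =
        ((c ^ (q + 1))⁻¹ * c ^ (q + 1)) * ((2 : ℝ) ^ (σ + ε / 2) * 2 ^ (-(σ + ε / 2))) *
          (((n : ℕ) : ℝ) ^ (((q : ℝ) + 1) * γ) * ((n : ℕ) : ℝ) ^ (-(2 * σ + ε))) := by
          rw [hcq, h10]
          ring
      _ = (c ^ (q + 1))⁻¹ * (2 : ℝ) ^ (σ + ε / 2) * (c ^ (q + 1) * ((n : ℕ) : ℝ) ^ (((q : ℝ) + 1) * γ) *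
            (2 ^ (-(σ + ε / 2)) * ((n : ℕ) : ℝ) ^ (-(2 * σ + ε)))) := by ring
      _ ≤ (c ^ (q + 1))⁻¹ * (2 : ℝ) ^ (σ + ε / 2) * ((w n : ℝ) ^ (q + 1) *
            (2 ^ (-(σ + ε / 2)) * ((n : ℕ) : ℝ) ^ (-(2 * σ + ε)))) := by
          refine mul_le_mul_of_nonneg_left (mul_le_mul_of_nonneg_right h7 (by positivity)) (by positivity)
  exact count_exc (by linarith) hE1 h4

end Pool.Agent.H274.Gaps
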