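import Mathlib
import Pool.Agent.H274.Gaps

/-! At least four primes between `l²` and `(l + 2)²`, for all `l` in windows, from Heath-Brown's theorem on gaps. -/

set_option autoImplicit false

open Finset Filter MeasureTheory

namespace Pool.Agent.H274.Squares

/-- the large gaps -/
def B : Set ℕ := {k : ℕ | Real.sqrt (Gaps.p k) ≤ (Gaps.gap k : ℝ)}

/-- the series over the large gaps -/
def Hyp : Prop := ∀ s : ℝ, 3 / 5 < s → Summable (B.indicator fun k => (Gaps.gap k : ℝ) * (Gaps.p k : ℝ) ^ (-s))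

theorem side (hHB : Hyp) {f w : ℕ → ℕ} (h2 : ∀ n, 4 ≤ n → 2 ≤ f n) (hf : ∀ n, 4 ≤ n → f n ≤ 2 * n ^ 2)
    (hw : ∀ n, n ≤ w n) (hfw : ∀ n, f n ≤ w n ^ 2)
    (hdis : ∀ n n', 4 ≤ n → n < n' → f n + w n ≤ f n') {u : ℕ → ℝ} {τ θ : ℝ} (hu : ∀ m, 1 ≤ u m) (hτ : 0 ≤ τ)
    (hgrow : ∀ t : ℝ, τ < t → Summable fun m : ℕ => u m ^ (-t)) (hθ : θ < 1) :
    ∃ Z : Set ℝ, dimH Z ≤ ENNReal.ofReal ((1 / 5 + τ) / (1 - θ)) ∧
      ∀ a : ℝ, 0 < a → a ∉ Z → ∃ m₀ : ℕ, ∀ m : ℕ, m₀ ≤ m → ∀ n : ℕ, 4 ≤ n → |(n : ℝ) - a * u m| ≤ u m ^ θ →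
        ∃ q : ℕ, q.Prime ∧ f n < q ∧ q < f n + w n := by
  set E : Set ℕ := {n | 4 ≤ n ∧ ∀ r : ℕ, r.Prime → ¬ (f n < r ∧ r < f n + w n)} with hE
  obtain ⟨Z, h1, h3⟩ := Gaps.windows (q := 0) (B := B) (σ := 3 / 5) (γ := 1) (c := 1) one_pos
    (fun s hs => by
      have := hHB s hs
      simpa using this)
    (f := f) (w := w) (E := E) (by norm_num) (by norm_num) (fun n hn => h2 n hn.1)
    (fun n hn => hf n hn.1) (fun n _ => by
      rw [one_mul, Real.rpow_one]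
      exact_mod_cast hw n) (fun n hn => hn.2)
    (fun n hn n' _ h => hdis n n' hn.1 h)
    (fun n hn => by
      have h4 := Gaps.w_le_gap (h2 n hn.1) hn.2
      have h5 := Gaps.p_idx_le (h2 n hn.1)
      change Real.sqrt (Gaps.p (Gaps.idx (f n))) ≤ (Gaps.gap (Gaps.idx (f n)) : ℝ)
      have h6 : Real.sqrt (Gaps.p (Gaps.idx (f n))) ≤ w n := by
        rw [Real.sqrt_le_left (Nat.cast_nonneg _)]
        exact_mod_cast h5.trans (hfw n)
      exact h6.trans (by exact_mod_cast h4))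
    hu hτ hgrow hθ
  refine ⟨Z, h1.trans (le_of_eq ?_), fun a ha haZ => ?_⟩
  · congr 2
    norm_num
  · obtain ⟨m₀, hm₀⟩ := h3 a ha haZ
    refine ⟨m₀, fun m hm n hn hnm => ?_⟩
    by_contra hcon
    push Not at hcon
    exact absurd hnm (not_le.2 (hm₀ m hm n ⟨hn, fun r hr h => absurd h.2 (not_lt.2 (hcon r hr h.1))⟩))

/-- four primes between `l²` and `(l + 2)²` -/
theorem four (hHB : Hyp) {u : ℕ → ℝ} {τ θ : ℝ} (hu : ∀ m, 1 ≤ u m) (hτ : 0 ≤ τ)
    (hgrow : ∀ t : ℝ, τ < t → Summable fun m : ℕ => u m ^ (-t)) (hθ : θ < 1) :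
    ∃ Z : Set ℝ, dimH Z ≤ ENNReal.ofReal ((1 / 5 + τ) / (1 - θ)) ∧
      ∀ a : ℝ, 0 < a → a ∉ Z → ∃ m₀ : ℕ, ∀ m : ℕ, m₀ ≤ m → ∀ l : ℕ, 4 ≤ l → |(l : ℝ) - a * u m| ≤ u m ^ θ →
        4 ≤ ((Finset.Ioo (l ^ 2) ((l + 2) ^ 2)).filter Nat.Prime).card := by
  classical
  obtain ⟨Z1, hZ1, h1⟩ := side hHB (f := fun l => l ^ 2) (w := fun l => l) (fun n hn => by nlinarith)
    (fun n hn => by nlinarith) (fun n => le_rfl) (fun n => le_rfl) (fun n n' hn h => by nlinarith) hu hτ hgrow hθ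
  obtain ⟨Z2, hZ2, h2⟩ := side hHB (f := fun l => l ^ 2 + l) (w := fun l => l + 1) (fun n hn => by nlinarith)
    (fun n hn => by nlinarith) (fun n => by omega) (fun n => by nlinarith) (fun n n' hn h => by nlinarith) hu hτ hgrow hθ
  obtain ⟨Z3, hZ3, h3⟩ := side hHB (f := fun l => (l + 1) ^ 2) (w := fun l => l + 1) (fun n hn => by nlinarith)
    (fun n hn => by nlinarith) (fun n => by omega) (fun n => by nlinarith) (fun n n' hn h => by nlinarith) hu hτ hgrow hθ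
  obtain ⟨Z4, hZ4, h4⟩ := side hHB (f := fun l => (l + 1) ^ 2 + (l + 1)) (w := fun l => l + 2) (fun n hn => by nlinarith)
    (fun n hn => by nlinarith) (fun n => by omega) (fun n => by nlinarith) (fun n n' hn h => by nlinarith) hu hτ hgrow hθ
  refine ⟨(Z1 ∪ Z2) ∪ (Z3 ∪ Z4), ?_, fun a ha haZ => ?_⟩
  · rw [dimH_union, dimH_union, dimH_union]
    exact max_le (max_le hZ1 hZ2) (max_le hZ3 hZ4)
  · obtain ⟨m1, hm1⟩ := h1 a ha fun h => haZ (Or.inl (Or.inl h))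
    obtain ⟨m2, hm2⟩ := h2 a ha fun h => haZ (Or.inl (Or.inr h))
    obtain ⟨m3, hm3⟩ := h3 a ha fun h => haZ (Or.inr (Or.inl h))
    obtain ⟨m4, hm4⟩ := h4 a ha fun h => haZ (Or.inr (Or.inr h))
    refine ⟨max (max m1 m2) (max m3 m4), fun m hm l hl hlm => ?_⟩
    have e1 : m1 ≤ m := ((le_max_left _ _).trans (le_max_left _ _)).trans hm
    have e2 : m2 ≤ m := ((le_max_right _ _).trans (le_max_left _ _)).trans hm
    have e3 : m3 ≤ m := ((le_max_left _ _).trans (le_max_right _ _)).trans hm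
    have e4 : m4 ≤ m := ((le_max_right _ _).trans (le_max_right _ _)).trans hm
    obtain ⟨q1, a1, b1, c1⟩ := hm1 m e1 l hl hlm
    obtain ⟨q2, a2, b2, c2⟩ := hm2 m e2 l hl hlm
    obtain ⟨q3, a3, b3, c3⟩ := hm3 m e3 l hl hlm
    obtain ⟨q4, a4, b4, c4⟩ := hm4 m e4 l hl hlm
    have d1 : q1 < q2 := by omega
    have d2 : q2 < q3 := by nlinarith
    have d3 : q3 < q4 := by omega
    have hsub : ({q1, q2, q3, q4} : Finset ℕ) ⊆ (Finset.Ioo (l ^ 2) ((l + 2) ^ 2)).filter Nat.Prime := by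
      intro q hq
      rw [Finset.mem_filter, Finset.mem_Ioo]
      simp only [Finset.mem_insert, Finset.mem_singleton] at hq
      have f1 : l ^ 2 < q1 := b1
      have f2 : q4 < (l + 2) ^ 2 := by nlinarith
      rcases hq with rfl | rfl | rfl | rfl
      · exact ⟨⟨by omega, by omega⟩, a1⟩
      · exact ⟨⟨by omega, by omega⟩, a2⟩
      · exact ⟨⟨by omega, by omega⟩, a3⟩
      · exact ⟨⟨by omega, by omega⟩, a4⟩
    have hcard : ({q1, q2, q3, q4} : Finset ℕ).card = 4 := by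
      rw [Finset.card_insert_of_notMem, Finset.card_insert_of_notMem, Finset.card_insert_of_notMem, Finset.card_singleton]
      · simp only [Finset.mem_singleton]
        omega
      · simp only [Finset.mem_insert, Finset.mem_singleton]
        omega
      · simp only [Finset.mem_insert, Finset.mem_singleton]
        omega
    have := Finset.card_le_card hsub
    omega

end Pool.Agent.H274.Squares
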